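import Pool.Agent.H842.PP.Neu

/-!
# The theorems on systems of tensors with a bilinear contraction
-/

set_option linter.unusedSectionVars false
set_option linter.unusedVariables false

namespace Pool.Agent.H842.PP
open Matrix MeasureTheory
open Pool.Agent.R914.UN

/-- The data: a group generated by tori, with a polarisation and an invariant form. -/
structure GD (B : Type) [Fintype B] [DecidableEq B] where
  w : ℕ
  T : Set (ℤ → Matrix B B ℂ)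
  K : Matrix B B ℂ
  J : Matrix B B ℂ
  Ψ : Matrix B B ℂ
  C : Matrix B B ℂ
  C' : Matrix B B ℂ
  v0 : (Fin 1 → B) → ℂ
  one : ∀ e ∈ T, curve w e 1 = 1
  proj : ∀ e ∈ T, ∀ j k : ℤ, j ≠ k → e j * e k = 0
  inv : ∀ e ∈ T, ∀ z : ℂ, z ≠ 0 → ∃ g' ∈ gen w T, g' * (K * (curve w e z).map star) = K
  hC : C ∈ gen w T
  hC' : C' ∈ gen w T
  hCC : C' * C = 1
  pol : Kᵀ * Ψ * C = 1
  hJ : IsUnit J.det
  hJg : ∀ g ∈ gen w T, gᵀ * J * g = J
  hΨg : ∀ g ∈ gen w T, gᵀ * Ψ * g = Ψ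
  v0ne : v0 ≠ 0
  v0G : ∀ g ∈ gen w T, tp (Fin 1) g *ᵥ v0 = v0

variable {B : Type} [Fintype B] [DecidableEq B]

theorem gen_star {w : ℕ} {T : Set (ℤ → Matrix B B ℂ)} {K Ψ C C' : Matrix B B ℂ}
    (hinv : ∀ e ∈ T, ∀ z : ℂ, z ≠ 0 → ∃ g' ∈ gen w T, g' * (K * (curve w e z).map star) = K)
    (hC : C ∈ gen w T) (hC' : C' ∈ gen w T) (hCC : C' * C = 1) (hpol : Kᵀ * Ψ * C = 1)
    (hΨg : ∀ g ∈ gen w T, gᵀ * Ψ * g = Ψ) : ∀ g ∈ gen w T, gᴴ ∈ gen w T := by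
  have hCC' : C * C' = 1 := mul_eq_one_comm.1 hCC
  have hKΨ : Kᵀ * Ψ = C' := by
    calc Kᵀ * Ψ = Kᵀ * Ψ * C * C' := by rw [Matrix.mul_assoc, hCC', Matrix.mul_one]
      _ = C' := by rw [hpol, Matrix.one_mul]
  intro g hg
  rw [gen] at hg
  induction hg using Submonoid.closure_induction with
  | mem g hg =>
    obtain ⟨e, he, z, hz, rfl⟩ := hg
    obtain ⟨g', hg', h1⟩ := hinv e he z hz
    set g := curve w e z with hgdef
    have h2 : gᴴ * Kᵀ * g'ᵀ = Kᵀ := by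
      have := congrArg transpose h1
      rwa [transpose_mul, transpose_mul] at this
    have h3 : gᴴ * C' = C' * g' := by
      calc gᴴ * C' = gᴴ * (Kᵀ * (g'ᵀ * Ψ * g')) := by rw [hΨg g' hg', hKΨ]
        _ = (gᴴ * Kᵀ * g'ᵀ) * Ψ * g' := by simp only [Matrix.mul_assoc]
        _ = C' * g' := by rw [h2, hKΨ]
    have h4 : gᴴ = C' * g' * C := by
      rw [← h3, Matrix.mul_assoc, hCC, Matrix.mul_one]
    rw [h4]
    exact Submonoid.mul_mem _ (Submonoid.mul_mem _ hC' hg') hC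
  | one => rw [conjTranspose_one]; exact Submonoid.one_mem _
  | mul x y _ _ hx hy =>
    rw [conjTranspose_mul]
    exact Submonoid.mul_mem _ hy hx

namespace GD

variable (D : GD B)

/-- The group. -/
def G : Submonoid (Matrix B B ℂ) := gen D.w D.T

theorem star_mem : ∀ g ∈ D.G, gᴴ ∈ D.G :=
  gen_star D.inv D.hC D.hC' D.hCC D.pol D.hΨg

theorem J0u : IsUnit (D.J⁻¹).det := isUnit_nonsing_inv_det _ D.hJ

theorem J0g : ∀ g ∈ D.G, g * D.J⁻¹ * gᵀ = D.J⁻¹ := fun g hg => dual_form D.hJ (D.hJg g hg)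

/-- The neutral invariants. -/
noncomputable def neu : TSys B := neuT D.star_mem D.J0u D.J0g

theorem neu_form : D.neu.HasForm := neuT_form D.star_mem D.J0u D.J0g

/-- The stabiliser of the neutral invariants. -/
noncomputable def H : Submonoid (Matrix B B ℂ) := stab D.neu

theorem H_star : ∀ g ∈ D.H, gᴴ ∈ D.H := stab_star D.neu_form

/-- The neutral invariants, as the invariants of their stabiliser. -/
noncomputable def TI : TSys B := invT D.H D.H_star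

theorem mem_TI {ι : Type} [Fintype ι] [DecidableEq ι] {v : (ι → B) → ℂ} :
    v ∈ D.TI.A ι ↔ (∀ g ∈ D.G, tp ι g *ᵥ v = v) ∧ ∀ Z ∈ zz D.G D.J⁻¹, der ι Z *ᵥ v = 0 :=
  stab_inv

theorem form_mem : (fun w : Fin 2 → B => D.J⁻¹ (w 0) (w 1)) ∈ D.TI.A (Fin 2) := by
  have := two_neutral D.star_mem D.J0u D.J0g (M := 1) fun g _ => by rw [mul_one, one_mul]
  rw [one_mul] at this
  exact stab_inv.2 this

theorem HJ : ∀ g ∈ D.H, g * D.J⁻¹ * gᵀ = D.J⁻¹ := by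
  intro g hg
  have h1 := D.form_mem g hg
  rw [tp_two] at h1
  exact fun_two_inj h1

theorem Hfin : ∀ Z : Matrix B B ℂ, (∀ Y ∈ lie D.H, Z * Y = Y * Z) →
    (∀ M : Matrix B B ℂ, (∀ g ∈ D.H, g * M = M * g) → Z * M = M * Z) →
      Z * D.J⁻¹ = -(D.J⁻¹ * Zᵀ) → Z ∈ lie D.H :=
  neu_fin D.star_mem D.J0u D.J0g fun Z hZ => conn D.one D.proj hZ

theorem v0_mem : D.v0 ∈ D.TI.A (Fin 1) :=
  stab_inv.2 (neu_one D.star_mem D.J0u D.J0g D.v0G)

theorem two_mem {v : (Fin 2 → B) → ℂ} (hv : ∀ g ∈ D.G, tp (Fin 2) g *ᵥ v = v) :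
    v ∈ D.TI.A (Fin 2) := stab_inv.2 (neu_two D.star_mem D.J0u D.J0g hv)

include D in
theorem cardB : 1 ≤ Fintype.card B := by
  obtain ⟨I, -⟩ := Function.ne_iff.1 D.v0ne
  exact Fintype.card_pos_iff.2 ⟨I 0⟩

end GD

/-- The neutral part of a system of tensors. -/
theorem exists_neutral (D : GD B) (S : PSys B) (hSJ : S.J = D.J) (hSK : S.K = D.K)
    (hfix : ∀ (ι : Type) [Fintype ι] [DecidableEq ι] (v : (ι → B) → ℂ), v ∈ S.A ι →
      ∀ g ∈ D.G, tp ι g *ᵥ v = v)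
    (hH : ∀ v ∈ D.TI.A (Fin 2), v ∈ S.A (Fin 2)) :
    ∃ TS : TSys B, TS.HasForm ∧
      ∀ (ι : Type) [Fintype ι] [DecidableEq ι], TS.A ι = S.A ι ⊓ D.TI.A ι := by
  obtain ⟨-, TS, hform, hTS⟩ := exists_tsys S (w := D.w) (T := D.T) (by rw [hSK]; exact D.inv)
    D.hC D.hC' D.hCC (by rw [hSK]; exact D.pol) (by rw [hSJ]; exact D.hJ)
    (by rw [hSJ]; exact D.hJg) D.hΨg hfix (fun v hv => hH v (D.two_mem hv))
  refine ⟨
    { A := fun ι _ _ => S.A ι ⊓ D.TI.A ι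
      relabel := fun e v hv => ⟨S.relabel e hv.1, D.TI.relabel e hv.2⟩
      empty := fun v => ⟨S.empty v, D.TI.empty v⟩
      mul := fun hv hu => ⟨S.mul hv.1 hu.1, D.TI.mul hv.2 hu.2⟩
      con := fun {ι κ} _ _ _ _ {v u} hv hu => ⟨by
        have h1 := TS.con (v := v) (u := u) (by rw [hTS]; exact hv.1) (by rw [hTS]; exact hu.1)
        rwa [hTS] at h1, D.TI.con hv.2 hu.2⟩ }, ?_, fun ι _ _ => rfl⟩
  exact ⟨D.J⁻¹, D.J0u, hH _ D.form_mem, D.form_mem⟩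

section main
variable (D : GD B) {TS : TSys B} (hform : TS.HasForm)
  (hle : ∀ (ι : Type) [Fintype ι] [DecidableEq ι], TS.A ι ≤ D.TI.A ι)
include hform hle

/-- **The machine.** -/
theorem dat_machine
    (hH : ∀ n : ℕ, n ≤ pbound (Fintype.card B) → D.TI.A (Fin n) ≤ TS.A (Fin n))
    (ι : Type) [Fintype ι] [DecidableEq ι] : D.TI.A ι ≤ TS.A ι := by
  intro v hv
  exact machine2 hform D.H_star D.J0u D.HJ D.Hfin D.v0ne D.v0_mem
    (fun n hn v hv => hH n hn hv) hv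

/-- **The index.** -/
theorem dat_idx (hH : ∀ n : ℕ, n ≤ 4 → D.TI.A (Fin n) ≤ TS.A (Fin n)) :
    idx TS D.TI ≠ 0 ∧ idx TS D.TI ≤ (4 * Fintype.card B) ^ (2 * Fintype.card B ^ 2) :=
  idx_props D.H_star D.J0u D.HJ D.Hfin D.cardB (fun n hn v hv => hH n hn hv)

/-- **The dimensions.** -/
theorem dat_dim (h0 : idx TS D.TI ≠ 0) (hH : D.TI.A (Fin 2) ≤ TS.A (Fin 2)) (ι : Type) [Fintype ι]
    [DecidableEq ι] (hι : Even (Fintype.card ι)) :
    Module.finrank ℂ (D.TI.A ι) ≤ idx TS D.TI * Module.finrank ℂ (TS.A ι) :=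
  machineA hform D.H_star D.J0u D.HJ h0 (fun g hg ι _ _ v hv => (hle ι hv) g hg)
    (fun v hv => hH hv) hι

end main

end Pool.Agent.H842.PP
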