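import Pool.Graph.R_seed8.R940.HDefs
import Pool.Graph.R_pool_sql_team_seeded_b0a926ef.R914.UN.HDefs

/-!
# The polynomial bound and neutral classes: definitions

A Hodge theory `T` (`Pool.Agent.Y121.AHS.HodgeTheory`) is a Weil cohomology theory with rational
coefficients and a Hodge decomposition of its cohomology with complex coefficients; in the intended use
it is the cohomology of the smooth projective complex varieties. `pw X n` is `X ^ (n + 1)`, and `H(X)`
is the sum of the `H^i(X)`.
-/

open CategoryTheory AlgebraicGeometry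

universe u

namespace Pool.Agent.H842.PP

open Pool.Agent.H914 Pool.Agent.H914.VarClass Pool.Agent.H914.VarClass.Obj
  Pool.Agent.H914.WeilCohomology Pool.Agent.Y121.AHS Pool.Agent.R940
open Pool.Agent.Y163 (pw)

variable {k : Type u} [Field k] {𝒱 : VarClass k} {ops : CycleOps 𝒱}

/-- The number `N = 6 b ^ 3 (log₂ b + 3)`; the logarithm is rounded down. -/
def polyBound (b : ℕ) : ℕ := 6 * b ^ 3 * (Nat.log 2 b + 3)

/-- The number `2 b ^ 2 (log₂ b + 3)`; the logarithm is rounded down. -/
def numBound (b : ℕ) : ℕ := 2 * b ^ 2 * (Nat.log 2 b + 3)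

/-- The number `(4 b) ^ (2 b ^ 2)`. -/
def idxBound (b : ℕ) : ℕ := (4 * b) ^ (2 * b ^ 2)

/-- The value of the endomorphism `f` of `H(X)` at `x`. -/
noncomputable def app {T : HodgeTheory ops} {X : 𝒱.Obj} (f : EndH T X) (x : T.W.H X) : T.W.H X :=
  endApp (K := T.W.K) f x

/-- The sum of the spaces of the classes of the types `(p + m, q + m)`, `m` an integer. -/
noncomputable def shifted (T : HodgeTheory ops) (X : 𝒱.Obj) (p q : ℤ) :
    Submodule ℂ (HL T.W ℂ X) :=
  Submodule.span ℂ {y | ∃ m : ℤ, IsType T.pq (p + m) (q + m) y}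

/-- Hodge endomorphisms of `H(X)`: the rational endomorphism `f` maps the classes of type `(p, q)`
to sums of classes of the types `(p + m, q + m)`, for all `p` and `q`. -/
def IsHodgeEnd {T : HodgeTheory ops} {X : 𝒱.Obj} (f : EndH T X) : Prop :=
  ∀ (p q : ℤ) (x : HL T.W ℂ X), IsType T.pq p q x → endC f x ∈ shifted T X p q

/-- The form `t (x * y)` of an algebra `H`, for a linear form `t`. -/
def mulForm {K H : Type} [CommSemiring K] [Semiring H] [Module K H] (t : H →ₗ[K] K) (x y : H) : K :=
  t (x * y)

/-- The intersection form `tr(x * y)` of `H(X)`. -/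
noncomputable def form {T : HodgeTheory ops} {X : 𝒱.Obj} (x y : T.W.H X) : T.W.K :=
  mulForm (T.W.tr X) x y

/-- The endomorphism `f` commutes with all Hodge endomorphisms of `H(X)`. -/
def IsCentral {T : HodgeTheory ops} {X : 𝒱.Obj} (f : EndH T X) : Prop :=
  ∀ g : EndH T X, IsHodgeEnd g → ∀ x : T.W.H X, app f (app g x) = app g (app f x)

/-- `f` is skew for the intersection form: `tr(f x * y) = - tr(x * f y)`. -/
def IsSkew {T : HodgeTheory ops} {X : 𝒱.Obj} (f : EndH T X) : Prop :=
  ∀ x y : T.W.H X, form (app f x) y = -form x (app f y)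

/-- Central skew Hodge endomorphisms of `H(X)`: Hodge endomorphisms which commute with all Hodge
endomorphisms and are skew for the intersection form. -/
def IsCentralSkew {T : HodgeTheory ops} {X : 𝒱.Obj} (f : EndH T X) : Prop :=
  IsHodgeEnd f ∧ IsCentral f ∧ IsSkew f

/-- There are no central skew Hodge endomorphisms of `H(X)` besides `0`. Equivalently, the centre of
the algebra of the Hodge endomorphisms of `H(X)` is a product of totally real fields (no factor is a
CM field). -/
def NoTypeFour (T : HodgeTheory ops) (X : 𝒱.Obj) : Prop :=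
  ∀ f : EndH T X, IsCentralSkew f → ∀ x : T.W.H X, app f x = 0

/-- The external product `x 0 × x 1 × ... × x n` of classes on `X`, a class on `X ^ (n + 1)`. -/
noncomputable def extProd (T : HodgeTheory ops) (X : 𝒱.Obj) (n : ℕ) (x : Fin (n + 1) → T.W.H X) :
    T.W.H (pw X n) :=
  (List.ofFn fun i => T.W.map (coord X n i) (x i)).prod

/-- The endomorphism `D` of `H(X ^ (n + 1))` is the derivation given by the endomorphism `f` of
`H(X)`: it maps the external product `x 0 × ... × x n` to the sum of the external products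
`x 0 × ... × f (x i) × ... × x n`. (There is exactly one such `D`.) -/
def IsDerivationOf {T : HodgeTheory ops} {X : 𝒱.Obj} (f : EndH T X) (n : ℕ)
    (D : EndH T (pw X n)) : Prop :=
  ∀ x : Fin (n + 1) → T.W.H X,
    app D (extProd T X n x) = ∑ i, extProd T X n (Function.update x i (app f (x i)))

/-- The class `c` on `X ^ (n + 1)` is neutral: it is killed by the derivations given by the central
skew Hodge endomorphisms of `H(X)`. If there are none besides `0`, then all classes are neutral. -/
def IsNeutral (T : HodgeTheory ops) (X : 𝒱.Obj) (n : ℕ) (c : T.W.H (pw X n)) : Prop :=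
  ∀ f : EndH T X, IsCentralSkew f → ∀ D : EndH T (pw X n), IsDerivationOf f n D → app D c = 0

/-- The class `c` of degree `2 j` is the class of an algebraic cycle with rational coefficients. -/
def IsAlg (T : HodgeTheory ops) (Y : 𝒱.Obj) (j : ℕ) (c : T.W.H Y) : Prop :=
  ∃ z : Y.Cycles, Y.IsCyc j z ∧ T.W.cl Y z = c

/-- The sum of the Betti numbers of `X`. -/
noncomputable def betti (T : HodgeTheory ops) (X : 𝒱.Obj) : ℕ := Module.finrank T.W.K (T.W.H X)

/-- The dimension of the space spanned by the set `S` of classes on `Y`. -/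
noncomputable def spanDim (T : HodgeTheory ops) (Y : 𝒱.Obj) (S : Set (T.W.H Y)) : ℕ :=
  Set.finrank T.W.K S

/-- The dimension of the space of the neutral Hodge classes on `X ^ (n + 1)`. -/
noncomputable def hodgeDim (T : HodgeTheory ops) (X : 𝒱.Obj) (n : ℕ) : ℕ :=
  spanDim T (pw X n) {c | ∃ j, IsHodge T (pw X n) j c ∧ IsNeutral T X n c}

/-- The dimension of the space of the neutral classes of algebraic cycles on `X ^ (n + 1)`. -/
noncomputable def algDim (T : HodgeTheory ops) (X : 𝒱.Obj) (n : ℕ) : ℕ :=
  spanDim T (pw X n) {c | ∃ j, IsAlg T (pw X n) j c ∧ IsNeutral T X n c}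

/-- The neutral Hodge classes on `X ^ (n + 1)` are algebraic. -/
def NeutralConj (T : HodgeTheory ops) (X : 𝒱.Obj) (n : ℕ) : Prop :=
  ∀ (j : ℕ) (c : T.W.H (pw X n)), IsHodge T (pw X n) j c → IsNeutral T X n c →
    IsAlg T (pw X n) j c

/-- All Hodge classes on `X ^ 2` are neutral. -/
def SquareNeutral (T : HodgeTheory ops) (X : 𝒱.Obj) : Prop :=
  ∀ (j : ℕ) (c : T.W.H (pw X 1)), IsHodge T (pw X 1) j c → IsNeutral T X 1 c

/-- All classes on all powers of `X` are neutral. -/
def AllNeutral (T : HodgeTheory ops) (X : 𝒱.Obj) : Prop :=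
  ∀ (n : ℕ) (c : T.W.H (pw X n)), IsNeutral T X n c

/-- There are at most `r` neutral Hodge classes on `X ^ (M + 1)` such that the neutral Hodge classes
on all powers of `X` are algebraic if these classes and the neutral Hodge classes on `X ^ 4` are
algebraic. -/
def FewSuffice (T : HodgeTheory ops) (X : 𝒱.Obj) (M r : ℕ) : Prop :=
  ∃ S : Set (T.W.H (pw X M)), S.Finite ∧ S.ncard ≤ r ∧
    (∀ c ∈ S, IsNeutral T X M c ∧ ∃ j, IsHodge T (pw X M) j c) ∧
    ((∀ c ∈ S, ∀ j, IsHodge T (pw X M) j c → IsAlg T (pw X M) j c) → NeutralConj T X 3 →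
      ∀ n : ℕ, NeutralConj T X n)

/-- The Hodge conjecture for `Y`. -/
def HC (T : HodgeTheory ops) (Y : 𝒱.Obj) : Prop :=
  ∀ (j : ℕ) (c : T.W.H Y), IsHodge T Y j c → IsAlg T Y j c

end Pool.Agent.H842.PP
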