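import Pool.Agent.H842.PP.Uni

/-!
# Derivations of tensor powers
-/

set_option linter.unusedSectionVars false

namespace Pool.Agent.H842.PP
open Matrix
open Pool.Agent.R914.UN

variable {B : Type} [Fintype B] [DecidableEq B]

section tpm
variable {ι κ : Type} [Fintype ι] [DecidableEq ι] [Fintype κ] [DecidableEq κ]

/-- a product of matrices, one for each factor -/
def tpm (M : ι → Matrix B B ℂ) : Matrix (ι → B) (ι → B) ℂ :=
  Matrix.of fun I J => ∏ i, M i (I i) (J i)

theorem tpm_apply (M : ι → Matrix B B ℂ) (I J : ι → B) : tpm M I J = ∏ i, M i (I i) (J i) := rfl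

theorem tpm_mul (M N : ι → Matrix B B ℂ) : tpm M * tpm N = tpm fun i => M i * N i := by
  ext I J
  rw [tpm_apply, Matrix.mul_apply]
  simp only [Matrix.mul_apply, tpm_apply]
  rw [Finset.prod_univ_sum, Fintype.piFinset_univ]
  exact Finset.sum_congr rfl fun K _ => Finset.prod_mul_distrib.symm

theorem tpm_const (A : Matrix B B ℂ) : tpm (fun _ : ι => A) = tp ι A := rfl

/-- the derivative of the tensor power at the identity -/
def der (ι : Type) [Fintype ι] [DecidableEq ι] (X : Matrix B B ℂ) : Matrix (ι → B) (ι → B) ℂ :=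
  ∑ i, tpm (Function.update (fun _ => 1) i X)

theorem tpm_update_apply (M : ι → Matrix B B ℂ) (i : ι) (X : Matrix B B ℂ) (I J : ι → B) :
    tpm (Function.update M i X) I J =
      X (I i) (J i) * ∏ j ∈ Finset.univ.erase i, M j (I j) (J j) := by
  rw [tpm_apply, ← Finset.mul_prod_erase _ _ (Finset.mem_univ i), Function.update_self]
  congr 1
  refine Finset.prod_congr rfl fun j hj => ?_
  rw [Function.update_of_ne (Finset.ne_of_mem_erase hj)]

theorem der_apply (X : Matrix B B ℂ) (I J : ι → B) : der ι X I J =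
    ∑ i, X (I i) (J i) * ∏ j ∈ Finset.univ.erase i, (1 : Matrix B B ℂ) (I j) (J j) := by
  rw [der, Matrix.sum_apply]
  exact Finset.sum_congr rfl fun i _ => tpm_update_apply _ _ _ _ _

theorem der_add (X Y : Matrix B B ℂ) : der ι (X + Y) = der ι X + der ι Y := by
  ext I J
  rw [Matrix.add_apply, der_apply, der_apply, der_apply, ← Finset.sum_add_distrib]
  exact Finset.sum_congr rfl fun i _ => by rw [Matrix.add_apply, add_mul]

theorem der_smul (c : ℂ) (X : Matrix B B ℂ) : der ι (c • X) = c • der ι X := by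
  ext I J
  rw [Matrix.smul_apply, der_apply, der_apply, Finset.smul_sum]
  exact Finset.sum_congr rfl fun i _ => by rw [Matrix.smul_apply, smul_mul_assoc]

theorem der_zero : der ι (0 : Matrix B B ℂ) = 0 := by
  have := der_smul (ι := ι) 0 (0 : Matrix B B ℂ)
  rwa [zero_smul, zero_smul] at this

theorem der_neg (X : Matrix B B ℂ) : der ι (-X) = -der ι X := by
  have := der_smul (ι := ι) (-1) X
  rwa [neg_one_smul, neg_one_smul] at this

theorem der_sub (X Y : Matrix B B ℂ) : der ι (X - Y) = der ι X - der ι Y := by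
  rw [sub_eq_add_neg, der_add, der_neg, ← sub_eq_add_neg]

/-- the rule for conjugation -/
theorem der_tp {X Y A : Matrix B B ℂ} (h : X * A = A * Y) :
    der ι X * tp ι A = tp ι A * der ι Y := by
  rw [der, der, Finset.sum_mul, Finset.mul_sum]
  refine Finset.sum_congr rfl fun i _ => ?_
  rw [← tpm_const, tpm_mul, tpm_mul]
  congr 1
  funext j
  by_cases hj : j = i
  · subst hj
    rw [Function.update_self, Function.update_self, h]
  · rw [Function.update_of_ne hj, Function.update_of_ne hj, one_mul, mul_one]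

theorem der_conjTranspose (X : Matrix B B ℂ) : der ι Xᴴ = (der ι X)ᴴ := by
  ext I J
  rw [conjTranspose_apply, der_apply, der_apply, star_sum]
  refine Finset.sum_congr rfl fun i _ => ?_
  rw [star_mul', star_prod, conjTranspose_apply]
  congr 1
  refine Finset.prod_congr rfl fun j _ => ?_
  rw [← conjTranspose_apply, conjTranspose_one]

theorem der_transpose (X : Matrix B B ℂ) : der ι Xᵀ = (der ι X)ᵀ := by
  ext I J
  rw [transpose_apply, der_apply, der_apply]
  refine Finset.sum_congr rfl fun i _ => ?_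
  rw [transpose_apply]
  congr 1
  refine Finset.prod_congr rfl fun j _ => ?_
  rw [← transpose_apply (1 : Matrix B B ℂ), transpose_one]

theorem der_diagonal (x : B → ℂ) :
    der ι (diagonal x) = diagonal fun I : ι → B => ∑ i, x (I i) := by
  ext I J
  rw [der_apply]
  by_cases h : I = J
  · subst h
    rw [diagonal_apply_eq]
    refine Finset.sum_congr rfl fun i _ => ?_
    rw [diagonal_apply_eq, Finset.prod_eq_one fun j _ => Matrix.one_apply_eq _, mul_one]
  · rw [diagonal_apply_ne _ h]
    refine Finset.sum_eq_zero fun i _ => ?_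
    by_cases hi : I i = J i
    · obtain ⟨j, hj⟩ := Function.ne_iff.1 h
      have hji : j ≠ i := by
        rintro rfl
        exact hj hi
      have h1 : ∏ j ∈ Finset.univ.erase i, (1 : Matrix B B ℂ) (I j) (J j) = 0 :=
        Finset.prod_eq_zero (Finset.mem_erase.2 ⟨hji, Finset.mem_univ j⟩) (Matrix.one_apply_ne hj)
      rw [h1, mul_zero]
    · rw [diagonal_apply_ne _ hi, zero_mul]

/-- tensors with two groups of indices -/
theorem der_sum_mulVec (X : Matrix B B ℂ) (N : Matrix (ι → B) (κ → B) ℂ) :
    der (ι ⊕ κ) X *ᵥ (fun w => N (w ∘ Sum.inl) (w ∘ Sum.inr)) =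
      fun w => (der ι X * N + N * der κ Xᵀ) (w ∘ Sum.inl) (w ∘ Sum.inr) := by
  have key : ∀ w : ι ⊕ κ → B, ∀ M : ι ⊕ κ → Matrix B B ℂ,
      (tpm M *ᵥ (fun w => N (w ∘ Sum.inl) (w ∘ Sum.inr))) w =
      (tpm (fun i => M (Sum.inl i)) * N * (tpm (fun i => M (Sum.inr i)))ᵀ)
        (w ∘ Sum.inl) (w ∘ Sum.inr) := by
    intro w M
    rw [mulVec, dotProduct, TSys.sum_sum, Matrix.mul_apply]
    simp only [Matrix.mul_apply, Finset.sum_mul]
    rw [Finset.sum_comm]
    refine Finset.sum_congr rfl fun y _ => Finset.sum_congr rfl fun x _ => ?_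
    simp only [Sum.elim_comp_inl, Sum.elim_comp_inr]
    rw [tpm_apply, tpm_apply, transpose_apply, tpm_apply, Fintype.prod_sum_type]
    simp only [Sum.elim_inl, Sum.elim_inr, Function.comp_apply]
    ring
  funext w
  rw [der, Matrix.sum_mulVec, Finset.sum_apply, Fintype.sum_sum_type, Matrix.add_apply, der,
    Matrix.sum_mul, Matrix.sum_apply, der_transpose, der, transpose_sum, Matrix.mul_sum,
    Matrix.sum_apply]
  congr 1
  · refine Finset.sum_congr rfl fun i _ => ?_
    rw [key]
    have h1 : (fun j : ι => (Function.update (fun _ => (1 : Matrix B B ℂ)) (Sum.inl i : ι ⊕ κ) X)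
        (Sum.inl j)) = Function.update (fun _ => 1) i X := by
      funext j
      by_cases hj : j = i
      · subst hj
        rw [Function.update_self, Function.update_self]
      · rw [Function.update_of_ne hj, Function.update_of_ne (fun h => hj (Sum.inl.inj h))]
    have h2 : (fun j : κ => (Function.update (fun _ => (1 : Matrix B B ℂ)) (Sum.inl i : ι ⊕ κ) X)
        (Sum.inr j)) = fun _ => 1 := by
      funext j
      rw [Function.update_of_ne (by simp)]
    rw [h1, h2, tpm_const, tp_one, transpose_one, Matrix.mul_one]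
  · refine Finset.sum_congr rfl fun i _ => ?_
    rw [key]
    have h1 : (fun j : κ => (Function.update (fun _ => (1 : Matrix B B ℂ)) (Sum.inr i : ι ⊕ κ) X)
        (Sum.inr j)) = Function.update (fun _ => 1) i X := by
      funext j
      by_cases hj : j = i
      · subst hj
        rw [Function.update_self, Function.update_self]
      · rw [Function.update_of_ne hj, Function.update_of_ne (fun h => hj (Sum.inr.inj h))]
    have h2 : (fun j : ι => (Function.update (fun _ => (1 : Matrix B B ℂ)) (Sum.inr i : ι ⊕ κ) X)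
        (Sum.inl j)) = fun _ => 1 := by
      funext j
      rw [Function.update_of_ne (by simp)]
    rw [h1, h2, tpm_const, tp_one, Matrix.one_mul]

/-- tensors with two indices -/
theorem der_two (X M : Matrix B B ℂ) :
    der (Fin 2) X *ᵥ (fun w => M (w 0) (w 1)) = fun w => (X * M + M * Xᵀ) (w 0) (w 1) := by
  funext w
  rw [mulVec, dotProduct, ← (finTwoArrowEquiv B).symm.sum_comp, Fintype.sum_prod_type,
    Matrix.add_apply, Matrix.mul_apply, Matrix.mul_apply]
  have h1 : ∀ a b : B, der (Fin 2) X w ((finTwoArrowEquiv B).symm (a, b)) =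
      X (w 0) a * (1 : Matrix B B ℂ) (w 1) b + X (w 1) b * (1 : Matrix B B ℂ) (w 0) a := by
    intro a b
    rw [der_apply, Fin.sum_univ_two]
    have e0 : (Finset.univ.erase (0 : Fin 2)) = {1} := by decide
    have e1 : (Finset.univ.erase (1 : Fin 2)) = {0} := by decide
    rw [e0, e1, Finset.prod_singleton, Finset.prod_singleton]
    rfl
  simp only [h1]
  have h2 : ∀ a b : B, (fun w : Fin 2 → B => M (w 0) (w 1)) ((finTwoArrowEquiv B).symm (a, b)) =
      M a b := fun a b => rfl
  simp only [h2, add_mul, Finset.sum_add_distrib]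
  congr 1
  · refine Finset.sum_congr rfl fun a _ => ?_
    rw [Finset.sum_eq_single (w 1)]
    · rw [Matrix.one_apply_eq, mul_one]
    · intro b _ hb
      rw [Matrix.one_apply_ne (Ne.symm hb), mul_zero, zero_mul]
    · intro h; exact absurd (Finset.mem_univ _) h
  · rw [Finset.sum_eq_single (w 0)]
    · refine Finset.sum_congr rfl fun b _ => ?_
      rw [Matrix.one_apply_eq, mul_one, transpose_apply, mul_comm]
    · intro a _ ha
      refine Finset.sum_eq_zero fun b _ => ?_
      rw [Matrix.one_apply_ne (Ne.symm ha), mul_zero, zero_mul]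
    · intro h; exact absurd (Finset.mem_univ _) h

/-- the kernel of the derivation of a diagonalisable matrix -/
theorem der_diag {W : Matrix B B ℂ} (hW : IsU W) (x : B → ℂ) (v : (ι → B) → ℂ) :
    der ι (W * diagonal x * Wᴴ) *ᵥ v = 0 ↔
      ∀ I, (tp ι Wᴴ *ᵥ v) I ≠ 0 → ∑ i, x (I i) = 0 := by
  have h0 : der ι (W * diagonal x * Wᴴ) * tp ι W = tp ι W * der ι (diagonal x) :=
    der_tp (by rw [Matrix.mul_assoc, hW.inv, mul_one])
  have h1 : der ι (W * diagonal x * Wᴴ) *ᵥ v =
      tp ι W *ᵥ ((der ι (diagonal x)) *ᵥ (tp ι Wᴴ *ᵥ v)) := by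
    rw [mulVec_mulVec, mulVec_mulVec, ← h0, Matrix.mul_assoc _ (tp ι W),
      ← tp_mul, hW, tp_one, Matrix.mul_one]
  have h3 : ∀ z : (ι → B) → ℂ, tp ι Wᴴ *ᵥ (tp ι W *ᵥ z) = z := by
    intro z
    rw [mulVec_mulVec, ← tp_mul, hW.inv, tp_one, one_mulVec]
  set c := tp ι Wᴴ *ᵥ v with hc
  have h4 : der ι (W * diagonal x * Wᴴ) *ᵥ v = 0 ↔ der ι (diagonal x) *ᵥ c = 0 := by
    rw [h1]
    constructor
    · intro h
      have := congrArg (fun z => tp ι Wᴴ *ᵥ z) h
      simp only [mulVec_zero] at this
      rw [h3] at this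
      exact this
    · intro h
      rw [h, mulVec_zero]
  rw [h4, der_diagonal, funext_iff]
  refine forall_congr' fun I => ?_
  rw [mulVec_diagonal, Pi.zero_apply]
  constructor
  · intro h hI
    exact (mul_eq_zero.1 h).resolve_right hI
  · intro h
    by_cases hI : c I = 0
    · rw [hI, mul_zero]
    · rw [h hI, zero_mul]

end tpm

end Pool.Agent.H842.PP
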