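import Pool.Agent.H842.PP.Tan

/-!
# Diagonalisable matrices and tensor powers
-/

set_option linter.unusedSectionVars false

namespace Pool.Agent.H842.PP
open Matrix
open Pool.Agent.R914.UN

variable {B : Type} [Fintype B] [DecidableEq B]

section diag
variable {ι : Type} [Fintype ι] [DecidableEq ι]

theorem tp_diagonal (l : B → ℂ) :
    tp ι (diagonal l) = diagonal fun I : ι → B => ∏ i, l (I i) := by
  ext I J
  rw [tp_apply]
  by_cases h : I = J
  · subst h
    rw [diagonal_apply_eq]
    exact Finset.prod_congr rfl fun i _ => diagonal_apply_eq _ _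
  · rw [diagonal_apply_ne _ h]
    obtain ⟨i, hi⟩ := Function.ne_iff.1 h
    exact Finset.prod_eq_zero (Finset.mem_univ i) (diagonal_apply_ne _ hi)

/-- Unitary matrices. -/
def IsU (W : Matrix B B ℂ) : Prop := W * Wᴴ = 1

theorem IsU.inv {W : Matrix B B ℂ} (h : IsU W) : Wᴴ * W = 1 := mul_eq_one_comm.1 h

theorem IsU.one : IsU (1 : Matrix B B ℂ) := by
  unfold IsU
  rw [conjTranspose_one, mul_one]

theorem IsU.mul {V W : Matrix B B ℂ} (hV : IsU V) (hW : IsU W) : IsU (V * W) := by
  unfold IsU at *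
  rw [conjTranspose_mul, Matrix.mul_assoc, ← Matrix.mul_assoc W, hW, Matrix.one_mul, hV]

theorem IsU.star {V : Matrix B B ℂ} (hV : IsU V) : IsU Vᴴ := by
  unfold IsU
  rw [conjTranspose_conjTranspose]
  exact hV.inv

theorem isU_diagonal {l : B → ℂ} (hl : ∀ b, ‖l b‖ = 1) : IsU (diagonal l) := by
  unfold IsU
  rw [diagonal_conjTranspose, diagonal_mul_diagonal, ← diagonal_one]
  congr 1
  funext b
  rw [Pi.star_apply, Complex.star_def, Complex.mul_conj, Complex.normSq_eq_norm_sq, hl b]
  norm_num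

/-- fixed tensors of a diagonalisable matrix -/
theorem fix_diag {W : Matrix B B ℂ} (hW : IsU W) (l : B → ℂ) (v : (ι → B) → ℂ) :
    tp ι (W * diagonal l * Wᴴ) *ᵥ v = v ↔
      ∀ I, (tp ι Wᴴ *ᵥ v) I ≠ 0 → ∏ i, l (I i) = 1 := by
  have h1 : tp ι (W * diagonal l * Wᴴ) *ᵥ v =
      tp ι W *ᵥ ((tp ι (diagonal l)) *ᵥ (tp ι Wᴴ *ᵥ v)) := by
    rw [tp_mul, tp_mul, mulVec_mulVec, mulVec_mulVec, Matrix.mul_assoc]
  have h2 : tp ι W *ᵥ (tp ι Wᴴ *ᵥ v) = v := by
    rw [mulVec_mulVec, ← tp_mul, hW, tp_one, one_mulVec]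
  have h3 : ∀ z : (ι → B) → ℂ, tp ι Wᴴ *ᵥ (tp ι W *ᵥ z) = z := by
    intro z
    rw [mulVec_mulVec, ← tp_mul, hW.inv, tp_one, one_mulVec]
  set c := tp ι Wᴴ *ᵥ v with hc
  have h4 : tp ι (W * diagonal l * Wᴴ) *ᵥ v = v ↔ tp ι (diagonal l) *ᵥ c = c := by
    rw [h1]
    constructor
    · intro h
      have := congrArg (fun z => tp ι Wᴴ *ᵥ z) h
      rw [h3] at this
      exact this
    · intro h
      rw [h, h2]
  rw [h4, tp_diagonal, funext_iff]
  refine forall_congr' fun I => ?_
  rw [mulVec_diagonal]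
  constructor
  · intro h hI
    exact mul_right_cancel₀ hI (by rw [h, one_mul])
  · intro h
    by_cases hI : c I = 0
    · rw [hI, mul_zero]
    · rw [h hI, one_mul]

end diag

/-- Hermitian matrices are diagonalisable. -/
theorem herm_diag {A : Matrix B B ℂ} (hA : A.IsHermitian) :
    ∃ (W : Matrix B B ℂ) (d : B → ℝ), IsU W ∧ A = W * diagonal (fun b => (d b : ℂ)) * Wᴴ ∧
      d = hA.eigenvalues := by
  have h1 := hA.spectral_theorem
  refine ⟨(hA.eigenvectorUnitary : Matrix B B ℂ), hA.eigenvalues, ?_, ?_, rfl⟩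
  · have := (Matrix.mem_unitaryGroup_iff (A := (hA.eigenvectorUnitary : Matrix B B ℂ))).1
      hA.eigenvectorUnitary.2
    exact this
  · conv_lhs => rw [h1]
    rw [Unitary.conjStarAlgAut_apply]
    rfl

theorem exists_unit_complex (p : Polynomial ℂ) (hp : p ≠ 0) : ∃ c : ℂ, ‖c‖ = 1 ∧ p.eval c ≠ 0 := by
  by_contra hcon
  push Not at hcon
  let f : ℕ → ℂ := fun n => (1 + n * Complex.I) / (1 - n * Complex.I)
  have hne : ∀ n : ℕ, (1 : ℂ) - n * Complex.I ≠ 0 := by
    intro n h
    have := congrArg Complex.re h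
    simp at this
  have hinj : Function.Injective f := by
    intro n m h
    simp only [f] at h
    rw [div_eq_div_iff (hne n) (hne m)] at h
    have h2 : (2 * ((n : ℂ) - m)) * Complex.I = 0 := by linear_combination h
    rcases mul_eq_zero.1 h2 with h3 | h3
    · have h4 : (n : ℂ) - m = 0 := by
        rcases mul_eq_zero.1 h3 with h5 | h5
        · norm_num at h5
        · exact h5
      exact_mod_cast sub_eq_zero.1 h4
    · exact absurd h3 Complex.I_ne_zero
  have hf : ∀ n, ‖f n‖ = 1 := by
    intro n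
    simp only [f]
    rw [norm_div]
    have h1 : (1 : ℂ) - n * Complex.I = (starRingEnd ℂ) (1 + n * Complex.I) := by
      simp [sub_eq_add_neg]
    rw [h1, Complex.norm_conj]
    apply div_self
    rw [norm_ne_zero_iff]
    intro h
    have := congrArg Complex.re h
    simp at this
  have hroots : Set.range f ⊆ (p.roots.toFinset : Set ℂ) := by
    rintro _ ⟨n, rfl⟩
    simp only [Finset.mem_coe, Multiset.mem_toFinset]
    rw [Polynomial.mem_roots hp]
    exact hcon _ (hf n)
  exact (Set.infinite_range_of_injective hinj) ((Finset.finite_toSet _).subset hroots)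

/-- Unitary matrices are diagonalisable. -/
theorem unitary_diag {u : Matrix B B ℂ} (hu : IsU u) :
    ∃ (W : Matrix B B ℂ) (l : B → ℂ), IsU W ∧ (∀ b, ‖l b‖ = 1) ∧ u = W * diagonal l * Wᴴ := by
  obtain ⟨c, hc, hpc⟩ := exists_unit_complex u.charpolyRev (by
    intro h
    have := Matrix.eval_charpolyRev (M := u)
    rw [h, Polynomial.eval_zero] at this
    exact zero_ne_one this)
  have hdet : (1 - c • u).det ≠ 0 := by
    have h1 : Polynomial.eval c u.charpolyRev = (1 - c • u).det := by
      rw [Matrix.charpolyRev, ← Polynomial.coe_evalRingHom, RingHom.map_det]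
      congr 1
      ext i j
      change Polynomial.eval c ((1 - (Polynomial.X : Polynomial ℂ) • u.map Polynomial.C :
        Matrix B B (Polynomial ℂ)) i j) = (1 - c • u) i j
      rw [Matrix.sub_apply, Matrix.sub_apply, Matrix.smul_apply, Matrix.smul_apply,
        Matrix.map_apply, smul_eq_mul, smul_eq_mul, Polynomial.eval_sub, Polynomial.eval_mul,
        Polynomial.eval_X, Polynomial.eval_C]
      congr 1
      by_cases hij : i = j
      · subst hij
        rw [Matrix.one_apply_eq, Matrix.one_apply_eq, Polynomial.eval_one]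
      · rw [Matrix.one_apply_ne hij, Matrix.one_apply_ne hij, Polynomial.eval_zero]
    rwa [h1] at hpc
  set N := (1 - c • u) with hN
  have hNu : IsUnit N.det := isUnit_iff_ne_zero.2 hdet
  have hNN : N * N⁻¹ = 1 := mul_nonsing_inv _ hNu
  have hNN' : N⁻¹ * N = 1 := nonsing_inv_mul _ hNu
  have hcc : c * star c = 1 := by
    rw [Complex.star_def, Complex.mul_conj, Complex.normSq_eq_norm_sq, hc]
    simp
  -- the Cayley transform
  set H := Complex.I • ((1 + c • u) * N⁻¹) with hH
  have hcomm : N * (1 + c • u) = (1 + c • u) * N := by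
    rw [hN]
    simp only [sub_mul, mul_add, mul_sub, add_mul, one_mul, mul_one]
    abel
  have hNs : Nᴴ = 1 - star c • uᴴ := by
    rw [hN, conjTranspose_sub, conjTranspose_one, conjTranspose_smul]
  have hherm : Hᴴ = H := by
    have h1 : Nᴴ * ((1 + c • u) * N⁻¹) = -(1 + star c • uᴴ) := by
      have h2 : Nᴴ * (1 + c • u) = -((1 + star c • uᴴ) * N) := by
        rw [hNs, hN]
        simp only [sub_mul, mul_add, mul_sub, add_mul, one_mul, mul_one, smul_mul_smul_comm,
          hu.inv]
        rw [mul_comm (star c) c, hcc, one_smul]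
        abel
      rw [← Matrix.mul_assoc, h2, neg_mul, Matrix.mul_assoc, hNN, mul_one]
    have h3 : Hᴴ = Complex.I • -((N⁻¹)ᴴ * (1 + star c • uᴴ)) := by
      rw [hH, conjTranspose_smul, conjTranspose_mul, conjTranspose_add, conjTranspose_one,
        conjTranspose_smul, Complex.star_def, Complex.conj_I, neg_smul, smul_neg]
    have h4 : (N⁻¹)ᴴ * Nᴴ = 1 := by
      rw [← conjTranspose_mul, hNN, conjTranspose_one]
    rw [h3, hH]
    congr 1
    calc -((N⁻¹)ᴴ * (1 + star c • uᴴ)) = (N⁻¹)ᴴ * (-(1 + star c • uᴴ)) := by rw [mul_neg]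
      _ = (N⁻¹)ᴴ * (Nᴴ * ((1 + c • u) * N⁻¹)) := by rw [h1]
      _ = (1 + c • u) * N⁻¹ := by rw [← Matrix.mul_assoc, h4, one_mul]
  obtain ⟨W, d, hW, hWd, -⟩ := herm_diag (A := H) hherm
  -- `(H + i) N = 2 i`
  have h5 : (H + Complex.I • 1) * N = (2 * Complex.I) • 1 := by
    rw [add_mul, hH, smul_mul_assoc, Matrix.mul_assoc, hNN', mul_one, smul_mul_assoc, one_mul, hN,
      ← smul_add]
    have : (1 + c • u) + (1 - c • u) = (2 : ℂ) • (1 : Matrix B B ℂ) := by
      rw [two_smul]
      abel
    rw [this, smul_smul, mul_comm]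
  have hdne : ∀ b, (d b : ℂ) + Complex.I ≠ 0 := by
    intro b h
    have := congrArg Complex.im h
    simp at this
  have h6 : N = W * diagonal (fun b => 2 * Complex.I / ((d b : ℂ) + Complex.I)) * Wᴴ := by
    have h7 : H + Complex.I • 1 = W * diagonal (fun b => (d b : ℂ) + Complex.I) * Wᴴ := by
      have h8 : diagonal (fun b => (d b : ℂ) + Complex.I) =
          diagonal (fun b => (d b : ℂ)) + Complex.I • (1 : Matrix B B ℂ) := by
        rw [← diagonal_one, ← diagonal_smul, diagonal_add]
        congr 1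
        funext b
        simp
      rw [h8, mul_add, add_mul, ← hWd, mul_smul_comm, mul_one, smul_mul_assoc, hW]
    have h9 : (W * diagonal (fun b => ((d b : ℂ) + Complex.I)⁻¹) * Wᴴ) * (H + Complex.I • 1) = 1 := by
      rw [h7]
      calc (W * diagonal (fun b => ((d b : ℂ) + Complex.I)⁻¹) * Wᴴ) *
            (W * diagonal (fun b => (d b : ℂ) + Complex.I) * Wᴴ) =
            W * (diagonal (fun b => ((d b : ℂ) + Complex.I)⁻¹) * (Wᴴ * W) *
              diagonal (fun b => (d b : ℂ) + Complex.I)) * Wᴴ := by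
              simp only [Matrix.mul_assoc]
        _ = 1 := by
          rw [hW.inv, mul_one, diagonal_mul_diagonal]
          have : (fun b => ((d b : ℂ) + Complex.I)⁻¹ * ((d b : ℂ) + Complex.I)) = fun _ => 1 := by
            funext b
            exact inv_mul_cancel₀ (hdne b)
          rw [this, diagonal_one, mul_one, hW]
    calc N = ((W * diagonal (fun b => ((d b : ℂ) + Complex.I)⁻¹) * Wᴴ) * (H + Complex.I • 1)) * N := by
          rw [h9, one_mul]
      _ = (W * diagonal (fun b => ((d b : ℂ) + Complex.I)⁻¹) * Wᴴ) * ((2 * Complex.I) • 1) := by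
          rw [Matrix.mul_assoc, h5]
      _ = W * diagonal (fun b => 2 * Complex.I / ((d b : ℂ) + Complex.I)) * Wᴴ := by
          rw [mul_smul_comm, mul_one, ← smul_mul_assoc, ← mul_smul_comm, ← diagonal_smul]
          congr 3
  set l : B → ℂ := fun b => star c * (1 - 2 * Complex.I / ((d b : ℂ) + Complex.I)) with hl
  have h7 : u = W * diagonal l * Wᴴ := by
    have h8 : u = star c • (1 - N) := by
      rw [hN, sub_sub_cancel, smul_smul, mul_comm, hcc, one_smul]
    rw [h8, h6, hl]
    have h9 : diagonal (fun b => star c * (1 - 2 * Complex.I / ((d b : ℂ) + Complex.I))) =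
        star c • (1 - diagonal (fun b => 2 * Complex.I / ((d b : ℂ) + Complex.I)) :
          Matrix B B ℂ) := by
      ext i j
      by_cases hij : i = j
      · subst hij
        simp [Matrix.diagonal_apply_eq]
      · simp [Matrix.diagonal_apply_ne _ hij, Matrix.one_apply_ne hij]
    rw [h9, mul_smul_comm, smul_mul_assoc, mul_sub, sub_mul, mul_one, hW]
  refine ⟨W, l, hW, fun b => ?_, h7⟩
  have h8 : l b = star c * (((d b : ℂ) - Complex.I) / ((d b : ℂ) + Complex.I)) := by
    rw [hl]
    congr 1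
    field_simp [hdne b]
    ring
  rw [h8, norm_mul, norm_star, hc, one_mul, norm_div]
  have h9 : ((d b : ℂ) - Complex.I) = (starRingEnd ℂ) ((d b : ℂ) + Complex.I) := by
    simp [sub_eq_add_neg]
  rw [h9, Complex.norm_conj]
  exact div_self (norm_ne_zero_iff.2 (hdne b))

end Pool.Agent.H842.PP
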