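import Pool.Agent.H842.PP.Defs

/-!
# Generated classes
-/

open CategoryTheory AlgebraicGeometry

universe u

namespace Pool.Agent.H842.PP

open Pool.Agent.H914 Pool.Agent.H914.VarClass Pool.Agent.H914.VarClass.Obj
  Pool.Agent.H914.WeilCohomology Pool.Agent.Y121.AHS Pool.Agent.R940
open Pool.Agent.Y163 (pw)

variable {k : Type u} [Field k] {𝒱 : VarClass k} {ops : CycleOps 𝒱}

/-- The pull-back of the class `a`. -/
noncomputable def pull (T : HodgeTheory ops) {Y Z : 𝒱.Obj} (f : Y ⟶ Z) (a : T.W.H Z) : T.W.H Y :=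
  T.W.map f a

/-- The push-forward of the class `a`. -/
noncomputable def push (T : HodgeTheory ops) {Y Z : 𝒱.Obj} (f : Y ⟶ Z) (a : T.W.H Y) : T.W.H Z :=
  T.W.push f a

/-- `IsGen T X M S Y j c`: the class `c` of degree `2 j` on `Y` is obtained from neutral Hodge
classes on `X ^ 4`, from the Hodge classes in the set `S` of classes on `X ^ (M + 1)` and from classes
of algebraic cycles by a finite number of linear combinations, products, pull-backs and push-forwards
(along morphisms of smooth projective varieties). -/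
inductive IsGen (T : HodgeTheory ops) (X : 𝒱.Obj) (M : ℕ) (S : Set (T.W.H (pw X M))) :
    ∀ Y : 𝒱.Obj, ℕ → T.W.H Y → Prop
  | four {j : ℕ} {c : T.W.H (pw X 3)} : IsHodge T (pw X 3) j c → IsNeutral T X 3 c →
      IsGen T X M S (pw X 3) j c
  | mem {j : ℕ} {c : T.W.H (pw X M)} : c ∈ S → IsHodge T (pw X M) j c →
      IsGen T X M S (pw X M) j c
  | cl {Y : 𝒱.Obj} {j : ℕ} {z : Y.Cycles} : Y.IsCyc j z → IsGen T X M S Y j (T.W.cl Y z)
  | add {Y : 𝒱.Obj} {j : ℕ} {a b : T.W.H Y} : IsGen T X M S Y j a → IsGen T X M S Y j b →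
      IsGen T X M S Y j (a + b)
  | smul {Y : 𝒱.Obj} {j : ℕ} (r : T.W.K) {a : T.W.H Y} : IsGen T X M S Y j a →
      IsGen T X M S Y j (r • a)
  | mul {Y : 𝒱.Obj} {i j : ℕ} {a b : T.W.H Y} : IsGen T X M S Y i a → IsGen T X M S Y j b →
      IsGen T X M S Y (i + j) (a * b)
  | map {Y Z : 𝒱.Obj} (f : Y ⟶ Z) {j : ℕ} {a : T.W.H Z} : IsGen T X M S Z j a →
      IsGen T X M S Y j (pull T f a)
  | push {Y Z : 𝒱.Obj} (f : Y ⟶ Z) {j l : ℕ} {a : T.W.H Y} : l + Y.dim = j + Z.dim →
      IsGen T X M S Y j a → IsGen T X M S Z l (push T f a)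

/-- There are at most `r` neutral Hodge classes on `X ^ (M + 1)` such that every neutral Hodge class
on every power of `X` is obtained from them, from neutral Hodge classes on `X ^ 4` and from classes
of algebraic cycles. -/
def FewGenerate (T : HodgeTheory ops) (X : 𝒱.Obj) (M r : ℕ) : Prop :=
  ∃ S : Set (T.W.H (pw X M)), S.Finite ∧ S.ncard ≤ r ∧
    (∀ c ∈ S, ∃ j, IsHodge T (pw X M) j c ∧ IsNeutral T X M c) ∧
    ∀ (n j : ℕ) (c : T.W.H (pw X n)), IsHodge T (pw X n) j c → IsNeutral T X n c →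
      IsGen T X M S (pw X n) j c

end Pool.Agent.H842.PP
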