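import Pool.Agent.H842.PP.GGreedy
import Pool.Agent.H842.PP.Gen

/-!
# The theorems for Hodge theories
-/

set_option linter.unusedSectionVars false
set_option linter.unusedVariables false

open CategoryTheory AlgebraicGeometry CategoryTheory.Limits TensorProduct

universe u v

namespace Pool.Agent.H842.PP

open Pool.Agent.H914 Pool.Agent.H447 Pool.Agent.W534 Pool.Agent.Y163 VarClass Obj WeilCohomology
  Module
open Pool.Agent.Y121 Pool.Agent.Y121.AHS Pool.Agent.R940 Pool.Agent.R914.UN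
open Pool.Agent.Y133.Half (ClassPred)

variable {k : Type u} [Field k] {𝒱 : VarClass k} {ops : CycleOps 𝒱}

variable {T : HodgeTheory ops} {X Z : 𝒱.Obj}

lemma hodgeEnd_iff {f : EndH T X} : IsHodgeEnd f ↔ HEnd (toH T) f := Iff.rfl

lemma centralSkew_iff {f : EndH T X} : IsCentralSkew f ↔ CSkew (toH T) f :=
  ⟨fun h => ⟨h.1, h.2.1, h.2.2⟩, fun h => ⟨h.1, h.2.1, h.2.2⟩⟩

lemma extProd_eq (n : ℕ) (x : Fin (n + 1) → T.W.H X) : extProd T X n x = ext T.W X n x := by
  rw [extProd, ext]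
  congr 2
  funext i
  rw [coord_eq]

lemma derivation_iff {f : EndH T X} {n : ℕ} {D : EndH T (pw X n)} :
    IsDerivationOf f n D ↔ IsDer (W := T.W) f n D := by
  constructor
  · intro h x
    have h1 := h x
    simp only [extProd_eq] at h1
    exact h1
  · intro h x
    simp only [extProd_eq]
    exact h x

lemma neutral_iff {n : ℕ} {c : T.W.H (pw X n)} :
    IsNeutral T X n c ↔ Neutral (toH T) X n c := by
  constructor
  · intro h f hf D hD
    exact h f (centralSkew_iff.2 hf) D (derivation_iff.2 hD)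
  · intro h f hf D hD
    exact h f (centralSkew_iff.1 hf) D (derivation_iff.1 hD)

/-- The generated classes. -/
def genP (T : HodgeTheory ops) (X : 𝒱.Obj) (M : ℕ) (S : Set (T.W.H (pw X M))) :
    ClassPred T.W where
  P Y j c := IsGen T X M S Y j c
  gr h := by
    induction h with
    | four hc _ => exact hc.1
    | mem _ hc => exact hc.1
    | cl hz => exact T.W.cl_mem hz
    | add _ _ ha hb => exact Submodule.add_mem _ ha hb
    | smul r _ ha => exact Submodule.smul_mem _ _ ha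
    | mul _ _ ha hb => rw [mul_add]; exact T.W.mul_mem ha hb
    | map f _ ha => exact T.W.map_mem f ha
    | push f h _ ha => exact AH.push_gr f h ha
  zero {Y j} := by
    have h1 : IsGen T X M S Y j ((0 : T.W.K) • T.W.cl Y 0) := IsGen.smul 0
      (IsGen.cl (SmVar.IsCyc.zero _ _))
    rwa [zero_smul] at h1
  add := IsGen.add
  smul := IsGen.smul
  cl := IsGen.cl
  mul := IsGen.mul
  map := IsGen.map
  push f _ _ h _ ha := IsGen.push f h ha

lemma IsGen.isHodge {M : ℕ} {S : Set (T.W.H (pw X M))} {Y : 𝒱.Obj} {j : ℕ} {c : T.W.H Y}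
    (h : IsGen T X M S Y j c) : AH.IsHodge (toH T) Y j c := by
  induction h with
  | four hc _ => exact hc
  | mem _ hc => exact hc
  | cl hz => exact AH.IsHodge.cl (T := toH T) hz
  | add _ _ ha hb => exact ha.add hb
  | smul r _ ha => exact ha.smul r
  | mul _ _ ha hb => exact ha.mul hb
  | map f _ ha => exact ha.map f
  | push f h _ ha => exact ha.push f h

lemma IsGen.mono {M : ℕ} {S S' : Set (T.W.H (pw X M))} (hS : S ⊆ S') {Y : 𝒱.Obj} {j : ℕ}
    {c : T.W.H Y} (h : IsGen T X M S Y j c) : IsGen T X M S' Y j c := by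
  induction h with
  | four hc hn => exact IsGen.four hc hn
  | mem hcS hc => exact IsGen.mem (hS hcS) hc
  | cl hz => exact IsGen.cl hz
  | add _ _ ha hb => exact IsGen.add ha hb
  | smul r _ ha => exact IsGen.smul r ha
  | mul _ _ ha hb => exact IsGen.mul ha hb
  | map f _ ha => exact IsGen.map f ha
  | push f h _ ha => exact IsGen.push f h ha

/-- The data. -/
lemma exists_data (hsym : HodgeSymmetric T X) {ψ : LinearMap.BilinForm T.W.K (T.W.H X)}
    (hψ : IsPol (T := toH T) ψ) (h1 : (1 : T.W.H X) ≠ 0) :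
    ∃ (b : ℕ) (B : HBasis (baseW (toH T).W ℂ) X (Fin b)) (v0 : (Fin 1 → Fin b) → ℂ),
      b = finrank T.W.K (T.W.H X) ∧
      (∀ i j, hf (T := toH T) ψ (B.b i) (B.b j) = if i = j then 1 else 0) ∧
      v0 ≠ 0 ∧ Phi B 0 v0 = 1 := by
  obtain ⟨b, B, hb, hB⟩ := exists_hbasis_onb (T := toH T) hsym hψ
  obtain ⟨v0, hv0⟩ := (Phi_bijective B 0).2 (1 : (baseW (toH T).W ℂ).H (pw X 0))
  refine ⟨b, B, v0, hb, hB, ?_, hv0⟩
  rintro rfl
  have h2 : (1 : (baseW (toH T).W ℂ).H X) = 0 := hv0.symm.trans (map_zero _)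
  have h3 : AH.em (toH T).W ℂ (1 : T.W.H X) = 0 := h2
  exact h1 (AH.em_injective h3)

lemma subsingleton_pw (h1 : (1 : T.W.H X) = 0) (n : ℕ) (c : T.W.H (pw X n)) : c = 0 := by
  have h2 : finrank T.W.K (T.W.H X) = 0 := by
    rw [finrank_zero_iff]
    exact subsingleton_of_zero_eq_one h1.symm
  have h3 : finrank T.W.K (T.W.H (pw X n)) = 0 := by
    rw [finrank_pw, h2, zero_pow (Nat.succ_ne_zero n)]
  have h4 := finrank_zero_iff.1 h3
  exact Subsingleton.elim c 0

lemma trivial_cov (h1 : (1 : T.W.H X) = 0) (Q : ClassPred T.W) (n : ℕ) :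
    Cov (T := toH T) X Q n := by
  intro j c _ _
  rw [subsingleton_pw h1 n c]
  exact Q.zero

/-- **One power suffices.** -/
theorem fin_one (hpos : NonnegTypes T) (hsym : HodgeSymmetric T X) (hpol : IsPolarisable T X)
    (Q : ClassPred T.W) (hQ : ∀ (Y : 𝒱.Obj) (j : ℕ) (c : T.W.H Y), Q.P Y j c → IsHodge T Y j c)
    (h : Cov (T := toH T) X Q (polyBound (finrank T.W.K (T.W.H X)) - 1)) (n : ℕ) :
    Cov (T := toH T) X Q n := by
  by_cases h1 : (1 : T.W.H X) = 0
  · exact trivial_cov h1 Q n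
  obtain ⟨ψ, hψ⟩ := hpol
  obtain ⟨b, B, v0, hb, hB, hv0, hv⟩ := exists_data hsym (ψ := ψ) ⟨hψ.orth, hψ.pos⟩ h1
  refine cov_all (T := toH T) hpos ⟨hψ.orth, hψ.pos⟩ B hB hv0 hv Q hQ ?_ n
  rw [Fintype.card_fin, hb]
  exact h

variable (T X) in
/-- The neutral Hodge classes. -/
noncomputable def neuA (n : ℕ) : Submodule T.W.K (T.W.H (pw X n)) := neu (toH T) X n

/-- **The dimensions.** -/
theorem fin_dim (hpos : NonnegTypes T) (hsym : HodgeSymmetric T X) (hpol : IsPolarisable T X)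
    (Q : ClassPred T.W) (hQ : ∀ (Y : 𝒱.Obj) (j : ℕ) (c : T.W.H Y), Q.P Y j c → IsHodge T Y j c)
    (h : Cov (T := toH T) X Q 3) (n : ℕ) (hn : Even (n + 1)) :
    finrank T.W.K (neuA T X n) ≤ idxBound (finrank T.W.K (T.W.H X)) *
      finrank T.W.K (Q.sp (pw X n) ⊓ neuA T X n : Submodule T.W.K (T.W.H (pw X n))) := by
  by_cases h1 : (1 : T.W.H X) = 0
  · have h2 : neuA T X n = ⊥ := by
      rw [eq_bot_iff]
      intro c _
      exact (Submodule.mem_bot _).2 (subsingleton_pw h1 n c)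
    have h3 : finrank T.W.K (neuA T X n) = 0 := by
      rw [h2]
      exact finrank_bot _ _
    rw [h3]
    exact Nat.zero_le _
  obtain ⟨ψ, hψ⟩ := hpol
  obtain ⟨b, B, v0, hb, hB, hv0, hv⟩ := exists_data hsym (ψ := ψ) ⟨hψ.orth, hψ.pos⟩ h1
  have h2 := cov_dim (T := toH T) hpos ⟨hψ.orth, hψ.pos⟩ B hB hv0 hv Q hQ h n hn
  rw [Fintype.card_fin, hb] at h2
  exact h2

/-- **Finitely many classes generate.** -/
theorem fin_gen (hpos : NonnegTypes T) (hsym : HodgeSymmetric T X) (hpol : IsPolarisable T X)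
    (M : ℕ) (hM : M = polyBound (finrank T.W.K (T.W.H X)) - 1) :
    FewGenerate T X M (numBound (finrank T.W.K (T.W.H X))) := by
  by_cases h1 : (1 : T.W.H X) = 0
  · refine ⟨∅, Set.finite_empty, ?_, fun c hc => absurd hc (Set.notMem_empty c), ?_⟩
    · rw [Set.ncard_empty]
      exact Nat.zero_le _
    · intro n j c hc hn
      exact trivial_cov h1 (genP T X M ∅) n j c hc (neutral_iff.1 hn)
  obtain ⟨ψ, hψ⟩ := hpol
  obtain ⟨b, B, v0, hb, hB, hv0, hv⟩ := exists_data hsym (ψ := ψ) ⟨hψ.orth, hψ.pos⟩ h1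
  have h3 : Cov (T := toH T) X (genP T X M ∅) 3 := fun j c hc hn =>
    IsGen.four hc (neutral_iff.2 hn)
  obtain ⟨TS, hTS⟩ := exists_TS (T := toH T) hpos ⟨hψ.orth, hψ.pos⟩ B hB hv0 hv (genP T X M ∅)
    (fun Y j c h => h.isHodge)
    ((cov_iff (T := toH T) hpos).1 (cov_le (T := toH T) hpos ⟨hψ.orth, hψ.pos⟩ B hB hv0 hv _
      (by omega) h3))
  obtain ⟨-, hlt⟩ := dat_idx (mkGD (T := toH T) hpos ⟨hψ.orth, hψ.pos⟩ B hB hv0 hv) hTS.1 hTS.2.1
    (fun n hn => le_of_cov (N := 4) hTS h3 n hn)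
  have hb1 := (mkGD (T := toH T) hpos ⟨hψ.orth, hψ.pos⟩ B hB hv0 hv).cardB
  have hp := two_le_pbound (ι := Fin b) hb1
  rw [Fintype.card_fin] at hlt hb1 hp
  have hlt' : (4 * b) ^ (2 * b ^ 2) < 2 ^ numBound b := by
    have h4 : 4 * b < 2 ^ (Nat.log 2 b + 3) := by
      have h5 := Nat.lt_pow_succ_log_self (b := 2) (by norm_num) b
      rw [pow_add]
      rw [pow_succ] at h5
      omega
    have h6 : 2 * b ^ 2 ≠ 0 := by
      have : 1 ≤ b ^ 2 := Nat.one_le_pow _ _ hb1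
      omega
    calc (4 * b) ^ (2 * b ^ 2) < (2 ^ (Nat.log 2 b + 3)) ^ (2 * b ^ 2) :=
          Nat.pow_lt_pow_left h4 h6
      _ = 2 ^ numBound b := by rw [← pow_mul, mul_comm, numBound]
  have hMb : pbound (Fintype.card (Fin b)) - 1 ≤ M := by
    rw [Fintype.card_fin, hb, hM]
    exact le_rfl
  obtain ⟨S, hS1, hS2, hS3, hS4⟩ := greedy (T := toH T) hpos ⟨hψ.orth, hψ.pos⟩ B hB hv0 hv
    (fun S => genP T X M S) (fun S Y j c h => h.isHodge) (fun S S' h Y j c hc => hc.mono h)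
    (fun S j c hcS hc => IsGen.mem hcS hc) hMb (numBound b) ∅ Set.finite_empty
    (fun c hc => absurd hc (Set.notMem_empty c)) h3 TS hTS (hlt.trans_lt hlt')
  refine ⟨S, hS1, ?_, fun c hc => ?_, fun n j c hc hn => hS4 n j c hc (neutral_iff.1 hn)⟩
  · rw [Set.ncard_empty, zero_add, hb] at hS2
    exact hS2
  · obtain ⟨j, h4, h5⟩ := hS3 c hc
    exact ⟨j, h4, neutral_iff.2 h5⟩

/-- The components of the classes. -/
lemma sp_inf_le (hpos : NonnegTypes T) (Q : ClassPred T.W)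
    (hQ : ∀ (Y : 𝒱.Obj) (j : ℕ) (c : T.W.H Y), Q.P Y j c → IsHodge T Y j c) (n : ℕ) :
    (Q.sp (pw X n) ⊓ neuA T X n : Submodule T.W.K (T.W.H (pw X n))) ≤
      Submodule.span T.W.K {c | ∃ j, Q.P (pw X n) j c ∧ IsNeutral T X n c} := by
  rintro c ⟨hc, hn⟩
  have h1 : (∑ i ∈ Finset.range (2 * (pw X n).dim + 1),
      H914.proj (T.W.isInternal (pw X n)) i) c = c := by
    rw [sum_proj (T.W.isInternal (pw X n)) (fun i hi => T.W.gr_eq_bot _ i (by omega))]
    rfl
  rw [← h1, LinearMap.sum_apply]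
  refine Submodule.sum_mem _ fun i _ => ?_
  rcases Nat.even_or_odd' i with ⟨j, hj | hj⟩
  · rw [hj]
    exact Submodule.subset_span ⟨j, ClassPred.sp_proj hc j,
      neutral_iff.2 (neu_proj (T := toH T) hpos hn j).2⟩
  · have h2 : H914.proj (T.W.isInternal (pw X n)) i c = 0 := by
      refine ClassPred.sp_ind (Q := Q)
        (q := fun c => H914.proj (T.W.isInternal (pw X n)) i c = 0) ?_ ?_ ?_ hc
      · intro l x hx
        exact proj_ne _ (Q.gr hx) (by omega)
      · exact map_zero _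
      · intro a b ha hb
        rw [map_add, ha, hb, add_zero]
    rw [h2]
    exact Submodule.zero_mem _

lemma hodgeSpace_le (n : ℕ) : Submodule.span T.W.K
    {c | ∃ j, IsHodge T (pw X n) j c ∧ IsNeutral T X n c} ≤ neuA T X n := by
  rw [Submodule.span_le]
  rintro c ⟨j, hj, hn⟩
  exact ⟨ClassPred.sp_of (Q := AH.hodgePred (toH T)) hj, neutral_iff.1 hn⟩

/-- If there are no central skew endomorphisms, then all classes are neutral. -/
theorem neutral_all (h : NoTypeFour T X) (n : ℕ) (c : T.W.H (pw X n)) : IsNeutral T X n c := by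
  intro f hf D hD
  have h1 : IsDer (W := T.W) (0 : T.W.H X →ₗ[T.W.K] T.W.H X) n
      (0 : T.W.H (pw X n) →ₗ[T.W.K] T.W.H (pw X n)) := by
    intro x
    rw [LinearMap.zero_apply]
    refine (Finset.sum_eq_zero fun i _ => ?_).symm
    rw [LinearMap.zero_apply, ← extML_apply]
    exact (extML T.W X n).map_coord_zero i (Function.update_self _ _ _)
  have h2 : (show T.W.H X →ₗ[T.W.K] T.W.H X from f) = 0 := LinearMap.ext fun x => h f hf x
  have h3 := derivation_iff.1 hD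
  have h4 : IsDer (W := T.W) (0 : T.W.H X →ₗ[T.W.K] T.W.H X) n
      (show T.W.H (pw X n) →ₗ[T.W.K] T.W.H (pw X n) from D) := h2 ▸ h3
  exact LinearMap.congr_fun (isDer_unique h4 h1) c

/-- All Hodge classes on `X ^ 2` are neutral. -/
theorem square_neutral (hpos : NonnegTypes T) (hsym : HodgeSymmetric T X)
    (hpol : IsPolarisable T X) {j : ℕ} {c : T.W.H (pw X 1)} (hc : IsHodge T (pw X 1) j c) :
    IsNeutral T X 1 c := by
  by_cases h1 : (1 : T.W.H X) = 0
  · intro f hf D hD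
    rw [subsingleton_pw h1 1 c]
    exact (show T.W.H (pw X 1) →ₗ[T.W.K] T.W.H (pw X 1) from D).map_zero
  obtain ⟨ψ, hψ⟩ := hpol
  obtain ⟨b, B, v0, hb, hB, hv0, hv⟩ := exists_data hsym (ψ := ψ) ⟨hψ.orth, hψ.pos⟩ h1
  obtain ⟨v, hv1⟩ := (Phi_bijective B 1).2 (AH.em (toH T).W ℂ c)
  have h2 : Phi B 1 v ∈ SG ℂ ((AH.hodgePred (toH T)).sp (pw X 1)) := by
    rw [hv1]
    exact em_SG (ClassPred.sp_of (Q := AH.hodgePred (toH T)) hc)
  have h3 := (mkGD (T := toH T) hpos ⟨hψ.orth, hψ.pos⟩ B hB hv0 hv).two_mem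
    ((fix_iff (T := toH T) hpos B 1 v).2 fun σ z hz => gam_SG h2 σ z)
  have h4 := (phi_neu (T := toH T) hpos ⟨hψ.orth, hψ.pos⟩ B hB hv0 hv 1 v).1 h3
  have h5 : c ∈ neu (toH T) X 1 := mem_of_SG (T := toH T) (L := ℂ)
    ((congrArg (· ∈ SG ℂ (neu (toH T) X 1)) hv1).mp h4)
  exact neutral_iff.2 h5.2

lemma alg_of_gen {M : ℕ} {S : Set (T.W.H (pw X M))}
    (h : ∀ c ∈ S, ∀ j, IsHodge T (pw X M) j c → IsAlg T (pw X M) j c) (h4 : NeutralConj T X 3)
    {Y : 𝒱.Obj} {j : ℕ} {c : T.W.H Y} (hc : IsGen T X M S Y j c) :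
    (algP (toH T)).P Y j c := by
  induction hc with
  | four hc hn => exact h4 _ _ hc hn
  | mem hcS hc => exact h _ hcS _ hc
  | cl hz => exact (algP (toH T)).cl hz
  | add _ _ ha hb => exact (algP (toH T)).add ha hb
  | smul r _ ha => exact (algP (toH T)).smul r ha
  | mul _ _ ha hb => exact (algP (toH T)).mul ha hb
  | map f _ ha => exact (algP (toH T)).map f ha
  | push f h _ ha => exact (algP (toH T)).push f h ha

/-- **Few classes suffice.** -/
theorem fin_few (hpos : NonnegTypes T) (hsym : HodgeSymmetric T X) (hpol : IsPolarisable T X)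
    (M : ℕ) (hM : M = polyBound (finrank T.W.K (T.W.H X)) - 1) :
    FewSuffice T X M (numBound (finrank T.W.K (T.W.H X))) := by
  obtain ⟨S, h1, h2, h3, h4⟩ := fin_gen hpos hsym hpol M hM
  refine ⟨S, h1, h2, fun c hc => ?_, fun h h5 n j c hc hn => alg_of_gen h h5 (h4 n j c hc hn)⟩
  obtain ⟨j, h5, h6⟩ := h3 c hc
  exact ⟨h6, j, h5⟩

end Pool.Agent.H842.PP
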