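import Pool.Agent.H842.PP.GEnd

/-!
# The data of a polarised variety
-/

set_option linter.unusedSectionVars false
set_option linter.unusedVariables false

open CategoryTheory AlgebraicGeometry CategoryTheory.Limits TensorProduct Matrix

universe u v

namespace Pool.Agent.H842.PP

open Pool.Agent.H914 Pool.Agent.H447 Pool.Agent.W534 Pool.Agent.Y163 VarClass Obj WeilCohomology
  Module
open Pool.Agent.Y121 Pool.Agent.R940 Pool.Agent.R914.UN
open Pool.Agent.Y133.Half (Sys PH Ev Adj ClassPred)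

variable {k : Type u} [Field k] {𝒱 : VarClass k} {ops : CycleOps 𝒱}

variable {T : AH.HodgeTheory ops} {X Y Z : 𝒱.Obj} {ι : Type} [Fintype ι] [DecidableEq ι]

/-- Products of the curves. -/
lemma crv_mul (B : HBasis (baseW T.W ℂ) X ι) (σ : ℂ ≃ₐ[T.W.K] ℂ) {m l : ℤ} (h : m ≠ l) :
    crv B σ m * crv B σ l = 0 := by
  have h1 : cj σ (act T (ind fun r => r.1 - r.2 = m) X) ∘ₗ
      cj σ (act T (ind fun r => r.1 - r.2 = l) X) = (0 : EndC T X) := by
    apply LinearMap.ext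
    intro x
    rw [LinearMap.comp_apply, cj_apply, cj_apply, sm_symm', act_act, LinearMap.zero_apply]
    have h2 : (fun r : ℤ × ℤ => ind (fun r => r.1 - r.2 = m) r * ind (fun r => r.1 - r.2 = l) r) =
        fun _ => 0 := by
      funext r
      by_cases hr : r.1 - r.2 = m
      · have h3 : ind (fun r => r.1 - r.2 = l) r = 0 := if_neg (fun h4 => h (hr.symm.trans h4))
        rw [h3, mul_zero]
      · have h3 : ind (fun r => r.1 - r.2 = m) r = 0 := if_neg hr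
        rw [h3, zero_mul]
    rw [h2]
    have h3 : ∀ y : (baseW T.W ℂ).H X, act T (fun _ => 0) X y = 0 := by
      intro y
      refine pq_ind T (p := fun y => act T (fun _ => 0) X y = 0) ?_ ?_ ?_ y
      · exact map_zero _
      · intro x y hx hy; rw [map_add, hx, hy, add_zero]
      · intro r x hx
        rw [act_of T _ hx]
        exact zero_smul (baseW T.W ℂ).K x
    rw [h3, map_zero]
  rw [crv, crv, ← mt_mul, h1, mt_zero]

variable (hpos : ∀ (Y : 𝒱.Obj) (p q : ℤ), p < 0 ∨ q < 0 → T.pq Y p q = ⊥)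
  {ψ : LinearMap.BilinForm T.W.K (T.W.H X)} (hψ : IsPol ψ) (B : HBasis (baseW T.W ℂ) X ι)
  (hB : ∀ i j, hf ψ (B.b i) (B.b j) = if i = j then 1 else 0)
  {v0 : (Fin 1 → ι) → ℂ} (hv0 : v0 ≠ 0) (hv : Phi B 0 v0 = 1)

/-- The data. -/
noncomputable def mkGD : GD ι where
  w := 2 * X.dim
  T := crvs B
  K := mt B (sm (cK T) X)
  J := trJ B
  Ψ := Matrix.of (fun i j => (show ℂ from psi ψ (B.b j) (B.b i)))
  C := mt B (gam AlgEquiv.refl Complex.I X)
  C' := mt B (gam AlgEquiv.refl Complex.I⁻¹ X)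
  v0 := v0
  one := crv_one B hpos
  proj := by
    rintro _ ⟨σ, rfl⟩ j l h
    exact crv_mul B σ h
  inv := crv_inv B hpos
  hC := gam_mem_gen B hpos _ Complex.I_ne_zero
  hC' := gam_mem_gen B hpos _ (inv_ne_zero Complex.I_ne_zero)
  hCC := by
    rw [← mt_comp_lin, ← mt_id B]
    congr 1
    funext y
    rw [gam_gam, inv_mul_cancel₀ Complex.I_ne_zero, gam_id]
  pol := pol_mul B hB
  hJ := det_tr B
  hJg := by
    intro g hg
    have h1 := form_gen B hpos (LinearMap.flip (LinearMap.mk₂ (baseW T.W ℂ).K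
      (fun x y => (baseW T.W ℂ).tr X (x * y))
      (fun x y z => by rw [add_mul, map_add]) (fun c x y => by rw [smul_mul_assoc, map_smul])
      (fun x y z => by rw [mul_add, map_add]) (fun c x y => by rw [mul_smul_comm, map_smul])))
      (fun σ z hz x y => by
        rw [LinearMap.flip_apply, LinearMap.flip_apply, LinearMap.mk₂_apply, LinearMap.mk₂_apply,
          ← gam_mul σ hz, gam_tr σ hpos]) hg
    exact h1
  hΨg := by
    intro g hg
    exact form_gen B hpos (psi ψ) (fun σ z hz x y => psi_gam hψ σ hz x y) hg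
  v0ne := hv0
  v0G := by
    refine (fix_iff hpos B 0 v0).2 fun σ z hz => ?_
    rw [hv]
    exact gam_one σ z

lemma mkGD_G : (mkGD hpos hψ B hB hv0 hv).G = gen (2 * X.dim) (crvs B) := rfl

include hpos in
/-- The system of tensors of a class of classes. -/
theorem exists_ps (S : Sys (baseW T.W ℂ))
    (hfix : ∀ (Y : 𝒱.Obj) (x : (baseW T.W ℂ).H Y), x ∈ S.C Y →
      ∀ (σ : ℂ ≃ₐ[T.W.K] ℂ) (z : ℂ), z ≠ 0 → gam σ z Y x = x)
    (hc : ∀ (Y : 𝒱.Obj) (x : (baseW T.W ℂ).H Y), x ∈ S.C Y → sm (cK T) Y x ∈ S.C Y)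
    (hN : ∀ x : (baseW T.W ℂ).H (pw X 1),
      (∀ (σ : ℂ ≃ₐ[T.W.K] ℂ) (z : ℂ), z ≠ 0 → gam σ z (pw X 1) x = x) → x ∈ S.C (pw X 1)) :
    ∃ P : PSys ι, P.J = trJ B ∧ P.K = mt B (sm (cK T) X) ∧
      (∀ (n : ℕ) (v : (Fin (n + 1) → ι) → ℂ), v ∈ P.A (Fin (n + 1)) ↔
        Phi B n v ∈ S.C (pw X n)) ∧
      ∀ (κ : Type) [Fintype κ] [DecidableEq κ] (v : (κ → ι) → ℂ), v ∈ P.A κ →
        ∀ g ∈ gen (2 * X.dim) (crvs B), tp κ g *ᵥ v = v := by
  have hev : evp T X ∈ S.Op X X := evp_mem S hN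
  obtain ⟨P, hPJ, hPK, hPA⟩ := (bsys S B hev hc).exists_psys
  have hPA' : ∀ (n : ℕ) (v : (Fin (n + 1) → ι) → ℂ), v ∈ P.A (Fin (n + 1)) ↔
      Phi B n v ∈ S.C (pw X n) := hPA
  refine ⟨P, hPJ, hPK, hPA', ?_⟩
  have hsame : ∀ (n : ℕ) (v : (Fin (n + 1) → ι) → ℂ), v ∈ P.A (Fin (n + 1)) →
      ∀ g ∈ gen (2 * X.dim) (crvs B), tp (Fin (n + 1)) g *ᵥ v = v := by
    intro n v hv
    exact (fix_iff hpos B n v).2 (hfix _ _ ((hPA' n v).1 hv))
  intro κ _ _ u hu g hg
  rcases isEmpty_or_nonempty κ with he | hne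
  · have h1 : tp κ g = 1 := by
      ext I J
      rw [tp_apply, Fintype.prod_empty, Subsingleton.elim I J, Matrix.one_apply_eq]
    rw [h1, Matrix.one_mulVec]
  · obtain ⟨m, ⟨e⟩⟩ : ∃ m, Nonempty (κ ≃ Fin (m + 1)) := by
      have h1 : 0 < Fintype.card κ := Fintype.card_pos
      obtain ⟨m, hm⟩ := Nat.exists_eq_succ_of_ne_zero h1.ne'
      exact ⟨m, ⟨Fintype.equivFinOfCardEq hm⟩⟩
    have h1 := hsame m _ (P.relabel e hu) g hg
    rw [tp_relabel] at h1
    funext I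
    have h2 := congrFun h1 (I ∘ e.symm)
    have h3 : (I ∘ e.symm) ∘ e = I := by
      funext i
      simp
    rwa [h3] at h2

end Pool.Agent.H842.PP
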