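import Pool.Graph.R_pool_sql_team_seeded_b0a926ef.R914.UN.MotMain
import Pool.Agent.H842.PP.Dat

/-!
# Galois descent for subspaces of the cohomology and for spaces of endomorphisms
-/

set_option linter.unusedSectionVars false
set_option linter.unusedVariables false

open CategoryTheory AlgebraicGeometry CategoryTheory.Limits TensorProduct

universe u v

namespace Pool.Agent.H842.PP

open Pool.Agent.H914 Pool.Agent.H447 Pool.Agent.W534 Pool.Agent.Y163 VarClass Obj WeilCohomology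
  Module
open Pool.Agent.Y121 Pool.Agent.R940 Pool.Agent.R914.UN

variable {k : Type u} [Field k] {𝒱 : VarClass k} {ops : CycleOps 𝒱}

variable {T : AH.HodgeTheory ops} {X Y Z : 𝒱.Obj}

/-- The extension of a rational linear map. -/
noncomputable def bc (f : T.W.H Y →ₗ[T.W.K] T.W.H Y) :
    (baseW T.W ℂ).H Y →ₗ[(baseW T.W ℂ).K] (baseW T.W ℂ).H Y :=
  (f.baseChange ℂ : ℂ ⊗[T.W.K] T.W.H Y →ₗ[ℂ] ℂ ⊗[T.W.K] T.W.H Y)

lemma bc_em (f : T.W.H Y →ₗ[T.W.K] T.W.H Y) (a : T.W.H Y) :
    bc f (AH.em T.W ℂ a) = AH.em T.W ℂ (f a) :=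
  LinearMap.baseChange_tmul f (1 : ℂ) a

lemma em_ind {p : (baseW T.W ℂ).H Y → Prop} (h0 : p 0) (hadd : ∀ x y, p x → p y → p (x + y))
    (hs : ∀ (c : (baseW T.W ℂ).K) x, p x → p (c • x)) (h : ∀ a, p (AH.em T.W ℂ a))
    (x : (baseW T.W ℂ).H Y) : p x := by
  refine SG_ind (T := T) (L := ℂ) (G := (⊤ : Submodule T.W.K (T.W.H Y))) (P := p) h0 hadd hs
    (fun a _ => h a) ?_
  have h1 : (show ℂ ⊗[T.W.K] T.W.H Y from x) ∈
      (⊤ : Submodule T.W.K (T.W.H Y)).baseChange ℂ := by
    rw [Submodule.baseChange_top]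
    exact Submodule.mem_top
  exact h1

lemma sm_bc (σ : ℂ ≃ₐ[T.W.K] ℂ) (f : T.W.H Y →ₗ[T.W.K] T.W.H Y) (x : (baseW T.W ℂ).H Y) :
    sm σ Y (bc f x) = bc f (sm σ Y x) := by
  refine em_ind (p := fun x => sm σ Y (bc f x) = bc f (sm σ Y x)) ?_ ?_ ?_ ?_ x
  · rw [map_zero, map_zero, map_zero]
  · intro x y hx hy
    rw [map_add, map_add, map_add, map_add, hx, hy]
  · intro c x hx
    rw [map_smul, sm_smul, sm_smul, map_smul, hx]
  · intro a
    rw [bc_em, sm_em, sm_em, bc_em]

lemma bc_ext {F F' : (baseW T.W ℂ).H Y →ₗ[(baseW T.W ℂ).K] (baseW T.W ℂ).H Y}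
    (h : ∀ a, F (AH.em T.W ℂ a) = F' (AH.em T.W ℂ a)) : F = F' := by
  apply LinearMap.ext
  intro x
  refine em_ind (p := fun x => F x = F' x) ?_ ?_ ?_ h x
  · rw [map_zero, map_zero]
  · intro x y hx hy; rw [map_add, map_add, hx, hy]
  · intro c x hx; rw [map_smul, map_smul, hx]

/-- The rational part of a subspace. -/
def ratPart (V : Submodule (baseW T.W ℂ).K ((baseW T.W ℂ).H Y)) :
    Submodule T.W.K (T.W.H Y) where
  carrier := {a | AH.em T.W ℂ a ∈ V}
  zero_mem' := by
    have h1 : AH.em T.W ℂ (0 : T.W.H Y) = 0 := AH.em_zero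
    exact (congrArg (· ∈ V) h1).mpr (Submodule.zero_mem _)
  add_mem' {a b} ha hb := by
    have h1 : AH.em T.W ℂ (a + b) = AH.em T.W ℂ a + AH.em T.W ℂ b := AH.em_add _ _
    exact (congrArg (· ∈ V) h1).mpr (Submodule.add_mem _ ha hb)
  smul_mem' c a ha := by
    have h1 := AH.em_smul (W := T.W) (L := ℂ) c a
    exact (congrArg (· ∈ V) h1).mpr (Submodule.smul_mem _ _ ha)

lemma mem_ratPart {V : Submodule (baseW T.W ℂ).K ((baseW T.W ℂ).H Y)} {a : T.W.H Y} :
    a ∈ ratPart V ↔ AH.em T.W ℂ a ∈ V := Iff.rfl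

/-- **Descent for subspaces.** -/
theorem descend {V : Submodule (baseW T.W ℂ).K ((baseW T.W ℂ).H Y)}
    (hst : ∀ (τ : ℂ ≃ₐ[T.W.K] ℂ) x, x ∈ V → sm τ Y x ∈ V) {x : (baseW T.W ℂ).H Y} (hx : x ∈ V) :
    x ∈ SG ℂ (ratPart V) := by
  classical
  let b := Module.finBasis T.W.K (T.W.H Y)
  let bC : Basis (Fin (finrank T.W.K (T.W.H Y))) ℂ (ℂ ⊗[T.W.K] T.W.H Y) :=
    Algebra.TensorProduct.basis ℂ b
  let E : (Fin (finrank T.W.K (T.W.H Y)) → ℂ) →ₗ[ℂ] (ℂ ⊗[T.W.K] T.W.H Y) :=
    bC.equivFun.symm.toLinearMap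
  have hE : ∀ v, (show (baseW T.W ℂ).H Y from E v) =
      ∑ i, (show (baseW T.W ℂ).K from v i) • AH.em T.W ℂ (b i) := by
    intro v
    have h1 : E v = ∑ i, v i • bC i := bC.equivFun_symm_apply v
    have h2 : ∀ i, bC i = (1 : ℂ) ⊗ₜ[T.W.K] b i := fun i => Algebra.TensorProduct.basis_apply b i
    refine h1.trans ?_
    exact Finset.sum_congr rfl fun i _ => congrArg (fun y => v i • y) (h2 i)
  let V' : Submodule ℂ (Fin (finrank T.W.K (T.W.H Y)) → ℂ) :=
    { carrier := {v | (show (baseW T.W ℂ).H Y from E v) ∈ V}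
      zero_mem' := by
        have h1 : (show (baseW T.W ℂ).H Y from E 0) = 0 := map_zero E
        exact (congrArg (· ∈ V) h1).mpr (Submodule.zero_mem _)
      add_mem' := fun {v w} hv hw => by
        have h1 : (show (baseW T.W ℂ).H Y from E (v + w)) =
          (show (baseW T.W ℂ).H Y from E v) + (show (baseW T.W ℂ).H Y from E w) := map_add E v w
        exact (congrArg (· ∈ V) h1).mpr (Submodule.add_mem _ hv hw)
      smul_mem' := fun c v hv => by
        have h1 : (show (baseW T.W ℂ).H Y from E (c • v)) =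
          (show (baseW T.W ℂ).K from c) • (show (baseW T.W ℂ).H Y from E v) := map_smul E c v
        exact (congrArg (· ∈ V) h1).mpr (Submodule.smul_mem _ _ hv) }
  have hstab : ∀ τ : ℂ ≃+* ℂ, (∀ x ∈ (algebraMap T.W.K ℂ).fieldRange, τ x = x) →
      ∀ v ∈ V', (fun i => τ (v i)) ∈ V' := by
    intro τ _ v hv
    have h1 : (show (baseW T.W ℂ).H Y from E (fun i => τ (v i))) =
        sm (autK T τ) Y (show (baseW T.W ℂ).H Y from E v) := by
      rw [hE, hE, map_sum]
      exact Finset.sum_congr rfl fun i _ => by rw [sm_smul, sm_em]; rfl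
    exact (congrArg (· ∈ V) h1).mpr (hst _ _ hv)
  have hdef := Pool.Agent.TH119.MX.defOver_of_aut V' hstab
  obtain ⟨v, hv⟩ : ∃ v, E v = x := ⟨bC.equivFun x, bC.equivFun.symm_apply_apply x⟩
  have hvV : v ∈ V' := (congrArg (· ∈ V) hv).mpr hx
  have h1 := hdef hvV
  have h2 : ∀ w ∈ Submodule.span ℂ {w | w ∈ V' ∧ ∀ a, w a ∈ (algebraMap T.W.K ℂ).fieldRange},
      (show (baseW T.W ℂ).H Y from E w) ∈ SG ℂ (ratPart V) := by
    intro w hw
    induction hw using Submodule.span_induction with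
    | mem w hw =>
      obtain ⟨hwV, hwr⟩ := hw
      choose r hr using fun a => RingHom.mem_fieldRange.1 (hwr a)
      have h3 : (show (baseW T.W ℂ).H Y from E w) = AH.em T.W ℂ (∑ i, r i • b i) := by
        rw [hE]
        have h4 : ∀ (s : Finset (Fin (finrank T.W.K (T.W.H Y)))),
            AH.em T.W ℂ (∑ i ∈ s, r i • b i) =
              ∑ i ∈ s, (show (baseW T.W ℂ).K from w i) • AH.em T.W ℂ (b i) := by
          intro s
          induction s using Finset.induction_on with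
          | empty => rw [Finset.sum_empty, Finset.sum_empty, AH.em_zero]
          | insert i s hi ih =>
            rw [Finset.sum_insert hi, Finset.sum_insert hi, AH.em_add, ih, AH.em_smul]
            congr 2
            exact hr i
        exact (h4 _).symm
      rw [h3]
      refine em_SG ?_
      rw [mem_ratPart, ← h3]
      exact hwV
    | zero =>
      exact (congrArg (· ∈ SG ℂ (ratPart V)) (map_zero E)).mpr (Submodule.zero_mem _)
    | add v w _ _ hv hw =>
      exact (congrArg (· ∈ SG ℂ (ratPart V)) (map_add E v w)).mpr (Submodule.add_mem _ hv hw)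
    | smul c v _ hv =>
      exact (congrArg (· ∈ SG ℂ (ratPart V)) (map_smul E c v)).mpr
        (Submodule.smul_mem _ (show (baseW T.W ℂ).K from c) hv)
  have h3 := h2 v h1
  exact (congrArg (· ∈ SG ℂ (ratPart V)) hv).mp h3

/-- Linear endomorphisms of the cohomology with complex coefficients. -/
abbrev EndC (T : AH.HodgeTheory ops) (Y : 𝒱.Obj) : Type :=
  (baseW T.W ℂ).H Y →ₗ[(baseW T.W ℂ).K] (baseW T.W ℂ).H Y

lemma em_sum {α : Type} (s : Finset α) (r : α → T.W.K) (a : α → T.W.H Y) :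
    AH.em T.W ℂ (∑ i ∈ s, r i • a i) =
      ∑ i ∈ s, (show (baseW T.W ℂ).K from algebraMap T.W.K ℂ (r i)) • AH.em T.W ℂ (a i) := by
  classical
  induction s using Finset.induction_on with
  | empty => rw [Finset.sum_empty, Finset.sum_empty, AH.em_zero]
  | insert i s hi ih =>
    rw [Finset.sum_insert hi, Finset.sum_insert hi, AH.em_add, ih, AH.em_smul]
    rfl

/-- **Descent for spaces of endomorphisms.** -/
theorem descendEnd {V : Submodule (baseW T.W ℂ).K (EndC T Y)}
    (hst : ∀ (τ : ℂ ≃ₐ[T.W.K] ℂ) F, F ∈ V → cj τ F ∈ V) {F : EndC T Y} (hF : F ∈ V) :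
    F ∈ Submodule.span (baseW T.W ℂ).K {F' | F' ∈ V ∧ ∃ f, F' = bc f} := by
  classical
  let n := finrank T.W.K (T.W.H Y)
  let b := Module.finBasis T.W.K (T.W.H Y)
  let bC : Basis (Fin n) (baseW T.W ℂ).K ((baseW T.W ℂ).H Y) :=
    (Algebra.TensorProduct.basis ℂ b : Basis (Fin n) ℂ (ℂ ⊗[T.W.K] T.W.H Y))
  have hbC : ∀ i, bC i = AH.em T.W ℂ (b i) := fun i => Algebra.TensorProduct.basis_apply b i
  -- endomorphisms with given matrices
  let E : (Fin n × Fin n → (baseW T.W ℂ).K) →ₗ[(baseW T.W ℂ).K] EndC T Y :=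
    { toFun := fun M => bC.constr (baseW T.W ℂ).K fun j => ∑ i, M (i, j) • AH.em T.W ℂ (b i)
      map_add' := fun M N => by
        refine bC.ext fun j => ?_
        rw [LinearMap.add_apply, Basis.constr_basis, Basis.constr_basis, Basis.constr_basis,
          ← Finset.sum_add_distrib]
        exact Finset.sum_congr rfl fun i _ => add_smul _ _ _
      map_smul' := fun c M => by
        refine bC.ext fun j => ?_
        rw [LinearMap.smul_apply, Basis.constr_basis, Basis.constr_basis, Finset.smul_sum]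
        exact Finset.sum_congr rfl fun i _ => mul_smul _ _ _ }
  have hE : ∀ M j, E M (AH.em T.W ℂ (b j)) = ∑ i, M (i, j) • AH.em T.W ℂ (b i) := by
    intro M j
    rw [← hbC]
    exact bC.constr_basis (baseW T.W ℂ).K (fun j => ∑ i, M (i, j) • AH.em T.W ℂ (b i)) j
  have hext : ∀ {F F' : EndC T Y}, (∀ j, F (AH.em T.W ℂ (b j)) = F' (AH.em T.W ℂ (b j))) →
      F = F' := by
    intro F F' h
    refine bC.ext fun j => ?_
    rw [hbC]
    exact h j
  let V' : Submodule ℂ (Fin n × Fin n → ℂ) :=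
    { carrier := {M | E (show Fin n × Fin n → (baseW T.W ℂ).K from M) ∈ V}
      zero_mem' := (congrArg (· ∈ V) (map_zero E)).mpr (Submodule.zero_mem _)
      add_mem' := fun {v w} hv hw =>
        (congrArg (· ∈ V) (map_add E v w)).mpr (Submodule.add_mem _ hv hw)
      smul_mem' := fun c v hv =>
        (congrArg (· ∈ V) (map_smul E (show (baseW T.W ℂ).K from c)
          (show Fin n × Fin n → (baseW T.W ℂ).K from v))).mpr (Submodule.smul_mem _ _ hv) }
  have hstab : ∀ τ : ℂ ≃+* ℂ, (∀ x ∈ (algebraMap T.W.K ℂ).fieldRange, τ x = x) →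
      ∀ v ∈ V', (fun i => τ (v i)) ∈ V' := by
    intro τ _ v hv
    have h1 : E (show Fin n × Fin n → (baseW T.W ℂ).K from fun i => τ (v i)) =
        cj (autK T τ) (E (show Fin n × Fin n → (baseW T.W ℂ).K from v)) := by
      refine hext fun j => ?_
      rw [hE, cj_apply, sm_em, hE, map_sum]
      refine Finset.sum_congr rfl fun i _ => ?_
      refine Eq.symm ((sm_smul (autK T τ) _ _).trans ?_)
      rw [sm_em]
      rfl
    exact (congrArg (· ∈ V) h1).mpr (hst _ _ hv)
  have hdef := Pool.Agent.TH119.MX.defOver_of_aut V' hstab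
  let v : Fin n × Fin n → (baseW T.W ℂ).K := fun q => bC.repr (F (AH.em T.W ℂ (b q.2))) q.1
  have hv : E v = F := by
    refine hext fun j => ?_
    rw [hE]
    have h1 := bC.sum_repr (F (AH.em T.W ℂ (b j)))
    simp only [hbC] at h1
    exact h1
  have hvV : (show Fin n × Fin n → ℂ from v) ∈ V' := (congrArg (· ∈ V) hv).mpr hF
  have h1 := hdef hvV
  have h2 : ∀ w ∈ Submodule.span ℂ {w | w ∈ V' ∧ ∀ a, w a ∈ (algebraMap T.W.K ℂ).fieldRange},
      E (show Fin n × Fin n → (baseW T.W ℂ).K from w) ∈ Submodule.span (baseW T.W ℂ).K {F' | F' ∈ V ∧ ∃ f, F' = bc f} := by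
    intro w hw
    induction hw using Submodule.span_induction with
    | mem w hw =>
      obtain ⟨hwV, hwr⟩ := hw
      choose r hr using fun a => RingHom.mem_fieldRange.1 (hwr a)
      refine Submodule.subset_span ⟨hwV, b.constr T.W.K fun j => ∑ i, r (i, j) • b i, ?_⟩
      refine hext fun j => ?_
      rw [bc_em, Basis.constr_basis, em_sum, hE]
      exact Finset.sum_congr rfl fun i _ => congrArg (fun c : (baseW T.W ℂ).K =>
        c • AH.em T.W ℂ (b i)) (hr (i, j)).symm
    | zero =>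
      exact (congrArg (· ∈ Submodule.span (baseW T.W ℂ).K {F' | F' ∈ V ∧ ∃ f, F' = bc f})
        (map_zero E)).mpr (Submodule.zero_mem _)
    | add v w _ _ hv hw =>
      exact (congrArg (· ∈ Submodule.span (baseW T.W ℂ).K {F' | F' ∈ V ∧ ∃ f, F' = bc f})
        (map_add E v w)).mpr (Submodule.add_mem _ hv hw)
    | smul c v _ hv =>
      exact (congrArg (· ∈ Submodule.span (baseW T.W ℂ).K {F' | F' ∈ V ∧ ∃ f, F' = bc f})
        (map_smul E (show (baseW T.W ℂ).K from c)
          (show Fin n × Fin n → (baseW T.W ℂ).K from v))).mpr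
          (Submodule.smul_mem _ (show (baseW T.W ℂ).K from c) hv)
  have h3 := h2 v h1
  exact (congrArg (· ∈ Submodule.span (baseW T.W ℂ).K {F' | F' ∈ V ∧ ∃ f, F' = bc f}) hv).mp h3

end Pool.Agent.H842.PP
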