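import Pool.Agent.H842.PP.GDes

/-!
# Hodge endomorphisms and central skew endomorphisms
-/

set_option linter.unusedSectionVars false
set_option linter.unusedVariables false

open CategoryTheory AlgebraicGeometry CategoryTheory.Limits TensorProduct

universe u v

namespace Pool.Agent.H842.PP

open Pool.Agent.H914 Pool.Agent.H447 Pool.Agent.W534 Pool.Agent.Y163 VarClass Obj WeilCohomology
  Module
open Pool.Agent.Y121 Pool.Agent.R940 Pool.Agent.R914.UN

variable {k : Type u} [Field k] {𝒱 : VarClass k} {ops : CycleOps 𝒱}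

variable {T : AH.HodgeTheory ops} {X Y Z : 𝒱.Obj}

variable (T X) in
/-- The endomorphisms which commute with the conjugates of the torus. -/
def CE : Submodule (baseW T.W ℂ).K (EndC T X) where
  carrier := {F | ∀ (σ : ℂ ≃ₐ[T.W.K] ℂ) (z : ℂ), z ≠ 0 → ∀ x, F (gam σ z X x) = gam σ z X (F x)}
  zero_mem' := fun σ z _ x => by rw [LinearMap.zero_apply, LinearMap.zero_apply, map_zero]
  add_mem' := fun {F F'} hF hF' σ z hz x => by
    rw [LinearMap.add_apply, LinearMap.add_apply, hF σ z hz, hF' σ z hz, map_add]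
  smul_mem' := fun c F hF σ z hz x => by
    rw [LinearMap.smul_apply, LinearMap.smul_apply, hF σ z hz, map_smul]

variable (T X) in
/-- The central skew endomorphisms. -/
def CZ : Submodule (baseW T.W ℂ).K (EndC T X) where
  carrier := {F | F ∈ CE T X ∧ (∀ M ∈ CE T X, ∀ x, F (M x) = M (F x)) ∧
    ∀ x y, (baseW T.W ℂ).tr X (F x * y) = -(baseW T.W ℂ).tr X (x * F y)}
  zero_mem' := ⟨Submodule.zero_mem _, fun M _ x => by
    rw [LinearMap.zero_apply, LinearMap.zero_apply, map_zero], fun x y => by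
    rw [LinearMap.zero_apply, LinearMap.zero_apply, zero_mul, mul_zero, map_zero, neg_zero]⟩
  add_mem' := fun {F F'} hF hF' => ⟨Submodule.add_mem _ hF.1 hF'.1, fun M hM x => by
    rw [LinearMap.add_apply, LinearMap.add_apply, hF.2.1 M hM, hF'.2.1 M hM, map_add],
    fun x y => by
      rw [LinearMap.add_apply, LinearMap.add_apply, add_mul, mul_add, map_add, map_add,
        hF.2.2, hF'.2.2, neg_add]⟩
  smul_mem' := fun c F hF => ⟨Submodule.smul_mem _ _ hF.1, fun M hM x => by
    rw [LinearMap.smul_apply, LinearMap.smul_apply, hF.2.1 M hM, map_smul], fun x y => by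
      rw [LinearMap.smul_apply, LinearMap.smul_apply, smul_mul_assoc, mul_smul_comm, map_smul,
        map_smul, hF.2.2, smul_neg]⟩

lemma cj_symm (τ : ℂ ≃ₐ[T.W.K] ℂ) (F : EndC T X) : cj τ (cj τ.symm F) = F := by
  apply LinearMap.ext
  intro x
  rw [cj_apply, cj_apply]
  have h1 : τ.symm.symm = τ := AlgEquiv.symm_symm τ
  rw [h1, sm_symm, sm_symm]

lemma cj_CE (τ : ℂ ≃ₐ[T.W.K] ℂ) {F : EndC T X} (hF : F ∈ CE T X) : cj τ F ∈ CE T X := by
  intro σ z hz x
  rw [cj_apply, cj_apply, sm_gam, hF _ _ (by rw [Ne, EmbeddingLike.map_eq_zero_iff]; exact hz),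
    sm_gam]
  have h1 : (σ.trans τ.symm).trans τ = σ := by
    ext w
    simp
  rw [h1, AlgEquiv.apply_symm_apply]

lemma cj_CZ (τ : ℂ ≃ₐ[T.W.K] ℂ) {F : EndC T X} (hF : F ∈ CZ T X) : cj τ F ∈ CZ T X := by
  refine ⟨cj_CE τ hF.1, fun M hM x => ?_, fun x y => ?_⟩
  · have h1 := hF.2.1 _ (cj_CE τ.symm hM) (sm τ.symm X x)
    have h2 := congrArg (sm τ X) h1
    have h3 : ∀ y, cj τ.symm M y = sm τ.symm X (M (sm τ X y)) := by
      intro y
      rw [cj_apply]
      have h4 : τ.symm.symm = τ := AlgEquiv.symm_symm τ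
      rw [h4]
    rw [h3, h3, sm_symm, sm_symm] at h2
    rw [cj_apply, cj_apply]
    exact h2
  · have h1 := hF.2.2 (sm τ.symm X x) (sm τ.symm X y)
    rw [cj_apply, cj_apply]
    have h2 : sm τ X (F (sm τ.symm X x)) * y = sm τ X (F (sm τ.symm X x) * sm τ.symm X y) := by
      rw [map_mul, sm_symm]
    have h3 : x * sm τ X (F (sm τ.symm X y)) = sm τ X (sm τ.symm X x * F (sm τ.symm X y)) := by
      rw [map_mul, sm_symm]
    rw [h2, h3, sm_tr, sm_tr]
    have h4 := congrArg (fun c : (baseW T.W ℂ).K => (show (baseW T.W ℂ).K from τ c)) h1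
    exact h4.trans (map_neg τ _)

/-- Hodge endomorphisms: the classes of type `(p, q)` are mapped to sums of classes of types
`(p + k, q + k)`. -/
def HEnd (T : AH.HodgeTheory ops) (f : T.W.H X →ₗ[T.W.K] T.W.H X) : Prop :=
  ∀ (p q : ℤ) (x : (baseW T.W ℂ).H X), x ∈ T.pq X p q →
    bc f x ∈ Submodule.span (baseW T.W ℂ).K {y | ∃ k : ℤ, y ∈ T.pq X (p + k) (q + k)}

/-- Central skew Hodge endomorphisms. -/
def CSkew (T : AH.HodgeTheory ops) (f : T.W.H X →ₗ[T.W.K] T.W.H X) : Prop :=
  HEnd T f ∧ (∀ g : T.W.H X →ₗ[T.W.K] T.W.H X, HEnd T g → ∀ x, f (g x) = g (f x)) ∧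
    ∀ x y, T.W.tr X (f x * y) = -T.W.tr X (x * f y)

lemma act_ind_of_eigen {m : ℤ} {y : (baseW T.W ℂ).H Y}
    (h : act T (chi 2) Y y = (show (baseW T.W ℂ).K from (2 : ℂ) ^ m) • y) :
    act T (ind fun r => r.1 - r.2 = m) Y y = y := by
  set θ : ℤ × ℤ → ℂ := fun r => if r.1 - r.2 = m then 0 else (chi 2 r - 2 ^ m)⁻¹ with hθ
  have h1 : (fun r => θ r * chi 2 r) =
      fun r => (fun r => θ r * (2 : ℂ) ^ m) r + (if r.1 - r.2 = m then 0 else 1) := by
    funext r
    by_cases hr : r.1 - r.2 = m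
    · simp [hθ, hr]
    · have h2 : chi 2 r - 2 ^ m ≠ 0 := by
        intro h3
        have h4 : (2 : ℂ) ^ (r.1 - r.2) = 2 ^ m := sub_eq_zero.1 h3
        have h5 : ‖(2 : ℂ) ^ (r.1 - r.2)‖ = ‖(2 : ℂ) ^ m‖ := by rw [h4]
        rw [norm_zpow, norm_zpow] at h5
        have h6 : ‖(2 : ℂ)‖ = 2 := by simp
        rw [h6] at h5
        exact hr (zpow_right_injective₀ (by norm_num) (by norm_num) h5)
      simp only [hθ, if_neg hr]
      field_simp
      ring
  have h0 : ∀ x : (baseW T.W ℂ).H Y, act T (fun r => θ r * (2 : ℂ) ^ m) Y x =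
      (show (baseW T.W ℂ).K from (2 : ℂ) ^ m) • act T θ Y x := by
    intro x
    refine pq_ind T (p := fun x => act T (fun r => θ r * (2 : ℂ) ^ m) Y x =
      (show (baseW T.W ℂ).K from (2 : ℂ) ^ m) • act T θ Y x) ?_ ?_ ?_ x
    · rw [map_zero, map_zero, smul_zero]
    · intro x y hx hy; rw [map_add, map_add, hx, hy, smul_add]
    · intro r x hx
      rw [act_of T _ hx, act_of T _ hx, smul_smul]
      exact congrArg (fun c : (baseW T.W ℂ).K => c • x) (mul_comm (θ r) ((2 : ℂ) ^ m))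
  have h2 : act T θ Y (act T (chi 2) Y y) = act T θ Y ((show (baseW T.W ℂ).K from (2 : ℂ) ^ m) • y) := by
    rw [h]
  rw [act_act, h1, act_add, map_smul, h0] at h2
  have h3 : act T (fun r => if r.1 - r.2 = m then 0 else 1) Y y = 0 := add_eq_left.1 h2
  have h4 : act T (fun r => ind (fun r => r.1 - r.2 = m) r + (if r.1 - r.2 = m then 0 else 1)) Y y =
      y := by
    have h5 : (fun r : ℤ × ℤ => ind (fun r => r.1 - r.2 = m) r +
        (if r.1 - r.2 = m then (0 : ℂ) else 1)) = fun _ => 1 := by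
      funext r
      by_cases hr : r.1 - r.2 = m
      · simp [ind, hr]
      · simp [ind, hr]
    rw [h5, act_one']
  rw [act_add, h3, add_zero] at h4
  exact h4

lemma gam_refl (z : ℂ) (x : (baseW T.W ℂ).H Y) :
    gam (AlgEquiv.refl : ℂ ≃ₐ[T.W.K] ℂ) z Y x = act T (chi z) Y x := by
  rw [gam_apply]
  have h2 : (AlgEquiv.refl : ℂ ≃ₐ[T.W.K] ℂ).symm = AlgEquiv.refl := rfl
  rw [h2, sm_refl, sm_refl]
  rfl

lemma span_of_eigen {p q : ℤ} {y : (baseW T.W ℂ).H Y}
    (h : act T (chi 2) Y y = (show (baseW T.W ℂ).K from (2 : ℂ) ^ (p - q)) • y) :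
    y ∈ Submodule.span (baseW T.W ℂ).K {y | ∃ k : ℤ, y ∈ T.pq Y (p + k) (q + k)} := by
  rw [← act_ind_of_eigen h]
  refine pq_ind T (p := fun y => act T (ind fun r => r.1 - r.2 = p - q) Y y ∈
    Submodule.span (baseW T.W ℂ).K {y | ∃ k : ℤ, y ∈ T.pq Y (p + k) (q + k)}) ?_ ?_ ?_ y
  · rw [map_zero]; exact Submodule.zero_mem _
  · intro x y hx hy; rw [map_add]; exact Submodule.add_mem _ hx hy
  · intro r x hx
    rw [act_of T _ hx]
    by_cases hr : r.1 - r.2 = p - q
    · refine Submodule.smul_mem _ _ (Submodule.subset_span ⟨r.1 - p, ?_⟩)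
      have h1 : p + (r.1 - p) = r.1 := by ring
      have h2 : q + (r.1 - p) = r.2 := by omega
      rw [h1, h2]
      exact hx
    · have h5 : ind (fun r => r.1 - r.2 = p - q) r = 0 := if_neg hr
      rw [h5]
      exact (congrArg (· ∈ Submodule.span (baseW T.W ℂ).K
        {y | ∃ k : ℤ, y ∈ T.pq Y (p + k) (q + k)}) (zero_smul (baseW T.W ℂ).K x)).mpr
          (Submodule.zero_mem _)

lemma eigen_of_span (w : ℂ) {p q : ℤ} {y : (baseW T.W ℂ).H Y}
    (h : y ∈ Submodule.span (baseW T.W ℂ).K {y | ∃ k : ℤ, y ∈ T.pq Y (p + k) (q + k)}) :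
    act T (chi w) Y y = (show (baseW T.W ℂ).K from w ^ (p - q)) • y := by
  induction h using Submodule.span_induction with
  | mem y hy =>
    obtain ⟨k, hk⟩ := hy
    rw [act_of T _ (r := (p + k, q + k)) hk, chi]
    have h1 : (p + k) - (q + k) = p - q := by ring
    simp only [h1]
  | zero => rw [map_zero, smul_zero]
  | add x y _ _ hx hy => rw [map_add, hx, hy, smul_add]
  | smul c x _ hx => rw [map_smul, hx, smul_comm]

lemma hend_iff {f : T.W.H X →ₗ[T.W.K] T.W.H X} : HEnd T f ↔ bc f ∈ CE T X := by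
  constructor
  · intro hf
    have key : ∀ (w : ℂ) (x : (baseW T.W ℂ).H X),
        bc f (act T (chi w) X x) = act T (chi w) X (bc f x) := by
      intro w x
      refine pq_ind T (p := fun x => bc f (act T (chi w) X x) = act T (chi w) X (bc f x))
        ?_ ?_ ?_ x
      · rw [map_zero, map_zero, map_zero]
      · intro x y hx hy
        rw [map_add, map_add, hx, hy, map_add, map_add]
      · intro r x hx
        rw [act_of T _ hx, map_smul, eigen_of_span w (hf _ _ x hx)]
        rfl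
    intro σ z hz x
    rw [gam_apply, ← sm_bc, key, gam_apply, ← sm_bc]
  · intro hf p q x hx
    refine span_of_eigen ?_
    have h1 := hf AlgEquiv.refl 2 two_ne_zero x
    rw [gam_refl, gam_refl, act_of T _ (r := (p, q)) hx, map_smul] at h1
    exact h1.symm

lemma cskew_iff {f : T.W.H X →ₗ[T.W.K] T.W.H X} : CSkew T f ↔ bc f ∈ CZ T X := by
  constructor
  · rintro ⟨h1, h2, h3⟩
    refine ⟨hend_iff.1 h1, fun M hM x => ?_, fun x y => ?_⟩
    · have h4 := descendEnd (fun τ F hF => cj_CE τ hF) hM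
      have h5 : ∀ M ∈ Submodule.span (baseW T.W ℂ).K {F' | F' ∈ CE T X ∧ ∃ f, F' = bc f},
          bc f ∘ₗ M = M ∘ₗ bc f := by
        intro M hM
        induction hM using Submodule.span_induction with
        | mem M hM =>
          obtain ⟨hM, g, rfl⟩ := hM
          refine bc_ext fun a => ?_
          rw [LinearMap.comp_apply, LinearMap.comp_apply, bc_em, bc_em, bc_em, bc_em,
            h2 g (hend_iff.2 hM)]
        | zero => rw [LinearMap.comp_zero, LinearMap.zero_comp]
        | add M N _ _ hM hN => rw [LinearMap.comp_add, LinearMap.add_comp, hM, hN]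
        | smul c M _ hM => rw [LinearMap.comp_smul, LinearMap.smul_comp, hM]
      exact LinearMap.congr_fun (h5 M h4) x
    · refine em_ind (p := fun x => (baseW T.W ℂ).tr X (bc f x * y) =
        -(baseW T.W ℂ).tr X (x * bc f y)) ?_ ?_ ?_ ?_ x
      · rw [map_zero, zero_mul, zero_mul, map_zero, neg_zero]
      · intro x x' hx hx'
        rw [map_add, add_mul, add_mul, map_add, map_add, hx, hx', neg_add]
      · intro c x hx
        rw [map_smul, smul_mul_assoc, smul_mul_assoc, map_smul, map_smul, hx, smul_neg]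
      · intro a
        refine em_ind (p := fun y => (baseW T.W ℂ).tr X (bc f (AH.em T.W ℂ a) * y) =
          -(baseW T.W ℂ).tr X (AH.em T.W ℂ a * bc f y)) ?_ ?_ ?_ ?_ y
        · rw [map_zero, mul_zero, mul_zero, map_zero, neg_zero]
        · intro x x' hx hx'
          rw [map_add, mul_add, mul_add, map_add, map_add, hx, hx', neg_add]
        · intro c x hx
          rw [map_smul, mul_smul_comm, mul_smul_comm, map_smul, map_smul, hx, smul_neg]
        · intro b
          rw [bc_em, bc_em, em_mul, em_mul]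
          have h4 : ∀ c : T.W.H X, (baseW T.W ℂ).tr X (AH.em T.W ℂ c) =
              (show (baseW T.W ℂ).K from algebraMap T.W.K ℂ (T.W.tr X c)) := by
            intro c
            have h5 : formBase ℂ (T.W.tr X) ((1 : ℂ) ⊗ₜ[T.W.K] c) =
              1 * algebraMap T.W.K ℂ (T.W.tr X c) := formBase_tmul _ _ _
            rw [one_mul] at h5
            exact h5
          rw [h4, h4, h3]
          exact map_neg (algebraMap T.W.K ℂ) _
  · rintro ⟨h1, h2, h3⟩
    refine ⟨hend_iff.2 h1, fun g hg x => ?_, fun x y => ?_⟩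
    · have h4 := h2 (bc g) (hend_iff.1 hg) (AH.em T.W ℂ x)
      rw [bc_em, bc_em, bc_em, bc_em] at h4
      have h5 : AH.em T.W ℂ (f (g x) + (-1 : T.W.K) • g (f x)) = 0 := by
        rw [AH.em_add, AH.em_smul, h4]
        have h6 : (show (baseW T.W ℂ).K from algebraMap T.W.K ℂ (-1)) = -1 := by
          have h7 : algebraMap T.W.K ℂ (-1) = -1 := by rw [map_neg, map_one]
          exact h7
        refine Eq.trans (congrArg (fun c : (baseW T.W ℂ).K =>
          AH.em T.W ℂ (g (f x)) + c • AH.em T.W ℂ (g (f x))) h6) ?_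
        simp only [neg_smul, one_smul, add_neg_cancel]
      have h6 := AH.em_injective h5
      rw [neg_smul, one_smul] at h6
      exact add_neg_eq_zero.1 h6
    · have h4 := h3 (AH.em T.W ℂ x) (AH.em T.W ℂ y)
      rw [bc_em, bc_em, em_mul, em_mul] at h4
      have h6 : ∀ c : T.W.H X, (baseW T.W ℂ).tr X (AH.em T.W ℂ c) =
          (show (baseW T.W ℂ).K from algebraMap T.W.K ℂ (T.W.tr X c)) := by
        intro c
        have h5 : formBase ℂ (T.W.tr X) ((1 : ℂ) ⊗ₜ[T.W.K] c) =
          1 * algebraMap T.W.K ℂ (T.W.tr X c) := formBase_tmul _ _ _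
        rw [one_mul] at h5
        exact h5
      rw [h6, h6] at h4
      have h7 : algebraMap T.W.K ℂ (T.W.tr X (f x * y)) =
          algebraMap T.W.K ℂ (-T.W.tr X (x * f y)) := by
        rw [map_neg]
        exact h4
      exact (algebraMap T.W.K ℂ).injective h7

lemma CZ_span {F : EndC T X} (hF : F ∈ CZ T X) :
    F ∈ Submodule.span (baseW T.W ℂ).K {F' | ∃ f, CSkew T f ∧ F' = bc f} := by
  refine Submodule.span_mono ?_ (descendEnd (fun τ F hF => cj_CZ τ hF) hF)
  rintro _ ⟨hF, f, rfl⟩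
  exact ⟨f, cskew_iff.2 hF, rfl⟩

/-! ### Matrices -/

section mat
variable {ι : Type} [Fintype ι] [DecidableEq ι] (B : HBasis (baseW T.W ℂ) X ι)
open Matrix

/-- The endomorphism with a given matrix. -/
noncomputable def lin (M : Matrix ι ι ℂ) : EndC T X :=
  B.b.constr (baseW T.W ℂ).K fun j => ∑ i, (show (baseW T.W ℂ).K from M i j) • B.b i

lemma lin_b (M : Matrix ι ι ℂ) (j : ι) :
    lin B M (B.b j) = ∑ i, (show (baseW T.W ℂ).K from M i j) • B.b i :=
  B.b.constr_basis (baseW T.W ℂ).K _ _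

lemma mt_lin (M : Matrix ι ι ℂ) : mt B (lin B M) = M := mt_eq B fun j => lin_b B M j

lemma lin_mt (F : EndC T X) : lin B (mt B F) = F := by
  refine B.b.ext fun j => ?_
  rw [lin_b]
  exact (mt_sum B F j).symm

lemma mt_mul (F F' : EndC T X) : mt B (F ∘ₗ F') = mt B F * mt B F' := mt_comp_lin B F F'

lemma mt_add (F F' : EndC T X) : mt B (F + F' : EndC T X) = mt B F + mt B F' := by
  ext j i
  rw [Matrix.add_apply, mt_apply, mt_apply, mt_apply, LinearMap.add_apply, map_add]
  rfl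

lemma mt_smul (c : (baseW T.W ℂ).K) (F : EndC T X) :
    mt B (c • F : EndC T X) = (show ℂ from c) • mt B F := by
  ext j i
  rw [Matrix.smul_apply, mt_apply, mt_apply, LinearMap.smul_apply, map_smul]
  rfl

lemma mt_zero : mt B (0 : EndC T X) = 0 := by
  ext j i
  rw [mt_apply, LinearMap.zero_apply, map_zero]
  rfl

lemma mt_injective {F F' : EndC T X} (h : mt B F = mt B F') : F = F' := by
  rw [← lin_mt B F, h, lin_mt]

variable (hpos : ∀ (Y : 𝒱.Obj) (p q : ℤ), p < 0 ∨ q < 0 → T.pq Y p q = ⊥)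
include hpos

lemma mem_CE_iff (F : EndC T X) : F ∈ CE T X ↔
    ∀ g ∈ gen (2 * X.dim) (crvs B), g * mt B F = mt B F * g := by
  constructor
  · intro hF g hg
    refine gen_induction B hpos (p := fun g => g * mt B F = mt B F * g) ?_ ?_ ?_ hg
    · rw [one_mul, mul_one]
    · intro g h hg hh
      rw [Matrix.mul_assoc, hh, ← Matrix.mul_assoc, hg, Matrix.mul_assoc]
    · intro σ z hz
      rw [← mt_mul, ← mt_mul]
      congr 1
      funext x
      exact (hF σ z hz x).symm
  · intro h σ z hz x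
    have h1 := h _ (gam_mem_gen B hpos σ hz)
    rw [← mt_mul, ← mt_mul] at h1
    exact (LinearMap.congr_fun (mt_injective B h1) x).symm

/-- The matrix of the intersection form. -/
noncomputable def trJ : Matrix ι ι ℂ :=
  Matrix.of fun i j => (show ℂ from (baseW T.W ℂ).tr X (B.b i * B.b j))

omit hpos in
lemma trJ_mul (F : EndC T X) (i j : ι) :
    (trJ B * mt B F) i j = (show ℂ from (baseW T.W ℂ).tr X (B.b i * F (B.b j))) := by
  rw [mt_sum B F j, Finset.mul_sum, map_sum, Matrix.mul_apply]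
  refine Finset.sum_congr rfl fun l _ => ?_
  rw [mul_smul_comm, map_smul]
  exact mul_comm _ _

omit hpos in
lemma mul_trJ (F : EndC T X) (i j : ι) :
    ((mt B F)ᵀ * trJ B) i j = (show ℂ from (baseW T.W ℂ).tr X (F (B.b i) * B.b j)) := by
  rw [mt_sum B F i, Finset.sum_mul, map_sum, Matrix.mul_apply]
  refine Finset.sum_congr rfl fun l _ => ?_
  rw [smul_mul_assoc, map_smul]
  rfl

omit hpos in
lemma skew_iff (F : EndC T X) :
    (∀ x y, (baseW T.W ℂ).tr X (F x * y) = -(baseW T.W ℂ).tr X (x * F y)) ↔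
      (mt B F)ᵀ * trJ B = -(trJ B * mt B F) := by
  constructor
  · intro h
    ext i j
    rw [mul_trJ, h, Matrix.neg_apply, trJ_mul]
    rfl
  · intro h x y
    have h1 : ∀ i j, (baseW T.W ℂ).tr X (F (B.b i) * B.b j) =
        -(baseW T.W ℂ).tr X (B.b i * F (B.b j)) := by
      intro i j
      have h2 := congrFun (congrFun h i) j
      rw [mul_trJ, Matrix.neg_apply, trJ_mul] at h2
      exact h2
    rw [← B.b.sum_repr x, ← B.b.sum_repr y]
    simp only [map_sum, map_smul, Finset.sum_mul, Finset.mul_sum, smul_mul_assoc, mul_smul_comm,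
      h1, smul_neg, Finset.sum_neg_distrib]

lemma mem_CZ_iff (F : EndC T X) : F ∈ CZ T X ↔ mt B F ∈ zz (gen (2 * X.dim) (crvs B)) (trJ B)⁻¹ := by
  have hdet : IsUnit (trJ B).det := det_tr B
  have hsk : (mt B F)ᵀ * trJ B = -(trJ B * mt B F) ↔
      mt B F * (trJ B)⁻¹ = -((trJ B)⁻¹ * (mt B F)ᵀ) := by
    constructor
    · intro h
      have h1 := congrArg (fun M => (trJ B)⁻¹ * M * (trJ B)⁻¹) h
      rw [mul_neg, neg_mul, ← Matrix.mul_assoc (trJ B)⁻¹ (trJ B), nonsing_inv_mul _ hdet, one_mul,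
        ← Matrix.mul_assoc, Matrix.mul_assoc _ (trJ B), mul_nonsing_inv _ hdet, mul_one] at h1
      rw [h1, neg_neg]
    · intro h
      have h1 := congrArg (fun M => trJ B * M * trJ B) h
      rw [mul_neg, neg_mul, ← Matrix.mul_assoc (trJ B) (trJ B)⁻¹, mul_nonsing_inv _ hdet, one_mul,
        ← Matrix.mul_assoc, Matrix.mul_assoc _ (trJ B)⁻¹, nonsing_inv_mul _ hdet, mul_one] at h1
      rw [h1, neg_neg]
  constructor
  · rintro ⟨h1, h2, h3⟩
    refine ⟨(mem_CE_iff B hpos F).1 h1, fun M hM => ?_, hsk.1 ((skew_iff B F).1 h3)⟩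
    have h4 : lin B M ∈ CE T X := (mem_CE_iff B hpos _).2 (by rw [mt_lin]; exact hM)
    have h5 : F ∘ₗ lin B M = lin B M ∘ₗ F := LinearMap.ext fun x => h2 _ h4 x
    have h6 := congrArg (fun F : EndC T X => mt B F) h5
    simp only [mt_mul, mt_lin] at h6
    exact h6
  · rintro ⟨h1, h2, h3⟩
    refine ⟨(mem_CE_iff B hpos F).2 h1, fun M hM x => ?_, (skew_iff B F).2 (hsk.2 h3)⟩
    have h4 := h2 _ ((mem_CE_iff B hpos M).1 hM)
    rw [← mt_mul, ← mt_mul] at h4
    exact LinearMap.congr_fun (mt_injective B h4) x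

/-- The central skew matrices are combinations of the matrices of central skew rational Hodge
endomorphisms. -/
lemma zz_ind {p : Matrix ι ι ℂ → Prop} (h0 : p 0) (hadd : ∀ M N, p M → p N → p (M + N))
    (hsm : ∀ (c : ℂ) M, p M → p (c • M)) (h : ∀ f, CSkew T f → p (mt B (bc f)))
    {Z : Matrix ι ι ℂ} (hZ : Z ∈ zz (gen (2 * X.dim) (crvs B)) (trJ B)⁻¹) : p Z := by
  have h1 : lin B Z ∈ CZ T X := (mem_CZ_iff B hpos _).2 (by rw [mt_lin]; exact hZ)
  have h2 := CZ_span h1
  have h3 : ∀ F ∈ Submodule.span (baseW T.W ℂ).K {F' | ∃ f, CSkew T f ∧ F' = bc f},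
      p (mt B F) := by
    intro F hF
    induction hF using Submodule.span_induction with
    | mem F hF =>
      obtain ⟨f, hf, rfl⟩ := hF
      exact h f hf
    | zero => rw [mt_zero]; exact h0
    | add F F' _ _ hF hF' => rw [mt_add]; exact hadd _ _ hF hF'
    | smul c F _ hF => rw [mt_smul]; exact hsm _ _ hF
  have h4 := h3 _ h2
  rwa [mt_lin] at h4

end mat

end Pool.Agent.H842.PP
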