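import Pool.Agent.H842.PP.GDat

/-!
# External products and derivations
-/

set_option linter.unusedSectionVars false
set_option linter.unusedVariables false

open CategoryTheory AlgebraicGeometry CategoryTheory.Limits TensorProduct Matrix

universe u v

namespace Pool.Agent.H842.PP

open Pool.Agent.H914 Pool.Agent.H447 Pool.Agent.W534 Pool.Agent.Y163 VarClass Obj WeilCohomology
  Module
open Pool.Agent.Y121 Pool.Agent.R940 Pool.Agent.R914.UN

variable {k : Type u} [Field k] {𝒱 : VarClass k} {ops : CycleOps 𝒱}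

section gen

variable {W : WeilCohomology.{u, 0} ops} {X : 𝒱.Obj}

variable (W X) in
/-- The external product of classes. -/
noncomputable def ext (n : ℕ) (x : Fin (n + 1) → W.H X) : W.H (pw X n) :=
  (List.ofFn fun i => W.map (pr X n i) (x i)).prod

variable (W X) in
/-- The external product of classes as a multilinear map. -/
noncomputable def extML (n : ℕ) :
    MultilinearMap W.K (fun _ : Fin (n + 1) => W.H X) (W.H (pw X n)) :=
  (MultilinearMap.mkPiAlgebraFin W.K (n + 1) (W.H (pw X n))).compLinearMap
    (fun i => (W.map (pr X n i)).toLinearMap)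

lemma extML_apply (n : ℕ) (x : Fin (n + 1) → W.H X) : extML W X n x = ext W X n x := by
  rw [extML, MultilinearMap.compLinearMap_apply, MultilinearMap.mkPiAlgebraFin_apply]
  rfl

/-- The derivation given by an endomorphism, as a multilinear map. -/
noncomputable def derML (f : W.H X →ₗ[W.K] W.H X) (n : ℕ) :
    MultilinearMap W.K (fun _ : Fin (n + 1) => W.H X) (W.H (pw X n)) :=
  ∑ i, (extML W X n).compLinearMap (fun j => if j = i then f else LinearMap.id)

lemma derML_apply (f : W.H X →ₗ[W.K] W.H X) (n : ℕ) (x : Fin (n + 1) → W.H X) :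
    derML f n x = ∑ i, ext W X n (Function.update x i (f (x i))) := by
  rw [derML, _root_.sum_apply]
  refine Finset.sum_congr rfl fun i _ => ?_
  rw [MultilinearMap.compLinearMap_apply, extML_apply]
  congr 1
  funext j
  by_cases h : j = i
  · subst h
    rw [if_pos rfl, Function.update_self]
  · rw [if_neg h, Function.update_of_ne h, LinearMap.id_apply]

/-- `D` is the derivation given by the endomorphism `f`. -/
def IsDer (f : W.H X →ₗ[W.K] W.H X) (n : ℕ) (D : W.H (pw X n) →ₗ[W.K] W.H (pw X n)) : Prop :=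
  ∀ x : Fin (n + 1) → W.H X, D (ext W X n x) = ∑ i, ext W X n (Function.update x i (f (x i)))

lemma isDer_iff {f : W.H X →ₗ[W.K] W.H X} {n : ℕ} {D : W.H (pw X n) →ₗ[W.K] W.H (pw X n)} :
    IsDer f n D ↔ D.compMultilinearMap (extML W X n) = derML f n := by
  constructor
  · intro h
    ext x
    rw [LinearMap.compMultilinearMap_apply, extML_apply, h, derML_apply]
  · intro h x
    rw [← extML_apply, ← derML_apply, ← h, LinearMap.compMultilinearMap_apply]

lemma mon_ext {ι : Type} (B : HBasis W X ι) (n : ℕ) (I : Fin (n + 1) → ι) :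
    mon B n I = ext W X n fun i => B.b (I i) := mon_eq B n I

/-- Existence of the derivations. -/
theorem exists_der (f : W.H X →ₗ[W.K] W.H X) (n : ℕ) : ∃ D, IsDer f n D := by
  obtain ⟨ι, hι, ⟨B⟩⟩ := exists_hbasis W X
  obtain ⟨b, hb⟩ := exists_monBasis B n
  refine ⟨b.constr W.K fun I => derML f n fun i => B.b (I i), isDer_iff.2 ?_⟩
  refine Basis.ext_multilinear (fun _ => B.b) fun I => ?_
  rw [LinearMap.compMultilinearMap_apply, extML_apply, ← mon_ext B n I, ← hb,
    Basis.constr_basis]

theorem isDer_unique {f : W.H X →ₗ[W.K] W.H X} {n : ℕ}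
    {D D' : W.H (pw X n) →ₗ[W.K] W.H (pw X n)} (h : IsDer f n D) (h' : IsDer f n D') : D = D' := by
  obtain ⟨ι, hι, ⟨B⟩⟩ := exists_hbasis W X
  obtain ⟨b, hb⟩ := exists_monBasis B n
  refine b.ext fun I => ?_
  rw [hb, mon_ext, h, h']

end gen

variable {T : AH.HodgeTheory ops} {X Y Z : 𝒱.Obj} {ι : Type} [Fintype ι] [DecidableEq ι]

lemma em_one : AH.em T.W ℂ (1 : T.W.H Y) = 1 := rfl

lemma em_ext (n : ℕ) (x : Fin (n + 1) → T.W.H X) : AH.em T.W ℂ (ext T.W X n x) =
    ext (baseW T.W ℂ) X n fun i => AH.em T.W ℂ (x i) := by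
  rw [ext, ext]
  have h1 : ∀ l : List (T.W.H (pw X n)), AH.em T.W ℂ l.prod = (l.map (AH.em T.W ℂ)).prod := by
    intro l
    induction l with
    | nil => rfl
    | cons a l ih => rw [List.prod_cons, AH.em_mul, ih, List.map_cons, List.prod_cons]
  rw [h1, List.map_ofFn]
  exact congrArg (fun l : (Fin (n + 1)) → (baseW T.W ℂ).H (pw X n) => (List.ofFn l).prod)
    (funext fun i => (AH.em_map (pr X n i) (x i)).symm)

lemma em_sum' {α : Type} (s : Finset α) (a : α → T.W.H Y) :
    AH.em T.W ℂ (∑ i ∈ s, a i) = ∑ i ∈ s, AH.em T.W ℂ (a i) := by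
  classical
  induction s using Finset.induction_on with
  | empty => rw [Finset.sum_empty, Finset.sum_empty, AH.em_zero]
  | insert i s hi ih => rw [Finset.sum_insert hi, Finset.sum_insert hi, AH.em_add, ih]

/-- The extension of a derivation. -/
theorem isDer_bc {f : T.W.H X →ₗ[T.W.K] T.W.H X} {n : ℕ}
    {D : T.W.H (pw X n) →ₗ[T.W.K] T.W.H (pw X n)} (h : IsDer f n D) :
    IsDer (W := baseW T.W ℂ) (bc f) n (bc D) := by
  let b := Module.finBasis T.W.K (T.W.H X)
  let bC : Basis (Fin (finrank T.W.K (T.W.H X))) (baseW T.W ℂ).K ((baseW T.W ℂ).H X) :=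
    (Algebra.TensorProduct.basis ℂ b : Basis _ ℂ (ℂ ⊗[T.W.K] T.W.H X))
  have hbC : ∀ i, bC i = AH.em T.W ℂ (b i) := fun i => Algebra.TensorProduct.basis_apply b i
  refine isDer_iff.2 (Basis.ext_multilinear (fun _ => bC) fun I => ?_)
  rw [LinearMap.compMultilinearMap_apply, extML_apply, derML_apply]
  have h1 : (fun i => bC (I i)) = fun i => AH.em T.W ℂ (b (I i)) := funext fun i => hbC _
  rw [h1, ← em_ext, bc_em, h, em_sum']
  refine Finset.sum_congr rfl fun i _ => ?_
  rw [em_ext]
  congr 1
  funext j
  by_cases hj : j = i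
  · subst hj
    rw [Function.update_self, Function.update_self, hbC, bc_em]
  · rw [Function.update_of_ne hj, Function.update_of_ne hj]

/-- Derivations in coordinates. -/
theorem Phi_der (B : HBasis (baseW T.W ℂ) X ι) {F : EndC T X} {n : ℕ} {D : EndC T (pw X n)}
    (h : IsDer (W := baseW T.W ℂ) F n D) (v : (Fin (n + 1) → ι) → ℂ) :
    D (Phi B n v) = Phi B n (der (Fin (n + 1)) (mt B F) *ᵥ v) := by
  have h1 : ∀ I : Fin (n + 1) → ι, D (mon B n I) =
      ∑ J, (show (baseW T.W ℂ).K from der (Fin (n + 1)) (mt B F) J I) • mon B n J := by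
    intro I
    rw [mon_ext, h]
    have h2 : ∀ i, ext (baseW T.W ℂ) X n (Function.update (fun i => B.b (I i)) i (F (B.b (I i)))) =
        ∑ J, (show (baseW T.W ℂ).K from
          tpm (Function.update (fun _ => (1 : Matrix ι ι ℂ)) i (mt B F)) J I) • mon B n J := by
      intro i
      have h3 : Function.update (fun i => B.b (I i)) i (F (B.b (I i))) = fun j =>
          ∑ a, (show (baseW T.W ℂ).K from
            Function.update (fun _ => (1 : Matrix ι ι ℂ)) i (mt B F) j a (I j)) • B.b a := by
        funext j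
        by_cases hj : j = i
        · subst hj
          rw [Function.update_self, Function.update_self]
          exact mt_sum B F _
        · rw [Function.update_of_ne hj, Function.update_of_ne hj, Finset.sum_eq_single (I j)]
          · have h4 : (show (baseW T.W ℂ).K from (1 : Matrix ι ι ℂ) (I j) (I j)) = 1 :=
              Matrix.one_apply_eq _
            rw [h4, one_smul]
          · intro a _ ha
            have h4 : (show (baseW T.W ℂ).K from (1 : Matrix ι ι ℂ) a (I j)) = 0 :=
              Matrix.one_apply_ne ha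
            rw [h4, zero_smul]
          · intro h4
            exact absurd (Finset.mem_univ _) h4
      rw [← extML_apply, h3, MultilinearMap.map_sum]
      refine Finset.sum_congr rfl fun J _ => ?_
      rw [MultilinearMap.map_smul_univ, extML_apply, ← mon_ext]
      rfl
    rw [Finset.sum_congr rfl fun i _ => h2 i, Finset.sum_comm]
    refine Finset.sum_congr rfl fun J _ => ?_
    rw [← Finset.sum_smul]
    congr 1
    rw [der, Matrix.sum_apply]
    rfl
  have e1 := Phi_apply B n (show (Fin (n + 1) → ι) → (baseW T.W ℂ).K from v)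
  have e2 := Phi_apply B n (show (Fin (n + 1) → ι) → (baseW T.W ℂ).K from
    der (Fin (n + 1)) (mt B F) *ᵥ v)
  refine (congrArg D e1).trans (Eq.trans ?_ e2.symm)
  rw [map_sum]
  have h2 : ∀ I : Fin (n + 1) → ι, D ((show (baseW T.W ℂ).K from v I) • mon B n I) =
      ∑ J, (show (baseW T.W ℂ).K from der (Fin (n + 1)) (mt B F) J I * v I) • mon B n J := by
    intro I
    rw [map_smul, h1, Finset.smul_sum]
    refine Finset.sum_congr rfl fun J _ => ?_
    rw [smul_smul]
    congr 1
    exact mul_comm _ _
  refine (Finset.sum_congr rfl fun I _ => h2 I).trans ?_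
  rw [Finset.sum_comm]
  refine Finset.sum_congr rfl fun J _ => ?_
  rw [← Finset.sum_smul]
  rfl

end Pool.Agent.H842.PP
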