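import Pool.Agent.H842.PP.GMain

/-!
# Finitely many classes generate
-/

set_option linter.unusedSectionVars false
set_option linter.unusedVariables false

open CategoryTheory AlgebraicGeometry CategoryTheory.Limits TensorProduct Matrix

universe u v

namespace Pool.Agent.H842.PP

open Pool.Agent.H914 Pool.Agent.H447 Pool.Agent.W534 Pool.Agent.Y163 VarClass Obj WeilCohomology
  Module
open Pool.Agent.Y121 Pool.Agent.R940 Pool.Agent.R914.UN
open Pool.Agent.Y133.Half (Sys PH Ev Adj ClassPred)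

variable {k : Type u} [Field k] {𝒱 : VarClass k} {ops : CycleOps 𝒱}

variable {T : AH.HodgeTheory ops} {X Y Z : 𝒱.Obj} {ι : Type} [Fintype ι] [DecidableEq ι]

variable (T X) in
/-- Neutral Hodge classes. -/
def NH (n : ℕ) (c : T.W.H (pw X n)) : Prop :=
  ∃ j, AH.IsHodge T (pw X n) j c ∧ Neutral T X n c

section greedy

variable (hpos : ∀ (Y : 𝒱.Obj) (p q : ℤ), p < 0 ∨ q < 0 → T.pq Y p q = ⊥)
  {ψ : LinearMap.BilinForm T.W.K (T.W.H X)} (hψ : IsPol ψ) (B : HBasis (baseW T.W ℂ) X ι)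
  (hB : ∀ i j, hf ψ (B.b i) (B.b j) = if i = j then 1 else 0)
  {v0 : (Fin 1 → ι) → ℂ} (hv0 : v0 ≠ 0) (hv : Phi B 0 v0 = 1)

variable {M : ℕ} (Q : Set (T.W.H (pw X M)) → ClassPred T.W)
  (hQ : ∀ (S : Set (T.W.H (pw X M))) (Y : 𝒱.Obj) (j : ℕ) (c : T.W.H Y),
    (Q S).P Y j c → AH.IsHodge T Y j c)
  (hmono : ∀ (S S' : Set (T.W.H (pw X M))), S ⊆ S' → ∀ (Y : 𝒱.Obj) (j : ℕ) (c : T.W.H Y),
    (Q S).P Y j c → (Q S').P Y j c)
  (hbase : ∀ (S : Set (T.W.H (pw X M))) (j : ℕ) (c : T.W.H (pw X M)), c ∈ S →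
    AH.IsHodge T (pw X M) j c → (Q S).P (pw X M) j c)

include hQ hmono hbase

theorem greedy (hM : pbound (Fintype.card ι) - 1 ≤ M) (k : ℕ) :
    ∀ (S : Set (T.W.H (pw X M))), S.Finite → (∀ c ∈ S, NH T X M c) → Cov X (Q S) 3 →
      ∀ TS : TSys ι, IsTS hpos hψ B hB hv0 hv (Q S) TS →
        idx TS (mkGD hpos hψ B hB hv0 hv).TI < 2 ^ k →
          ∃ S' : Set (T.W.H (pw X M)), S'.Finite ∧ S'.ncard ≤ S.ncard + k ∧
            (∀ c ∈ S', NH T X M c) ∧ ∀ n, Cov X (Q S') n := by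
  induction k with
  | zero =>
    intro S hSf hS h3 TS hTS hidx
    obtain ⟨h0, -⟩ := dat_idx (mkGD hpos hψ B hB hv0 hv) hTS.1 hTS.2.1
      (fun n hn => le_of_cov (N := 4) hTS h3 n hn)
    omega
  | succ k ih =>
    intro S hSf hS h3 TS hTS hidx
    obtain ⟨h0, -⟩ := dat_idx (mkGD hpos hψ B hB hv0 hv) hTS.1 hTS.2.1
      (fun n hn => le_of_cov (N := 4) hTS h3 n hn)
    by_cases hcov : Cov X (Q S) M
    · exact ⟨S, hSf, Nat.le_add_right _ _, hS,
        cov_all hpos hψ B hB hv0 hv (Q S) (hQ S) (cov_le hpos hψ B hB hv0 hv _ hM hcov)⟩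
    · rw [Cov] at hcov
      push Not at hcov
      obtain ⟨j, c, hc, hn, hcP⟩ := hcov
      have hsub : S ⊆ insert c S := Set.subset_insert c S
      have h3' : Cov X (Q (insert c S)) 3 := fun j d hd hd' =>
        hmono _ _ hsub _ _ _ (h3 j d hd hd')
      obtain ⟨TS', hTS'⟩ := exists_TS hpos hψ B hB hv0 hv (Q (insert c S)) (hQ _)
        ((cov_iff hpos).1 (cov_le hpos hψ B hB hv0 hv _ (by omega) h3'))
      have hle : ∀ (κ : Type) [Fintype κ] [DecidableEq κ], TS.A κ ≤ TS'.A κ := by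
        refine tsys_le fun n v hv' => ?_
        rw [hTS.2.2] at hv'
        rw [hTS'.2.2]
        refine SG_mono (inf_le_inf_right _ ?_) hv'
        exact Submodule.span_mono fun d ⟨l, hl⟩ => ⟨l, hmono _ _ hsub _ _ _ hl⟩
      obtain ⟨v, hv1⟩ := (Phi_bijective B M).2 (AH.em T.W ℂ c)
      have hcn : c ∈ neu T X M := ⟨ClassPred.sp_of (Q := AH.hodgePred T) hc, hn⟩
      have hvin : v ∈ TS'.A (Fin (M + 1)) := by
        refine (hTS'.2.2 M v).2 ((congrArg (· ∈ SG ℂ _) hv1).mpr (em_SG ⟨?_, hcn⟩))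
        exact ClassPred.sp_of (hbase _ j c (Set.mem_insert c S) hc)
      have hvnot : v ∉ TS.A (Fin (M + 1)) := by
        intro h
        apply hcP
        have h1 := (congrArg (· ∈ SG ℂ ((Q S).sp (pw X M) ⊓ neu T X M)) hv1).mp
          ((hTS.2.2 M v).1 h)
        have h2 := (mem_of_SG (T := T) (L := ℂ) h1).1
        have h3 := ClassPred.sp_proj h2 j
        rwa [proj_same _ hc.1] at h3
      have hd := idx_double hTS.1 hle hTS'.2.1 h0 hvin hvnot
      have hidx' : idx TS' (mkGD hpos hψ B hB hv0 hv).TI < 2 ^ k := by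
        rw [pow_succ] at hidx
        omega
      have hS' : ∀ d ∈ insert c S, NH T X M d := by
        intro d hd
        rcases Set.mem_insert_iff.1 hd with rfl | hd
        · exact ⟨j, hc, hn⟩
        · exact hS d hd
      obtain ⟨S', h1, h2, h4, h5⟩ := ih (insert c S) (hSf.insert c) hS' h3' TS' hTS' hidx'
      refine ⟨S', h1, ?_, h4, h5⟩
      have h6 := Set.ncard_insert_le c S
      omega

include hpos hψ hB hv0 hv in
/-- **Finitely many classes on one power generate.** -/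
theorem exists_gen (hM : M + 1 = pbound (Fintype.card ι)) :
    ∃ S : Set (T.W.H (pw X M)), S.Finite ∧
      S.ncard ≤ Fintype.card ι ^ 4 +
        2 * Fintype.card ι ^ 2 * (Nat.log 2 (Fintype.card ι) + 3) ∧
      (∀ c ∈ S, NH T X M c) ∧ ∀ n, Cov X (Q S) n := by
  classical
  have hb := (mkGD hpos hψ B hB hv0 hv).cardB
  have hp := two_le_pbound (ι := ι) hb
  obtain ⟨r, g, hrg, hr⟩ := pull_exists hpos hψ B hB hv0 hv (m := 3) (M := M) (by omega)
  obtain ⟨S0, hS0, hspan, hli⟩ := exists_linearIndependent T.W.K {c | NH T X 3 c}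
  have hS0f : S0.Finite := hli.setFinite
  have hcard : S0.ncard ≤ Fintype.card ι ^ 4 := by
    have : Fintype S0 := hS0f.fintype
    have h1 := hli.fintype_card_le_finrank
    have h2 : finrank T.W.K (T.W.H (pw X 3)) = Fintype.card ι ^ 4 := by
      rw [finrank_pw]
      have h3 : finrank T.W.K (T.W.H X) = Fintype.card ι := by
        have h4 : finrank ℂ (ℂ ⊗[T.W.K] T.W.H X) = Fintype.card ι :=
          Module.finrank_eq_card_basis B.b
        rw [← h4]
        exact finrank_baseChange.symm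
      rw [h3]
    rw [h2] at h1
    rwa [Set.ncard_eq_toFinset_card', Set.toFinset_card]
  set S1 : Set (T.W.H (pw X M)) := (T.W.map (R940.proj X r)) '' S0 with hS1
  have hS1f : S1.Finite := hS0f.image _
  have hS1card : S1.ncard ≤ Fintype.card ι ^ 4 := (Set.ncard_image_le hS0f).trans hcard
  have hS1NH : ∀ c ∈ S1, NH T X M c := by
    rintro _ ⟨c, hc, rfl⟩
    obtain ⟨j, hj, hn⟩ := hS0 hc
    exact ⟨j, hj.map _, (hr c ⟨ClassPred.sp_of (Q := AH.hodgePred T) hj, hn⟩).2⟩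
  have h3 : Cov X (Q S1) 3 := by
    intro j c hc hn
    have h4 : c ∈ Submodule.span T.W.K S0 := by
      rw [hspan]
      exact Submodule.subset_span ⟨j, hc, hn⟩
    have h5 : Submodule.span T.W.K S0 ≤ (Q S1).sp (pw X 3) := by
      rw [Submodule.span_le]
      intro d hd
      obtain ⟨l, hl, -⟩ := hS0 hd
      exact ClassPred.sp_of (pred_pull (Q S1) hrg
        (hbase S1 l _ ⟨d, hd, rfl⟩ (hl.map _)))
    have h6 := ClassPred.sp_proj (h5 h4) j
    rwa [proj_same _ hc.1] at h6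
  obtain ⟨TS, hTS⟩ := exists_TS hpos hψ B hB hv0 hv (Q S1) (hQ _)
    ((cov_iff hpos).1 (cov_le hpos hψ B hB hv0 hv _ (by omega) h3))
  obtain ⟨h0, h0'⟩ := dat_idx (mkGD hpos hψ B hB hv0 hv) hTS.1 hTS.2.1
    (fun n hn => le_of_cov (N := 4) hTS h3 n hn)
  have hlt : idx TS (mkGD hpos hψ B hB hv0 hv).TI <
      2 ^ (2 * Fintype.card ι ^ 2 * (Nat.log 2 (Fintype.card ι) + 3)) := by
    refine h0'.trans_lt ?_
    have h4 : 4 * Fintype.card ι < 2 ^ (Nat.log 2 (Fintype.card ι) + 3) := by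
      have h5 := Nat.lt_pow_succ_log_self (b := 2) (by norm_num) (Fintype.card ι)
      rw [pow_add]
      rw [pow_succ] at h5
      omega
    have h6 : 2 * Fintype.card ι ^ 2 ≠ 0 := by
      have : 1 ≤ Fintype.card ι ^ 2 := Nat.one_le_pow _ _ hb
      omega
    calc (4 * Fintype.card ι) ^ (2 * Fintype.card ι ^ 2) <
        (2 ^ (Nat.log 2 (Fintype.card ι) + 3)) ^ (2 * Fintype.card ι ^ 2) :=
          Nat.pow_lt_pow_left h4 h6
      _ = 2 ^ (2 * Fintype.card ι ^ 2 * (Nat.log 2 (Fintype.card ι) + 3)) := by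
          rw [← pow_mul, mul_comm]
  obtain ⟨S', h1, h2, h4, h5⟩ := greedy hpos hψ B hB hv0 hv Q hQ hmono hbase (by omega) _ S1 hS1f
    hS1NH h3 TS hTS hlt
  exact ⟨S', h1, h2.trans (Nat.add_le_add_right hS1card _), h4, h5⟩

end greedy

end Pool.Agent.H842.PP
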