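import Pool.Agent.H842.PP.GSys

/-!
# The theorems for classes of Hodge classes
-/

set_option linter.unusedSectionVars false
set_option linter.unusedVariables false

open CategoryTheory AlgebraicGeometry CategoryTheory.Limits TensorProduct Matrix

universe u v

namespace Pool.Agent.H842.PP

open Pool.Agent.H914 Pool.Agent.H447 Pool.Agent.W534 Pool.Agent.Y163 VarClass Obj WeilCohomology
  Module
open Pool.Agent.Y121 Pool.Agent.R940 Pool.Agent.R914.UN
open Pool.Agent.Y133.Half (Sys PH Ev Adj ClassPred)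

variable {k : Type u} [Field k] {𝒱 : VarClass k} {ops : CycleOps 𝒱}

variable {T : AH.HodgeTheory ops} {X Y Z : 𝒱.Obj} {ι : Type} [Fintype ι] [DecidableEq ι]

variable (X) in
/-- The neutral Hodge classes on `X ^ (n + 1)` belong to the class `Q`. -/
def Cov (Q : ClassPred T.W) (n : ℕ) : Prop :=
  ∀ (j : ℕ) (c : T.W.H (pw X n)), AH.IsHodge T (pw X n) j c → Neutral T X n c → Q.P (pw X n) j c

lemma cov_iff (hpos : ∀ (Y : 𝒱.Obj) (p q : ℤ), p < 0 ∨ q < 0 → T.pq Y p q = ⊥)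
    {Q : ClassPred T.W} {n : ℕ} : Cov X Q n ↔ neu T X n ≤ Q.sp (pw X n) := by
  constructor
  · intro h c hc
    have h1 : (∑ i ∈ Finset.range (2 * (pw X n).dim + 1),
        H914.proj (T.W.isInternal (pw X n)) i) c = c := by
      rw [sum_proj (T.W.isInternal (pw X n)) (fun i hi => T.W.gr_eq_bot _ i (by omega))]
      rfl
    rw [← h1, LinearMap.sum_apply]
    refine Submodule.sum_mem _ fun i _ => ?_
    rcases Nat.even_or_odd' i with ⟨j, hj | hj⟩
    · rw [hj]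
      have h2 := neu_proj hpos hc j
      exact ClassPred.sp_of (h j _ h2.1 h2.2)
    · have h2 : H914.proj (T.W.isInternal (pw X n)) i c = 0 := by
        refine ClassPred.sp_ind (Q := AH.hodgePred T)
          (q := fun c => H914.proj (T.W.isInternal (pw X n)) i c = 0) ?_ ?_ ?_ hc.1
        · intro l x hx
          exact proj_ne _ ((AH.hodgePred T).gr hx) (by omega)
        · exact map_zero _
        · intro a b ha hb
          rw [map_add, ha, hb, add_zero]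
      rw [h2]
      exact Submodule.zero_mem _
  · intro h j c hc hn
    have h1 := ClassPred.sp_proj (h ⟨ClassPred.sp_of (Q := AH.hodgePred T) hc, hn⟩) j
    rwa [proj_same _ hc.1] at h1

/-- Dimensions of the cohomology of the powers. -/
lemma finrank_pw {W : WeilCohomology.{u, 0} ops} (n : ℕ) :
    finrank W.K (W.H (pw X n)) = (finrank W.K (W.H X)) ^ (n + 1) := by
  classical
  obtain ⟨κ, hκ, ⟨B⟩⟩ := exists_hbasis W X
  obtain ⟨b, hb⟩ := exists_monBasis B n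
  have := Fintype.ofFinite κ
  rw [Module.finrank_eq_card_basis b, Module.finrank_eq_card_basis B.b, Fintype.card_fun,
    Fintype.card_fin]

/-- Smaller powers. -/
lemma section_exists {m M : ℕ} (h : m ≤ M) : ∃ (r : Fin (m + 1) → Fin (M + 1))
    (g : Fin (M + 1) → Fin (m + 1)), g ∘ r = id ∧
      (m = M → HEq r (id : Fin (m + 1) → Fin (m + 1))) := by
  refine ⟨Fin.castLE (by omega), fun i => if h : i.1 < m + 1 then ⟨i.1, h⟩ else 0, ?_, ?_⟩
  · funext i
    exact (dif_pos i.2).trans (Fin.ext rfl)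
  · rintro rfl
    rfl

lemma pred_pull (Q : ClassPred T.W) {m M : ℕ} {r : Fin (m + 1) → Fin (M + 1)}
    {g : Fin (M + 1) → Fin (m + 1)} (h : g ∘ r = id) {j : ℕ} {c : T.W.H (pw X m)}
    (hc : Q.P (pw X M) j (T.W.map (R940.proj X r) c)) : Q.P (pw X m) j c := by
  have h1 := Q.map (R940.proj X g) hc
  have h2 : T.W.map (R940.proj X g) (T.W.map (R940.proj X r) c) = c := by
    rw [← T.W.map_comp, proj_comp, h, projId, T.W.map_id]
  rwa [h2] at h1

section data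

variable (hpos : ∀ (Y : 𝒱.Obj) (p q : ℤ), p < 0 ∨ q < 0 → T.pq Y p q = ⊥)
  {ψ : LinearMap.BilinForm T.W.K (T.W.H X)} (hψ : IsPol ψ) (B : HBasis (baseW T.W ℂ) X ι)
  (hB : ∀ i j, hf ψ (B.b i) (B.b j) = if i = j then 1 else 0)
  {v0 : (Fin 1 → ι) → ℂ} (hv0 : v0 ≠ 0) (hv : Phi B 0 v0 = 1)

include hpos hψ hB hv0 hv in
lemma pull_exists {m M : ℕ} (h : m ≤ M) : ∃ (r : Fin (m + 1) → Fin (M + 1))
    (g : Fin (M + 1) → Fin (m + 1)), g ∘ r = id ∧
      ∀ c ∈ neu T X m, T.W.map (R940.proj X r) c ∈ neu T X M := by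
  rcases h.eq_or_lt with rfl | h
  · refine ⟨id, id, rfl, fun c hc => ?_⟩
    rw [projId, T.W.map_id]
    exact hc
  · obtain ⟨l, rfl⟩ : ∃ l, M = m + 1 + l := ⟨M - (m + 1), by omega⟩
    refine ⟨(Fin.castAdd (l + 1) : Fin (m + 1) → Fin (m + 1 + l + 1)),
      fun i => if h : i.1 < m + 1 then ⟨i.1, h⟩ else 0, ?_,
      fun c hc => neu_pull hpos hψ B hB hv0 hv m l hc⟩
    funext i
    exact (dif_pos i.2).trans (Fin.ext rfl)

include hpos hψ hB hv0 hv in
lemma cov_le (Q : ClassPred T.W) {m M : ℕ} (h : m ≤ M) (hM : Cov X Q M) : Cov X Q m := by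
  obtain ⟨r, g, hrg, hr⟩ := pull_exists hpos hψ B hB hv0 hv h
  intro j c hc hn
  refine pred_pull Q hrg (hM j _ (hc.map _) ?_)
  exact (hr c ⟨ClassPred.sp_of (Q := AH.hodgePred T) hc, hn⟩).2

/-- The description of the system of tensors of `Q`. -/
def IsTS (Q : ClassPred T.W) (TS : TSys ι) : Prop :=
  TS.HasForm ∧
      (∀ (κ : Type) [Fintype κ] [DecidableEq κ], TS.A κ ≤ (mkGD hpos hψ B hB hv0 hv).TI.A κ) ∧
      ∀ (n : ℕ) (v : (Fin (n + 1) → ι) → ℂ), v ∈ TS.A (Fin (n + 1)) ↔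
        Phi B n v ∈ SG ℂ (Q.sp (pw X n) ⊓ neu T X n)

variable {hpos hψ B hB hv0 hv}

lemma ts_iff {Q : ClassPred T.W} {TS : TSys ι} (hTS : IsTS hpos hψ B hB hv0 hv Q TS) (n : ℕ) :
    (mkGD hpos hψ B hB hv0 hv).TI.A (Fin (n + 1)) ≤ TS.A (Fin (n + 1)) ↔ Cov X Q n := by
  rw [cov_iff hpos]
  constructor
  · intro h c hc
    obtain ⟨v, hv1⟩ := (Phi_bijective B n).2 (AH.em T.W ℂ c)
    have h1 := (phi_neu hpos hψ B hB hv0 hv n v).2
      ((congrArg (· ∈ SG ℂ (neu T X n)) hv1).mpr (em_SG hc))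
    have h2 := (hTS.2.2 n v).1 (h h1)
    have h3 := (congrArg (· ∈ SG ℂ (Q.sp (pw X n) ⊓ neu T X n)) hv1).mp h2
    exact (mem_of_SG (T := T) (L := ℂ) h3).1
  · intro h v hv1
    rw [hTS.2.2]
    exact SG_mono (le_inf h le_rfl) ((phi_neu hpos hψ B hB hv0 hv n v).1 hv1)

lemma le_of_cov {Q : ClassPred T.W} {TS : TSys ι} (hTS : IsTS hpos hψ B hB hv0 hv Q TS) {N : ℕ}
    (h : Cov X Q (N - 1)) (n : ℕ) (hn : n ≤ N) :
    (mkGD hpos hψ B hB hv0 hv).TI.A (Fin n) ≤ TS.A (Fin n) := by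
  rcases Nat.eq_zero_or_pos n with rfl | hn0
  · intro v _
    exact TS.empty v
  · obtain ⟨m, rfl⟩ := Nat.exists_eq_succ_of_ne_zero hn0.ne'
    exact (ts_iff hTS m).2 (cov_le hpos hψ B hB hv0 hv Q (by omega) h)

lemma tsys_le {S S' : TSys ι} (h : ∀ n, S.A (Fin (n + 1)) ≤ S'.A (Fin (n + 1))) (κ : Type)
    [Fintype κ] [DecidableEq κ] : S.A κ ≤ S'.A κ := by
  intro v hv
  rcases isEmpty_or_nonempty κ with he | hne
  · exact S'.empty v
  · obtain ⟨m, ⟨e⟩⟩ : ∃ m, Nonempty (κ ≃ Fin (m + 1)) := by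
      have h1 : 0 < Fintype.card κ := Fintype.card_pos
      obtain ⟨m, hm⟩ := Nat.exists_eq_succ_of_ne_zero h1.ne'
      exact ⟨m, ⟨Fintype.equivFinOfCardEq hm⟩⟩
    have h1 := S'.relabel e.symm (h m (S.relabel e hv))
    have h2 : (fun w : κ → ι => v ((w ∘ e.symm) ∘ e)) = v := by
      funext w
      congr 1
      funext i
      simp
    exact (congrArg (· ∈ S'.A κ) h2).mp h1

variable (hpos hψ B hB hv0 hv)

lemma two_le_pbound (hb : 1 ≤ Fintype.card ι) : 18 ≤ pbound (Fintype.card ι) := by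
  rw [pbound]
  have h1 : 1 ≤ Fintype.card ι ^ 3 := Nat.one_le_pow _ _ hb
  have h2 : 3 ≤ Nat.log 2 (Fintype.card ι) + 3 := by omega
  calc 18 = 6 * 1 * 3 := by norm_num
    _ ≤ 6 * Fintype.card ι ^ 3 * (Nat.log 2 (Fintype.card ι) + 3) := by gcongr

include hpos hψ hB hv0 hv in
/-- **One power suffices.** -/
theorem cov_all (Q : ClassPred T.W)
    (hQ : ∀ (Y : 𝒱.Obj) (j : ℕ) (c : T.W.H Y), Q.P Y j c → AH.IsHodge T Y j c)
    (h : Cov X Q (pbound (Fintype.card ι) - 1)) (n : ℕ) : Cov X Q n := by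
  have hb := (mkGD hpos hψ B hB hv0 hv).cardB
  have hp := two_le_pbound (ι := ι) hb
  obtain ⟨TS, hTS⟩ := exists_TS hpos hψ B hB hv0 hv Q hQ
    ((cov_iff hpos).1 (cov_le hpos hψ B hB hv0 hv Q (by omega) h))
  refine (ts_iff (hv := hv) hTS n).1 ?_
  exact dat_machine (mkGD hpos hψ B hB hv0 hv) hTS.1 hTS.2.1
    (fun n hn => le_of_cov hTS h n hn) (Fin (n + 1))

/-- The tensors given by a subspace of the cohomology. -/
lemma finrank_comap {n : ℕ} {A : Submodule ℂ ((Fin (n + 1) → ι) → ℂ)}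
    {G : Submodule T.W.K (T.W.H (pw X n))} (h : ∀ v, v ∈ A ↔ Phi B n v ∈ SG ℂ G) :
    finrank ℂ A = finrank T.W.K G := by
  let e : ((Fin (n + 1) → ι) → ℂ) ≃ₗ[ℂ] (ℂ ⊗[T.W.K] T.W.H (pw X n)) :=
    LinearEquiv.ofBijective (Phi B n) (Phi_bijective B n)
  have h1 : A = (G.baseChange ℂ).comap e.toLinearMap := by
    ext v
    exact h v
  have h2 : finrank ℂ A = finrank ℂ (G.baseChange ℂ) := by
    rw [h1]
    have h3 : (G.baseChange ℂ).comap e.toLinearMap = (G.baseChange ℂ).map e.symm.toLinearMap := by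
      ext v
      rw [Submodule.mem_comap, Submodule.mem_map]
      constructor
      · intro hv
        exact ⟨e v, hv, e.symm_apply_apply v⟩
      · rintro ⟨y, hy, rfl⟩
        have h4 : e.toLinearMap (e.symm.toLinearMap y) = y := e.apply_symm_apply y
        rw [h4]
        exact hy
    rw [h3]
    exact LinearEquiv.finrank_map_eq e.symm _
  rw [h2]
  exact Pool.Agent.Y129.finrank_baseChange ℂ G

include hpos hψ hB hv0 hv in
/-- **The dimensions.** -/
theorem cov_dim (Q : ClassPred T.W)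
    (hQ : ∀ (Y : 𝒱.Obj) (j : ℕ) (c : T.W.H Y), Q.P Y j c → AH.IsHodge T Y j c)
    (h : Cov X Q 3) (n : ℕ) (hn : Even (n + 1)) :
    finrank T.W.K (neu T X n) ≤ (4 * Fintype.card ι) ^ (2 * Fintype.card ι ^ 2) *
      finrank T.W.K (Q.sp (pw X n) ⊓ neu T X n : Submodule T.W.K (T.W.H (pw X n))) := by
  obtain ⟨TS, hTS⟩ := exists_TS hpos hψ B hB hv0 hv Q hQ
    ((cov_iff hpos).1 (cov_le hpos hψ B hB hv0 hv Q (by omega) h))
  have hle := le_of_cov (N := 4) hTS h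
  obtain ⟨h0, h1⟩ := dat_idx (mkGD hpos hψ B hB hv0 hv) hTS.1 hTS.2.1 (fun n hn => hle n hn)
  have h2 := dat_dim (mkGD hpos hψ B hB hv0 hv) hTS.1 hTS.2.1 h0 (hle 2 (by norm_num))
    (Fin (n + 1)) (by rwa [Fintype.card_fin])
  rw [finrank_comap B (fun v => phi_neu hpos hψ B hB hv0 hv n v),
    finrank_comap B (hTS.2.2 n)] at h2
  exact h2.trans (Nat.mul_le_mul_right _ h1)

end data

end Pool.Agent.H842.PP
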