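import Pool.Agent.H842.PP.GExt

/-!
# Neutral classes
-/

set_option linter.unusedSectionVars false
set_option linter.unusedVariables false

open CategoryTheory AlgebraicGeometry CategoryTheory.Limits TensorProduct Matrix

universe u v

namespace Pool.Agent.H842.PP

open Pool.Agent.H914 Pool.Agent.H447 Pool.Agent.W534 Pool.Agent.Y163 VarClass Obj WeilCohomology
  Module
open Pool.Agent.Y121 Pool.Agent.R940 Pool.Agent.R914.UN
open Pool.Agent.Y133.Half (Sys PH Ev Adj ClassPred)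

variable {k : Type u} [Field k] {𝒱 : VarClass k} {ops : CycleOps 𝒱}

section gen

variable {W : WeilCohomology.{u, 0} ops} {X Y : 𝒱.Obj}

lemma list_mem (Y : 𝒱.Obj) : ∀ (m : ℕ) (y : Fin m → W.H Y) (d : Fin m → ℕ),
    (∀ i, y i ∈ W.gr Y (d i)) → (List.ofFn y).prod ∈ W.gr Y (∑ i, d i)
  | 0, y, d, _ => by
    rw [List.ofFn_zero, List.prod_nil, Fin.sum_univ_zero]
    exact W.one_mem Y
  | m + 1, y, d, h => by
    rw [List.ofFn_succ, List.prod_cons, Fin.sum_univ_succ]
    exact W.mul_mem (h 0) (list_mem Y m _ _ fun i => h i.succ)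

lemma ext_mem {n : ℕ} {x : Fin (n + 1) → W.H X} {d : Fin (n + 1) → ℕ}
    (h : ∀ i, x i ∈ W.gr X (d i)) : ext W X n x ∈ W.gr (pw X n) (∑ i, d i) :=
  list_mem _ _ _ _ fun i => W.map_mem _ (h i)

/-- Derivations commute with the projectors. -/
lemma der_proj {f : W.H X →ₗ[W.K] W.H X} (hf : ∀ i, ∀ x ∈ W.gr X i, f x ∈ W.gr X i) {n : ℕ}
    {D : W.H (pw X n) →ₗ[W.K] W.H (pw X n)} (h : IsDer f n D) (m : ℕ) (x : W.H (pw X n)) :
    D (H914.proj (W.isInternal (pw X n)) m x) = H914.proj (W.isInternal (pw X n)) m (D x) := by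
  obtain ⟨ι, hι, ⟨B⟩⟩ := exists_hbasis W X
  obtain ⟨b, hb⟩ := exists_monBasis B n
  have key : D ∘ₗ H914.proj (W.isInternal (pw X n)) m =
      H914.proj (W.isInternal (pw X n)) m ∘ₗ D := by
    refine b.ext fun I => ?_
    rw [LinearMap.comp_apply, LinearMap.comp_apply, hb, mon_ext]
    have h1 : ext W X n (fun i => B.b (I i)) ∈ W.gr (pw X n) (∑ i, B.deg (I i)) :=
      ext_mem fun i => B.mem _
    have h2 : D (ext W X n fun i => B.b (I i)) ∈ W.gr (pw X n) (∑ i, B.deg (I i)) := by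
      rw [h]
      refine Submodule.sum_mem _ fun i _ => ext_mem fun j => ?_
      by_cases hj : j = i
      · subst hj
        rw [Function.update_self]
        exact hf _ _ (B.mem _)
      · rw [Function.update_of_ne hj]
        exact B.mem _
    by_cases hm : ∑ i, B.deg (I i) = m
    · subst hm
      rw [proj_same _ h1, proj_same _ h2]
    · rw [proj_ne _ h1 hm, proj_ne _ h2 hm, map_zero]
  exact LinearMap.congr_fun key x

end gen

variable {T : AH.HodgeTheory ops} {X Y Z : 𝒱.Obj}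

lemma em_proj (i : ℕ) (a : T.W.H Y) : AH.em T.W ℂ (H914.proj (T.W.isInternal Y) i a) =
    H914.proj ((baseW T.W ℂ).isInternal Y) i (AH.em T.W ℂ a) := by
  refine gr_induction (T.W.isInternal Y) (p := fun a =>
    AH.em T.W ℂ (H914.proj (T.W.isInternal Y) i a) =
      H914.proj ((baseW T.W ℂ).isInternal Y) i (AH.em T.W ℂ a)) ?_ ?_ a
  · intro j a ha
    by_cases h : j = i
    · subst h
      rw [proj_same _ ha, proj_same _ (AH.em_gr ha)]
    · rw [proj_ne _ ha h, proj_ne _ (AH.em_gr ha) h, AH.em_zero]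
  · intro a b ha hb
    rw [map_add, AH.em_add, AH.em_add, map_add, ha, hb]

lemma bc_proj (i : ℕ) : bc (H914.proj (T.W.isInternal Y) i) =
    H914.proj ((baseW T.W ℂ).isInternal Y) i :=
  bc_ext fun a => by rw [bc_em, em_proj]

/-- The degree projectors are Hodge endomorphisms. -/
lemma hend_proj (hpos : ∀ (Y : 𝒱.Obj) (p q : ℤ), p < 0 ∨ q < 0 → T.pq Y p q = ⊥) (i : ℕ) :
    HEnd T (H914.proj (T.W.isInternal X) i) := by
  intro p q x hx
  rw [bc_proj]
  by_cases h0 : p < 0 ∨ q < 0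
  · rw [hpos X p q h0] at hx
    rw [(Submodule.mem_bot _).1 hx, map_zero]
    exact Submodule.zero_mem _
  · have h1 : x ∈ (baseW T.W ℂ).gr X (p + q).toNat :=
      T.dec.le X (by rw [Int.toNat_of_nonneg (by omega)]) hx
    by_cases h : (p + q).toNat = i
    · subst h
      rw [proj_same _ h1]
      exact Submodule.subset_span ⟨0, by rwa [add_zero, add_zero]⟩
    · rw [proj_ne _ h1 h]
      exact Submodule.zero_mem _

lemma cskew_gr (hpos : ∀ (Y : 𝒱.Obj) (p q : ℤ), p < 0 ∨ q < 0 → T.pq Y p q = ⊥)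
    {f : T.W.H X →ₗ[T.W.K] T.W.H X} (hf : CSkew T f) (i : ℕ) (x : T.W.H X)
    (hx : x ∈ T.W.gr X i) : f x ∈ T.W.gr X i := by
  have h1 := hf.2.1 _ (hend_proj hpos i) x
  rw [proj_same _ hx] at h1
  rw [h1]
  exact proj_mem _ _ _

variable (T X) in
/-- The class is killed by the central skew Hodge endomorphisms. -/
def Neutral (n : ℕ) (c : T.W.H (pw X n)) : Prop :=
  ∀ f, CSkew T f → ∀ D, IsDer f n D → D c = 0

variable (T X) in
/-- The neutral Hodge classes. -/
def neu (n : ℕ) : Submodule T.W.K (T.W.H (pw X n)) where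
  carrier := {c | c ∈ (AH.hodgePred T).sp (pw X n) ∧ Neutral T X n c}
  zero_mem' := ⟨Submodule.zero_mem _, fun f _ D _ => map_zero D⟩
  add_mem' := fun {a b} ha hb => ⟨Submodule.add_mem _ ha.1 hb.1, fun f hf D hD => by
    rw [map_add, ha.2 f hf D hD, hb.2 f hf D hD, add_zero]⟩
  smul_mem' := fun c a ha => ⟨Submodule.smul_mem _ _ ha.1, fun f hf D hD => by
    rw [map_smul, ha.2 f hf D hD, smul_zero]⟩

lemma mem_neu {n : ℕ} {c : T.W.H (pw X n)} :
    c ∈ neu T X n ↔ c ∈ (AH.hodgePred T).sp (pw X n) ∧ Neutral T X n c := Iff.rfl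

/-- The components of a neutral class. -/
lemma neu_proj (hpos : ∀ (Y : 𝒱.Obj) (p q : ℤ), p < 0 ∨ q < 0 → T.pq Y p q = ⊥) {n : ℕ}
    {c : T.W.H (pw X n)} (hc : c ∈ neu T X n) (j : ℕ) :
    AH.IsHodge T (pw X n) j (H914.proj (T.W.isInternal (pw X n)) (2 * j) c) ∧
      Neutral T X n (H914.proj (T.W.isInternal (pw X n)) (2 * j) c) := by
  refine ⟨ClassPred.sp_proj (Q := AH.hodgePred T) hc.1 j, fun f hf D hD => ?_⟩
  rw [der_proj (cskew_gr hpos hf) hD, hc.2 f hf D hD, map_zero]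

variable (T X) in
/-- The classes with complex coefficients which are fixed by the group and killed by the central
skew endomorphisms. -/
def VN (n : ℕ) : Submodule (baseW T.W ℂ).K ((baseW T.W ℂ).H (pw X n)) where
  carrier := {x | (∀ (σ : ℂ ≃ₐ[T.W.K] ℂ) (z : ℂ), z ≠ 0 → gam σ z (pw X n) x = x) ∧
    ∀ f, CSkew T f → ∀ D, IsDer f n D → bc D x = 0}
  zero_mem' := ⟨fun σ z _ => map_zero _, fun f _ D _ => map_zero _⟩
  add_mem' := fun {a b} ha hb => ⟨fun σ z hz => by rw [map_add, ha.1 σ z hz, hb.1 σ z hz],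
    fun f hf D hD => by rw [map_add, ha.2 f hf D hD, hb.2 f hf D hD, add_zero]⟩
  smul_mem' := fun c a ha => ⟨fun σ z hz => by rw [map_smul, ha.1 σ z hz],
    fun f hf D hD => by rw [map_smul, ha.2 f hf D hD, smul_zero]⟩

lemma VN_iff {n : ℕ} {x : (baseW T.W ℂ).H (pw X n)} : x ∈ VN T X n ↔ x ∈ SG ℂ (neu T X n) := by
  constructor
  · intro hx
    have h1 : x ∈ SG ℂ (ratPart (VN T X n)) := by
      refine descend ?_ hx
      intro τ x hx
      refine ⟨fun σ z hz => ?_, fun f hf D hD => ?_⟩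
      · have h2 := sm_gam (σ.trans τ.symm) τ (τ.symm z) x
        rw [hx.1 _ _ (by rw [Ne, EmbeddingLike.map_eq_zero_iff]; exact hz)] at h2
        have h3 : (σ.trans τ.symm).trans τ = σ := by
          ext w
          simp
        rw [h3, AlgEquiv.apply_symm_apply] at h2
        exact h2.symm
      · rw [← sm_bc, hx.2 f hf D hD, map_zero]
    refine SG_mono ?_ h1
    intro a ha
    rw [mem_ratPart] at ha
    refine ⟨mem_of_SG (T := T) (L := ℂ) (fixed_mem ha.1), fun f hf D hD => ?_⟩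
    have h2 := ha.2 f hf D hD
    rw [bc_em] at h2
    exact AH.em_injective h2
  · intro hx
    refine SG_ind (T := T) (L := ℂ) (P := fun x => x ∈ VN T X n) (Submodule.zero_mem _)
      (fun x y => Submodule.add_mem _) (fun c x => Submodule.smul_mem _ c) ?_ hx
    intro a ha
    refine ⟨fun σ z _ => gam_em ha.1 σ z, fun f hf D hD => ?_⟩
    rw [bc_em, ha.2 f hf D hD, AH.em_zero]

variable {ι : Type} [Fintype ι] [DecidableEq ι]

variable (hpos : ∀ (Y : 𝒱.Obj) (p q : ℤ), p < 0 ∨ q < 0 → T.pq Y p q = ⊥)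
  {ψ : LinearMap.BilinForm T.W.K (T.W.H X)} (hψ : IsPol ψ) (B : HBasis (baseW T.W ℂ) X ι)
  (hB : ∀ i j, hf ψ (B.b i) (B.b j) = if i = j then 1 else 0)
  {v0 : (Fin 1 → ι) → ℂ} (hv0 : v0 ≠ 0) (hv : Phi B 0 v0 = 1)

/-- **The neutral tensors.** -/
theorem phi_neu (n : ℕ) (v : (Fin (n + 1) → ι) → ℂ) :
    v ∈ (mkGD hpos hψ B hB hv0 hv).TI.A (Fin (n + 1)) ↔ Phi B n v ∈ SG ℂ (neu T X n) := by
  rw [GD.mem_TI, ← VN_iff]
  refine and_congr (fix_iff hpos B n v) ?_
  constructor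
  · intro h f hf D hD
    have h1 := h (mt B (bc f)) ((mem_CZ_iff B hpos _).1 (cskew_iff.1 hf))
    refine (Phi_der B (isDer_bc hD) v).trans ?_
    exact (congrArg (Phi B n) h1).trans (map_zero _)
  · intro h Z hZ
    refine zz_ind B hpos (p := fun Z => der (Fin (n + 1)) Z *ᵥ v = 0) ?_ ?_ ?_ ?_ hZ
    · rw [der_zero, Matrix.zero_mulVec]
    · intro M N hM hN
      rw [der_add, Matrix.add_mulVec, hM, hN, add_zero]
    · intro c M hM
      rw [der_smul, Matrix.smul_mulVec, hM, smul_zero]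
    · intro f hf
      obtain ⟨D, hD⟩ := exists_der (W := T.W) f n
      have h1 := h f hf D hD
      have h2 := (Phi_der B (isDer_bc hD) v).symm.trans h1
      exact (Phi_bijective B n).1 (h2.trans (map_zero (Phi B n)).symm)

end Pool.Agent.H842.PP
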