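import Pool.Agent.H842.PP.GNeu

/-!
# Classes of Hodge classes and systems of neutral tensors
-/

set_option linter.unusedSectionVars false
set_option linter.unusedVariables false

open CategoryTheory AlgebraicGeometry CategoryTheory.Limits TensorProduct Matrix

universe u v

namespace Pool.Agent.H842.PP

open Pool.Agent.H914 Pool.Agent.H447 Pool.Agent.W534 Pool.Agent.Y163 VarClass Obj WeilCohomology
  Module
open Pool.Agent.Y121 Pool.Agent.R940 Pool.Agent.R914.UN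
open Pool.Agent.Y133.Half (Sys PH Ev Adj ClassPred)

variable {k : Type u} [Field k] {𝒱 : VarClass k} {ops : CycleOps 𝒱}

variable {T : AH.HodgeTheory ops} {X Y Z : 𝒱.Obj} {ι : Type} [Fintype ι] [DecidableEq ι]

/-! ### The class 1 and pull-backs -/

section one
variable (hpos : ∀ (Y : 𝒱.Obj) (p q : ℤ), p < 0 ∨ q < 0 → T.pq Y p q = ⊥)
include hpos

lemma tr_em (c : T.W.H X) : (baseW T.W ℂ).tr X (AH.em T.W ℂ c) =
    (show (baseW T.W ℂ).K from algebraMap T.W.K ℂ (T.W.tr X c)) := by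
  have h5 : formBase ℂ (T.W.tr X) ((1 : ℂ) ⊗ₜ[T.W.K] c) =
    1 * algebraMap T.W.K ℂ (T.W.tr X c) := formBase_tmul _ _ _
  rw [one_mul] at h5
  exact h5

/-- The endomorphism `y ↦ tr(y) 1`. -/
lemma hend_tr : HEnd T (LinearMap.smulRight (T.W.tr X) (1 : T.W.H X)) := by
  have h1 : bc (LinearMap.smulRight (T.W.tr X) (1 : T.W.H X)) =
      LinearMap.smulRight ((baseW T.W ℂ).tr X) (1 : (baseW T.W ℂ).H X) := by
    refine bc_ext fun a => ?_
    rw [bc_em, LinearMap.smulRight_apply, LinearMap.smulRight_apply, AH.em_smul, tr_em hpos]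
    rfl
  refine hend_iff.2 fun σ z hz x => ?_
  rw [h1, LinearMap.smulRight_apply, LinearMap.smulRight_apply, gam_tr σ hpos, map_smul,
    gam_one σ z]

/-- Central skew endomorphisms kill 1. -/
lemma cskew_one {f : T.W.H X →ₗ[T.W.K] T.W.H X} (hf : CSkew T f) : f 1 = 0 := by
  by_cases h1 : (1 : T.W.H X) = 0
  · rw [h1, map_zero]
  · obtain ⟨y, hy⟩ : ∃ y, T.W.tr X y ≠ 0 := by
      by_contra hcon
      push Not at hcon
      exact h1 (T.W.nondeg 1 fun b => by rw [one_mul]; exact hcon b)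
    have h2 := hf.2.1 _ (hend_tr hpos) y
    rw [LinearMap.smulRight_apply, LinearMap.smulRight_apply, map_smul] at h2
    have h3 := hf.2.2 1 y
    rw [one_mul] at h3
    have h4 : T.W.tr X y • T.W.tr X (f 1 * y) = T.W.tr X (f y) • T.W.tr X y := by
      have h5 := congrArg (fun a => T.W.tr X (a * y)) h2
      simp only [smul_mul_assoc, one_mul, map_smul] at h5
      exact h5
    rw [h3, smul_eq_mul, smul_eq_mul] at h4
    have h5 : T.W.tr X y * T.W.tr X (f y) = 0 := by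
      have h6 : T.W.tr X y * T.W.tr X (f y) + T.W.tr X y * T.W.tr X (f y) = 0 := by
        linear_combination (-1 : T.W.K) * h4
      have h7 : (2 : T.W.K) ≠ 0 := two_ne_zero
      have h8 : (2 : T.W.K) * (T.W.tr X y * T.W.tr X (f y)) = 0 := by
        rw [two_mul]; exact h6
      exact (mul_eq_zero.1 h8).resolve_left h7
    have h6 : T.W.tr X (f y) = 0 := (mul_eq_zero.1 h5).resolve_left hy
    rw [h6, zero_smul] at h2
    exact (smul_eq_zero.1 h2).resolve_left hy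

lemma one_neu (n : ℕ) : (1 : T.W.H (pw X n)) ∈ neu T X n := by
  refine ⟨?_, fun f hf D hD => ?_⟩
  · have h1 : T.W.cl (pw X n) (pw X n).V.fundCycle ∈ (AH.hodgePred T).sp (pw X n) :=
      ClassPred.sp_of ((AH.hodgePred T).cl (SmVar.fundCycle_mem _))
    rwa [T.W.cl_fund] at h1
  · have h1 : (1 : T.W.H (pw X n)) = ext T.W X n fun _ => 1 := by
      rw [ext]
      have h2 : (fun i : Fin (n + 1) => T.W.map (pr X n i) (1 : T.W.H X)) = fun _ => 1 :=
        funext fun i => map_one _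
      rw [h2, List.ofFn_const, List.prod_replicate, one_pow]
    rw [h1, hD]
    refine Finset.sum_eq_zero fun i _ => ?_
    rw [cskew_one hpos hf, ← extML_apply]
    exact (extML T.W X n).map_coord_zero i (Function.update_self _ _ _)

end one

/-- External products in coordinates. -/
theorem Phi_mul' {W : WeilCohomology.{u, 0} ops} (B : HBasis W X ι) (n m : ℕ)
    (v : (Fin (n + 1) → ι) → W.K) (u : (Fin (m + 1) → ι) → W.K)
    (f : pw X (n + 1 + m) ⟶ pw X n) (g : pw X (n + 1 + m) ⟶ pw X m)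
    (hf : f = tup n (fun i => pr X (n + 1 + m) (Fin.castAdd (m + 1) i)))
    (hg : g = tup m (fun j => pr X (n + 1 + m) (Fin.natAdd (n + 1) j))) :
    W.map f (Phi B n v) * W.map g (Phi B m u) =
        Phi B (n + 1 + m) (fun w =>
        v (fun i => w (Fin.castAdd (m + 1) i)) * u (fun j => w (Fin.natAdd (n + 1) j))) := by
  have hmon : ∀ w : Fin (n + 1 + m + 1) → ι,
      W.map f (mon B n (fun i => w (Fin.castAdd (m + 1) i))) *
        W.map g (mon B m (fun j => w (Fin.natAdd (n + 1) j))) = mon B (n + 1 + m) w := by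
    intro w
    have h1 : W.map f (mon B n (fun i => w (Fin.castAdd (m + 1) i))) =
        (List.ofFn fun i : Fin (n + 1) => W.map (pr X (n + 1 + m) (Fin.castAdd (m + 1) i))
          (B.b (w (Fin.castAdd (m + 1) i)))).prod := by
      rw [mon_eq, map_list_prod, List.map_ofFn]
      congr 2
      funext i
      rw [Function.comp_apply, ← W.map_comp, hf, tup_pr]
    have h2 : W.map g (mon B m (fun j => w (Fin.natAdd (n + 1) j))) =
        (List.ofFn fun j : Fin (m + 1) => W.map (pr X (n + 1 + m) (Fin.natAdd (n + 1) j))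
          (B.b (w (Fin.natAdd (n + 1) j)))).prod := by
      rw [mon_eq, map_list_prod, List.map_ofFn]
      congr 2
      funext i
      rw [Function.comp_apply, ← W.map_comp, hg, tup_pr]
    rw [h1, h2, ← List.prod_append, mon_eq]
    congr 1
    exact (List.ofFn_add (f := fun i : Fin ((n + 1) + (m + 1)) =>
      W.map (pr X (n + 1 + m) i) (B.b (w i)))).symm
  rw [Phi_apply, Phi_apply, Phi_apply, map_sum, map_sum, Finset.sum_mul_sum,
    ← Fintype.sum_prod_type']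
  refine Fintype.sum_equiv (Fin.appendEquiv (n + 1) (m + 1)) _ _ ?_
  rintro ⟨I, J⟩
  have e1 : ∀ i, Fin.append I J (Fin.castAdd (m + 1) i) = I i := fun i => Fin.append_left I J i
  have e2 : ∀ j, Fin.append I J (Fin.natAdd (n + 1) j) = J j := fun j => Fin.append_right I J j
  have h3 := hmon (Fin.append I J : Fin ((n + 1) + (m + 1)) → ι)
  have e3 : (fun i => Fin.append I J (Fin.castAdd (m + 1) i)) = I := funext e1
  have e4 : (fun j => Fin.append I J (Fin.natAdd (n + 1) j)) = J := funext e2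
  rw [e3, e4] at h3
  have e5 : (Fin.appendEquiv (n + 1) (m + 1)) (I, J) = Fin.append I J := rfl
  simp only [map_smul]
  rw [smul_mul_smul_comm, h3, e5]
  congr 2
  · rw [e3]
  · rw [e4]

variable (hpos : ∀ (Y : 𝒱.Obj) (p q : ℤ), p < 0 ∨ q < 0 → T.pq Y p q = ⊥)
  {ψ : LinearMap.BilinForm T.W.K (T.W.H X)} (hψ : IsPol ψ) (B : HBasis (baseW T.W ℂ) X ι)
  (hB : ∀ i j, hf ψ (B.b i) (B.b j) = if i = j then 1 else 0)
  {v0 : (Fin 1 → ι) → ℂ} (hv0 : v0 ≠ 0) (hv : Phi B 0 v0 = 1)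

include hpos hψ hB hv0 hv in
/-- Pull-backs of neutral classes to larger powers. -/
lemma neu_pull (n m : ℕ) {c : T.W.H (pw X n)} (hc : c ∈ neu T X n) :
    T.W.map (R940.proj X (Fin.castAdd (m + 1) : Fin (n + 1) → Fin (n + 1 + m + 1))) c ∈
      neu T X (n + 1 + m) := by
  obtain ⟨v, hv1⟩ := (Phi_bijective B n).2 (AH.em T.W ℂ c)
  obtain ⟨u, hu1⟩ := (Phi_bijective B m).2 (1 : (baseW T.W ℂ).H (pw X m))
  have h1 := (phi_neu hpos hψ B hB hv0 hv n v).2
    ((congrArg (· ∈ SG ℂ (neu T X n)) hv1).mpr (em_SG hc))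
  have h2 := (phi_neu hpos hψ B hB hv0 hv m u).2
    ((congrArg (· ∈ SG ℂ (neu T X m)) hu1).mpr (em_SG (one_neu hpos m)))
  have h3 := (mkGD hpos hψ B hB hv0 hv).TI.relabel finSumFinEquiv
    ((mkGD hpos hψ B hB hv0 hv).TI.mul h1 h2)
  have h4 := (phi_neu hpos hψ B hB hv0 hv (n + 1 + m) _).1 h3
  have h5 := Phi_mul' B n m v u
    (R940.proj X (Fin.castAdd (m + 1) : Fin (n + 1) → Fin (n + 1 + m + 1)))
    (R940.proj X (Fin.natAdd (n + 1) : Fin (m + 1) → Fin (n + 1 + m + 1)))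
    (proj_eq _) (proj_eq _)
  have h6 : (baseW T.W ℂ).map
      (R940.proj X (Fin.natAdd (n + 1) : Fin (m + 1) → Fin (n + 1 + m + 1)))
      (1 : (baseW T.W ℂ).H (pw X m)) = 1 := map_one _
  have h7 : Phi B (n + 1 + m) (fun w => v (fun i => w (Fin.castAdd (m + 1) i)) *
      u (fun j => w (Fin.natAdd (n + 1) j))) = AH.em T.W ℂ (T.W.map
        (R940.proj X (Fin.castAdd (m + 1) : Fin (n + 1) → Fin (n + 1 + m + 1))) c) := by
    rw [← AH.em_map, ← hv1, ← h5, hu1, h6, mul_one]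
  refine mem_of_SG (T := T) (L := ℂ) ?_
  rw [← h7]
  exact h4

/-! ### Systems -/

lemma SG_inf {G G' : Submodule T.W.K (T.W.H Y)} {x : (baseW T.W ℂ).H Y}
    (hx : x ∈ SG ℂ G) (hx' : x ∈ SG ℂ G') : x ∈ SG ℂ (G ⊓ G') := by
  have h1 : x ∈ SG ℂ (ratPart (SG ℂ G ⊓ SG ℂ G')) :=
    descend (V := SG ℂ G ⊓ SG ℂ G') (fun τ x hx => ⟨sm_SG τ hx.1, sm_SG τ hx.2⟩) ⟨hx, hx'⟩
  refine SG_mono (fun a ha => ?_) h1
  have h2 := mem_ratPart.1 ha
  exact ⟨mem_of_SG (T := T) (L := ℂ) h2.1, mem_of_SG (T := T) (L := ℂ) h2.2⟩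

/-- **The system of neutral tensors of a class of Hodge classes.** -/
theorem exists_TS (Q : ClassPred T.W)
    (hQ : ∀ (Y : 𝒱.Obj) (j : ℕ) (c : T.W.H Y), Q.P Y j c → AH.IsHodge T Y j c)
    (h2 : neu T X 1 ≤ Q.sp (pw X 1)) :
    ∃ TS : TSys ι, TS.HasForm ∧
      (∀ (κ : Type) [Fintype κ] [DecidableEq κ], TS.A κ ≤ (mkGD hpos hψ B hB hv0 hv).TI.A κ) ∧
      ∀ (n : ℕ) (v : (Fin (n + 1) → ι) → ℂ), v ∈ TS.A (Fin (n + 1)) ↔
        Phi B n v ∈ SG ℂ (Q.sp (pw X n) ⊓ neu T X n) := by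
  have hQs : ∀ Y : 𝒱.Obj, Q.sp Y ≤ (AH.hodgePred T).sp Y := fun Y =>
    Submodule.span_mono fun c ⟨j, hj⟩ => ⟨j, hQ Y j c hj⟩
  have hsys : ∀ (Y : 𝒱.Obj) (x : (baseW T.W ℂ).H Y), x ∈ (Q.sys.base ℂ).C Y ↔
      x ∈ SG ℂ (Q.sp Y) := fun Y x => Iff.rfl
  have hTI2 : ∀ v : (Fin 2 → ι) → ℂ, v ∈ (mkGD hpos hψ B hB hv0 hv).TI.A (Fin 2) →
      Phi B 1 v ∈ SG ℂ (Q.sp (pw X 1)) := fun v hv' =>
    SG_mono h2 ((phi_neu hpos hψ B hB hv0 hv 1 v).1 hv')
  obtain ⟨P, hPJ, hPK, hPA, hPfix⟩ := exists_ps hpos B (Q.sys.base ℂ)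
    (fun Y x hx σ z hz => gam_SG (SG_mono (hQs Y) hx) σ z)
    (fun Y x hx => sm_SG (cK T) hx)
    (fun x hx => by
      obtain ⟨v, rfl⟩ := (Phi_bijective B 1).2 x
      refine hTI2 v ((mkGD hpos hψ B hB hv0 hv).two_mem ?_)
      exact (fix_iff hpos B 1 v).2 hx)
  obtain ⟨TS, hform, hTS⟩ := exists_neutral (mkGD hpos hψ B hB hv0 hv) P hPJ hPK
    (fun κ _ _ v hv' g hg => hPfix κ v hv' g hg)
    (fun v hv' => (hPA 1 v).2 (hTI2 v hv'))
  refine ⟨TS, hform, fun κ _ _ => ?_, fun n v => ?_⟩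
  · rw [hTS]
    exact inf_le_right
  · rw [hTS]
    constructor
    · rintro ⟨h3, h4⟩
      exact SG_inf ((hPA n v).1 h3) ((phi_neu hpos hψ B hB hv0 hv n v).1 h4)
    · intro h3
      exact ⟨(hPA n v).2 (SG_mono inf_le_left h3),
        (phi_neu hpos hψ B hB hv0 hv n v).2 (SG_mono inf_le_right h3)⟩

end Pool.Agent.H842.PP
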