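import Pool.Agent.H842.PP.Loc

/-!
# Dimensions of spaces of invariants of compact groups
-/

set_option linter.unusedSectionVars false

namespace Pool.Agent.H842.PP
open Matrix MeasureTheory
open Pool.Agent.R914.UN

variable {B : Type} [Fintype B] [DecidableEq B]

theorem trace_tp (ι : Type) [Fintype ι] [DecidableEq ι] (g : Matrix B B ℂ) :
    (tp ι g).trace = g.trace ^ Fintype.card ι := by
  rw [Matrix.trace, Matrix.trace, ← Finset.card_univ, ← Finset.prod_const, Finset.prod_univ_sum,
    Fintype.piFinset_univ]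
  rfl

section haar
variable {K : Type} [Group K] [TopologicalSpace K] [CompactSpace K] [MeasurableSpace K]
  [BorelSpace K] [IsTopologicalGroup K] {μ : Measure K} [IsProbabilityMeasure μ]
  {ρ : K →* Matrix B B ℂ}

theorem cont_entry (hρ : Continuous ρ) (i j : B) : Continuous fun k => ρ k i j :=
  (continuous_apply_apply i j).comp hρ

theorem cont_tp (hρ : Continuous ρ) {ι : Type} [Fintype ι] [DecidableEq ι] (I J : ι → B) :
    Continuous fun k => tp ι (ρ k) I J := by
  simp only [tp_apply]
  exact continuous_finsetProd _ fun i _ => cont_entry hρ _ _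

theorem integ {E : Type} [NormedAddCommGroup E] {f : K → E} (hf : Continuous f) :
    Integrable f μ :=
  hf.integrable_of_hasCompactSupport (HasCompactSupport.of_compactSpace f)

variable [μ.IsMulLeftInvariant]

/-- **The dimension of the space of invariants.** -/
theorem dim_formula (hρ : Continuous ρ) {ι : Type} [Fintype ι] [DecidableEq ι]
    (U : Submodule ℂ ((ι → B) → ℂ))
    (hU : ∀ v, v ∈ U ↔ ∀ k, tp ι (ρ k) *ᵥ v = v) {u : Matrix B B ℂ}
    (hu : ∀ v ∈ U, tp ι u *ᵥ v = v) :
    (Module.finrank ℂ U : ℂ) = ∫ k, (u * ρ k).trace ^ Fintype.card ι ∂μ := by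
  set P : Matrix (ι → B) (ι → B) ℂ := Matrix.of fun I J => ∫ k, tp ι (ρ k) I J ∂μ with hP
  have hPa : ∀ I J, P I J = ∫ k, tp ι (ρ k) I J ∂μ := fun I J => rfl
  -- multiplication by a matrix
  have hmul : ∀ (M : Matrix (ι → B) (ι → B) ℂ) I J, (M * P) I J =
      ∫ k, (M * tp ι (ρ k)) I J ∂μ := by
    intro M I J
    simp only [Matrix.mul_apply]
    rw [integral_finsetSum _ fun L _ => (integ (cont_tp hρ L J)).const_mul _]
    refine Finset.sum_congr rfl fun L _ => ?_
    rw [hPa, integral_const_mul]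
  have hinv : ∀ g : K, tp ι (ρ g) * P = P := by
    intro g
    ext I J
    rw [hmul, hPa]
    have h1 : (fun k => (tp ι (ρ g) * tp ι (ρ k)) I J) = fun k => tp ι (ρ (g * k)) I J := by
      funext k
      rw [map_mul, tp_mul]
    rw [h1, integral_mul_left_eq_self (fun k => tp ι (ρ k) I J)]
  have hPU : ∀ v, P *ᵥ v ∈ U := by
    intro v
    rw [hU]
    intro g
    rw [mulVec_mulVec, hinv]
  have hPid : ∀ v ∈ U, P *ᵥ v = v := by
    intro v hv
    funext I
    have h1 : (P *ᵥ v) I = ∫ k, (tp ι (ρ k) *ᵥ v) I ∂μ := by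
      simp only [mulVec, dotProduct]
      rw [integral_finsetSum _ fun L _ => (integ (cont_tp hρ I L)).mul_const _]
      refine Finset.sum_congr rfl fun L _ => ?_
      rw [hPa, integral_mul_const]
    rw [h1]
    have h2 : (fun k => (tp ι (ρ k) *ᵥ v) I) = fun _ => v I := by
      funext k
      rw [(hU v).1 hv k]
    rw [h2, integral_const]
    simp
  have hproj : LinearMap.IsProj U (Matrix.toLin' P) := by
    refine ⟨fun v => ?_, fun v hv => ?_⟩
    · rw [toLin'_apply]
      exact hPU v
    · rw [toLin'_apply]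
      exact hPid v hv
  have h1 := hproj.trace
  rw [Matrix.trace_toLin'_eq] at h1
  rw [← h1]
  have h2 : tp ι u * P = P := by
    rw [← sub_eq_zero]
    apply mat_eq_zero_of_mulVec
    intro v
    rw [sub_mulVec, ← mulVec_mulVec, hu _ (hPU v), sub_self]
  rw [← h2, Matrix.trace]
  simp only [diag_apply, hmul]
  rw [← integral_finsetSum]
  · refine integral_congr_ae (Filter.Eventually.of_forall fun k => ?_)
    simp only
    rw [← trace_tp, tp_mul]
    rfl
  · intro I _
    simp only [Matrix.mul_apply]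
    exact integrable_finsetSum _ fun L _ => (integ (cont_tp hρ L I)).const_mul _

/-- **The upper bound.** -/
theorem dim_le (μ : Measure K) [IsProbabilityMeasure μ] [μ.IsMulLeftInvariant]
    (hρ : Continuous ρ) {ι : Type} [Fintype ι] [DecidableEq ι]
    (U : Submodule ℂ ((ι → B) → ℂ))
    (hU : ∀ v, v ∈ U ↔ ∀ k, tp ι (ρ k) *ᵥ v = v) {u : Matrix B B ℂ}
    (hu : ∀ v ∈ U, tp ι u *ᵥ v = v) {c : ℝ} (hc : ∀ k, ‖(u * ρ k).trace‖ ≤ c) :
    (Module.finrank ℂ U : ℝ) ≤ c ^ Fintype.card ι := by
  have h1 := dim_formula (μ := μ) hρ U hU hu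
  have h2 : ‖∫ k, (u * ρ k).trace ^ Fintype.card ι ∂μ‖ ≤ c ^ Fintype.card ι * μ.real Set.univ := by
    refine norm_integral_le_of_norm_le_const (Filter.Eventually.of_forall fun k => ?_)
    rw [norm_pow]
    exact pow_le_pow_left₀ (norm_nonneg _) (hc k) _
  rw [← h1, probReal_univ, mul_one] at h2
  rwa [Complex.norm_natCast] at h2

/-- **The lower bound.** -/
theorem le_dim (μ : Measure K) [IsProbabilityMeasure μ] [μ.IsMulLeftInvariant]
    (hρ : Continuous ρ) {ι : Type} [Fintype ι] [DecidableEq ι]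
    (hι : Even (Fintype.card ι)) (U : Submodule ℂ ((ι → B) → ℂ))
    (hU : ∀ v, v ∈ U ↔ ∀ k, tp ι (ρ k) *ᵥ v = v)
    (hreal : ∀ k, (((ρ k).trace.re : ℝ) : ℂ) = (ρ k).trace) {c : ℝ} (hc : 0 ≤ c) :
    c ^ Fintype.card ι * μ.real {k | c ≤ (ρ k).trace.re} ≤ (Module.finrank ℂ U : ℝ) := by
  have h1 := dim_formula (μ := μ) hρ U hU (u := 1) fun v _ => by rw [tp_one, one_mulVec]
  simp only [one_mul] at h1
  have h2 : ∀ k, (ρ k).trace ^ Fintype.card ι = (((ρ k).trace.re ^ Fintype.card ι : ℝ) : ℂ) := by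
    intro k
    rw [Complex.ofReal_pow, hreal]
  simp only [h2] at h1
  rw [integral_complex_ofReal] at h1
  have h3 : (Module.finrank ℂ U : ℝ) = ∫ k, (ρ k).trace.re ^ Fintype.card ι ∂μ := by
    exact_mod_cast h1
  rw [h3]
  have hcont : Continuous fun k => (ρ k).trace.re ^ Fintype.card ι := by
    have : Continuous fun k => (ρ k).trace := by
      simp only [Matrix.trace, diag_apply]
      exact continuous_finsetSum _ fun i _ => cont_entry hρ i i
    exact (Complex.continuous_re.comp this).pow _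
  have h4 := mul_meas_ge_le_integral_of_nonneg (μ := μ)
    (f := fun k => (ρ k).trace.re ^ Fintype.card ι)
    (Filter.Eventually.of_forall fun k => hι.pow_nonneg _) (integ hcont) (c ^ Fintype.card ι)
  refine le_trans ?_ h4
  refine mul_le_mul_of_nonneg_left ?_ (by positivity)
  refine measureReal_mono ?_ (measure_ne_top _ _)
  intro k hk
  exact pow_le_pow_left₀ hc hk _

end haar

end Pool.Agent.H842.PP
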