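import Pool.Agent.H842.PP.Der
import Pool.Graph.R_pool_sql_team_seeded_b0a926ef.R914.UN.PMain

/-!
# The system of the invariant tensors, and its Lie algebra
-/

set_option linter.unusedSectionVars false

namespace Pool.Agent.H842.PP
open Matrix
open Pool.Agent.R914.UN

variable {B : Type} [Fintype B] [DecidableEq B]

section basics
variable {ι κ : Type} [Fintype ι] [DecidableEq ι] [Fintype κ] [DecidableEq κ]

theorem tp_elim (g : Matrix B B ℂ) (x x' : ι → B) (y y' : κ → B) :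
    tp (ι ⊕ κ) g (Sum.elim x y) (Sum.elim x' y') = tp ι g x x' * tp κ g y y' := by
  rw [tp_apply, tp_apply, tp_apply, Fintype.prod_sum_type]
  rfl

theorem tp_mulT (g : Matrix B B ℂ) (v : (ι → B) → ℂ) (u : (κ → B) → ℂ) :
    tp (ι ⊕ κ) g *ᵥ mulT v u = mulT (tp ι g *ᵥ v) (tp κ g *ᵥ u) := by
  funext w
  obtain ⟨x, y, rfl⟩ : ∃ x y, w = Sum.elim x y := ⟨w ∘ Sum.inl, w ∘ Sum.inr, by simp⟩
  rw [mulVec, dotProduct, TSys.sum_sum, mulT]
  simp only [Sum.elim_comp_inl, Sum.elim_comp_inr]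
  rw [mulVec, mulVec, dotProduct, dotProduct, Finset.sum_mul_sum]
  refine Finset.sum_congr rfl fun x' _ => Finset.sum_congr rfl fun y' _ => ?_
  rw [tp_elim, mulT]
  simp only [Sum.elim_comp_inl, Sum.elim_comp_inr]
  ring

theorem tp_conT {g : Matrix B B ℂ} {v : (ι → B) → ℂ} {u : (ι ⊕ κ → B) → ℂ}
    (hv : tp ι gᴴ *ᵥ v = v) (hu : tp (ι ⊕ κ) g *ᵥ u = u) :
    tp κ g *ᵥ conT v u = conT v u := by
  funext w
  have h1 : ∀ x, star (v x) = ∑ x', tp ι g x' x * star (v x') := by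
    intro x
    conv_lhs => rw [← hv]
    rw [mulVec, dotProduct, star_sum]
    refine Finset.sum_congr rfl fun x' _ => ?_
    rw [star_mul', tp_conjTranspose, conjTranspose_apply, star_star]
  have h2 : ∀ x', u (Sum.elim x' w) = ∑ x : ι → B, ∑ y : κ → B,
      tp ι g x' x * tp κ g w y * u (Sum.elim x y) := by
    intro x'
    conv_lhs => rw [← hu]
    rw [mulVec, dotProduct, TSys.sum_sum]
    refine Finset.sum_congr rfl fun x _ => Finset.sum_congr rfl fun y _ => ?_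
    rw [tp_elim]
  have hL : (tp κ g *ᵥ conT v u) w = ∑ y, ∑ x, ∑ x', tp κ g w y *
      (tp ι g x' x * star (v x') * u (Sum.elim x y)) := by
    rw [mulVec, dotProduct]
    refine Finset.sum_congr rfl fun y _ => ?_
    rw [conT, Finset.mul_sum]
    refine Finset.sum_congr rfl fun x _ => ?_
    rw [h1 x, Finset.sum_mul, Finset.mul_sum]
  have hR : conT v u w = ∑ x', ∑ x, ∑ y, star (v x') *
      (tp ι g x' x * tp κ g w y * u (Sum.elim x y)) := by
    rw [conT]
    refine Finset.sum_congr rfl fun x' _ => ?_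
    rw [h2 x', Finset.mul_sum]
    refine Finset.sum_congr rfl fun x _ => ?_
    rw [Finset.mul_sum]
  rw [hL, hR, Finset.sum_comm]
  refine (Finset.sum_congr rfl fun x _ => Finset.sum_comm).trans ?_
  rw [Finset.sum_comm]
  refine Finset.sum_congr rfl fun x' _ => Finset.sum_congr rfl fun x _ =>
    Finset.sum_congr rfl fun y _ => ?_
  ring

theorem tp_two (g M : Matrix B B ℂ) :
    tp (Fin 2) g *ᵥ (fun w => M (w 0) (w 1)) = fun w => (g * M * gᵀ) (w 0) (w 1) := by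
  funext w
  rw [mulVec, dotProduct, ← (finTwoArrowEquiv B).symm.sum_comp, Fintype.sum_prod_type,
    Matrix.mul_apply]
  simp only [Matrix.mul_apply, Finset.sum_mul]
  rw [Finset.sum_comm]
  refine Finset.sum_congr rfl fun b _ => Finset.sum_congr rfl fun a _ => ?_
  rw [tp_apply, Fin.prod_univ_two, transpose_apply]
  change g (w 0) a * g (w 1) b * M a b = _
  ring

theorem fun_two_inj {M N : Matrix B B ℂ}
    (h : (fun w : Fin 2 → B => M (w 0) (w 1)) = fun w => N (w 0) (w 1)) : M = N := by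
  ext i j
  exact congrFun h ![i, j]

theorem fun_sum_inj {M N : Matrix (ι → B) (κ → B) ℂ}
    (h : (fun w : ι ⊕ κ → B => M (w ∘ Sum.inl) (w ∘ Sum.inr)) =
      fun w => N (w ∘ Sum.inl) (w ∘ Sum.inr)) : M = N := by
  ext i j
  exact congrFun h (Sum.elim i j)

theorem mat_eq_zero_of_mulVec {I K : Type} [Fintype I] [DecidableEq I] [Fintype K]
    {M : Matrix K I ℂ} (h : ∀ v, M *ᵥ v = 0) : M = 0 := by
  ext i j
  have := congrFun (h (Pi.single j 1)) i
  rw [mulVec_single_one] at this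
  exact this

/-- projections commute with the matrices which preserve the subspace, together with their
adjoints -/
theorem proj_comm {I : Type} [Fintype I] [DecidableEq I] {U : Submodule ℂ (I → ℂ)}
    {P A : Matrix I I ℂ} (hP : IsProj U P) (h1 : ∀ v ∈ U, A *ᵥ v ∈ U)
    (h2 : ∀ v ∈ U, Aᴴ *ᵥ v ∈ U) : P * A = A * P := by
  have h3 : ∀ v, P *ᵥ (A *ᵥ v) = A *ᵥ (P *ᵥ v) := by
    intro v
    refine hP.unique (h1 _ (hP.mem v)) fun u hu => ?_
    have h4 := hP.orth v _ (h2 u hu)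
    rw [star_mulVec, conjTranspose_conjTranspose, ← dotProduct_mulVec, mulVec_sub] at h4
    exact h4
  rw [← sub_eq_zero]
  apply mat_eq_zero_of_mulVec
  intro v
  rw [sub_mulVec, ← mulVec_mulVec, ← mulVec_mulVec, h3, sub_self]

end basics

/-- The system of the invariant tensors of a monoid closed under conjugate transposes. -/
def invT (G : Submonoid (Matrix B B ℂ)) (hG : ∀ g ∈ G, gᴴ ∈ G) : TSys B where
  A ι _ _ :=
    { carrier := {v | ∀ g ∈ G, tp ι g *ᵥ v = v}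
      add_mem' := fun {a b} ha hb g hg => by rw [mulVec_add, ha g hg, hb g hg]
      zero_mem' := fun g _ => mulVec_zero _
      smul_mem' := fun c v hv g hg => by rw [mulVec_smul, hv g hg] }
  relabel e v hv := fun g hg => by
    rw [tp_relabel, hv g hg]
  empty {ι} _ _ _ v := fun g _ => by
    have h1 : tp ι g = 1 := by
      ext I J
      rw [tp_apply, Fintype.prod_empty, Subsingleton.elim I J, Matrix.one_apply_eq]
    rw [h1, Matrix.one_mulVec]
  mul hv hu := fun g hg => by rw [tp_mulT, hv g hg, hu g hg]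
  con hv hu := fun g hg => tp_conT (hv _ (hG g hg)) (hu g hg)

theorem mem_invT {G : Submonoid (Matrix B B ℂ)} {hG : ∀ g ∈ G, gᴴ ∈ G} {ι : Type} [Fintype ι]
    [DecidableEq ι] {v : (ι → B) → ℂ} : v ∈ (invT G hG).A ι ↔ ∀ g ∈ G, tp ι g *ᵥ v = v := Iff.rfl

/-- The Lie algebra of the matrices which kill the invariant tensors. -/
def lie (G : Submonoid (Matrix B B ℂ)) : Submodule ℂ (Matrix B B ℂ) where
  carrier := {X | ∀ (ι : Type) [Fintype ι] [DecidableEq ι] (v : (ι → B) → ℂ),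
    (∀ g ∈ G, tp ι g *ᵥ v = v) → der ι X *ᵥ v = 0}
  add_mem' {X Y} hX hY := by
    intro ι _ _ v hv
    rw [der_add, add_mulVec, hX ι v hv, hY ι v hv, add_zero]
  zero_mem' := by
    intro ι _ _ v _
    rw [der_zero, zero_mulVec]
  smul_mem' c X hX := by
    intro ι _ _ v hv
    rw [der_smul, smul_mulVec, hX ι v hv, smul_zero]

theorem mem_lie {G : Submonoid (Matrix B B ℂ)} {X : Matrix B B ℂ} :
    X ∈ lie G ↔ ∀ (ι : Type) [Fintype ι] [DecidableEq ι] (v : (ι → B) → ℂ),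
      (∀ g ∈ G, tp ι g *ᵥ v = v) → der ι X *ᵥ v = 0 := Iff.rfl

section lie
variable {G : Submonoid (Matrix B B ℂ)} (hG : ∀ g ∈ G, gᴴ ∈ G) {J0 : Matrix B B ℂ}
  (hJ0 : IsUnit J0.det) (hJG : ∀ g ∈ G, g * J0 * gᵀ = J0)
include hG hJ0 hJG

theorem unit_of_form {g : Matrix B B ℂ} (hg : g ∈ G) : IsUnit g.det := by
  have h3 := congrArg det (hJG g hg)
  rw [det_mul, det_mul, det_transpose] at h3
  rw [isUnit_iff_ne_zero]
  intro h4
  rw [h4, zero_mul, zero_mul] at h3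
  exact hJ0.ne_zero h3.symm

theorem kill_form {X : Matrix B B ℂ} (hX : ∀ v : (Fin 2 → B) → ℂ,
    (∀ g ∈ G, tp (Fin 2) g *ᵥ v = v) → der (Fin 2) X *ᵥ v = 0) : X * J0 = -(J0 * Xᵀ) := by
  have h1 := hX (fun w => J0 (w 0) (w 1)) fun g hg => by rw [tp_two, hJG g hg]
  rw [der_two] at h1
  have h2 : X * J0 + J0 * Xᵀ = 0 := fun_two_inj h1
  exact eq_neg_of_add_eq_zero_left h2

/-- matrices which kill the invariants commute with the equivariant projections -/
theorem kill_comm {ι : Type} [Fintype ι] [DecidableEq ι] {X : Matrix B B ℂ}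
    (hXJ : X * J0 = -(J0 * Xᵀ)) (hX : ∀ v : (ι ⊕ ι → B) → ℂ,
      (∀ g ∈ G, tp (ι ⊕ ι) g *ᵥ v = v) → der (ι ⊕ ι) X *ᵥ v = 0)
    {P : Matrix (ι → B) (ι → B) ℂ} (hP : ∀ g ∈ G, P * tp ι g = tp ι g * P) :
    der ι X * P = P * der ι X := by
  have h1 := hX (fun w => (P * tp ι J0) (w ∘ Sum.inl) (w ∘ Sum.inr)) fun g hg => by
    rw [tp_sum_mulVec]
    have h2 : tp ι g * (P * tp ι J0) * tp ι gᵀ = P * tp ι J0 := by
      rw [← Matrix.mul_assoc, ← hP g hg, Matrix.mul_assoc, Matrix.mul_assoc, ← tp_mul, ← tp_mul,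
        ← Matrix.mul_assoc, hJG g hg]
    rw [h2]
  rw [der_sum_mulVec] at h1
  have h2 : der ι X * (P * tp ι J0) + P * tp ι J0 * der ι Xᵀ = 0 := fun_sum_inj h1
  have h3 : tp ι J0 * der ι Xᵀ = -(der ι X * tp ι J0) := by
    rw [← neg_mul, ← der_neg]
    refine (der_tp ?_).symm
    rw [neg_mul, hXJ, neg_neg]
  have h4 : (der ι X * P - P * der ι X) * tp ι J0 = 0 := by
    rw [sub_mul, Matrix.mul_assoc, Matrix.mul_assoc P, ← h2, Matrix.mul_assoc P, h3]
    noncomm_ring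
  have h5 : tp ι J0 * tp ι J0⁻¹ = 1 := by
    rw [← tp_mul, mul_nonsing_inv _ hJ0, tp_one]
  have h6 := congrArg (fun M => M * tp ι J0⁻¹) h4
  simp only [Matrix.mul_assoc, h5, zero_mul, mul_one] at h6
  exact sub_eq_zero.1 h6

/-- the Lie algebra is closed under conjugate transposes -/
theorem lie_star {X : Matrix B B ℂ} (hX : X ∈ lie G) : Xᴴ ∈ lie G := by
  intro ι _ _ v hv
  obtain ⟨P, hP⟩ := exists_isProj ((invT G hG).A ι)
  have h1 : ∀ g ∈ G, P * tp ι g = tp ι g * P := by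
    intro g hg
    refine proj_comm hP (fun v hv => ?_) (fun v hv => ?_)
    · rw [hv g hg]
      exact hv
    · rw [← tp_conjTranspose, hv _ (hG g hg)]
      exact hv
  have h2 := kill_comm hG hJ0 hJG (kill_form hG hJ0 hJG (hX (Fin 2))) (hX (ι ⊕ ι)) h1
  have h3 : der ι X * P = 0 := by
    apply mat_eq_zero_of_mulVec
    intro z
    rw [← mulVec_mulVec]
    exact hX ι _ (hP.mem z)
  have h4 : der ι Xᴴ * P = 0 := by
    have h5 := congrArg conjTranspose (h2.symm.trans h3)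
    rw [conjTranspose_mul, isProj_herm hP, conjTranspose_zero, ← der_conjTranspose] at h5
    exact h5
  rw [← hP.self (v := v) hv, mulVec_mulVec, h4, zero_mulVec]

/-- the Lie algebra is stable under conjugation by the group -/
theorem lie_conj {X : Matrix B B ℂ} (hX : X ∈ lie G) {g : Matrix B B ℂ} (hg : g ∈ G) :
    g * X * g⁻¹ ∈ lie G := by
  intro ι _ _ v hv
  have h1 : der ι (g * X * g⁻¹) * tp ι g = tp ι g * der ι X :=
    der_tp (by rw [Matrix.mul_assoc, nonsing_inv_mul _ (unit_of_form hG hJ0 hJG hg), mul_one])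
  conv_lhs => rw [← hv g hg]
  rw [mulVec_mulVec, h1, ← mulVec_mulVec, hX ι v hv, mulVec_zero]

/-- matrices which kill the invariants with two and four indices normalise the Lie algebra -/
theorem kill_normal {X : Matrix B B ℂ} (hX2 : ∀ v : (Fin 2 → B) → ℂ,
      (∀ g ∈ G, tp (Fin 2) g *ᵥ v = v) → der (Fin 2) X *ᵥ v = 0)
    (hX4 : ∀ v : (Fin 2 ⊕ Fin 2 → B) → ℂ,
      (∀ g ∈ G, tp (Fin 2 ⊕ Fin 2) g *ᵥ v = v) → der (Fin 2 ⊕ Fin 2) X *ᵥ v = 0)
    {Y : Matrix B B ℂ} (hY : Y ∈ lie G) : X * Y - Y * X ∈ lie G := by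
  let f : Matrix B B ℂ →ₗ[ℂ] ((Fin 2 → B) → ℂ) :=
    { toFun := fun Y w => (Y * J0) (w 0) (w 1)
      map_add' := fun Y Z => by
        funext w
        rw [add_mul]
        rfl
      map_smul' := fun c Y => by
        funext w
        rw [smul_mul_assoc]
        rfl }
  have hf : ∀ Y, f Y = fun w => (Y * J0) (w 0) (w 1) := fun Y => rfl
  obtain ⟨P, hP⟩ := exists_isProj ((lie G).map f)
  have hst : ∀ g ∈ G, ∀ v ∈ (lie G).map f, tp (Fin 2) g *ᵥ v ∈ (lie G).map f := by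
    rintro g hg _ ⟨Y, hY, rfl⟩
    refine ⟨g * Y * g⁻¹, lie_conj hG hJ0 hJG hY hg, ?_⟩
    rw [hf, hf, tp_two]
    have h1 : g * (Y * J0) * gᵀ = g * Y * g⁻¹ * J0 := by
      conv_rhs => rw [← hJG g hg]
      rw [show g * Y * g⁻¹ * (g * J0 * gᵀ) = g * Y * (g⁻¹ * g) * J0 * gᵀ by
        simp only [Matrix.mul_assoc], nonsing_inv_mul _ (unit_of_form hG hJ0 hJG hg), mul_one]
      simp only [Matrix.mul_assoc]
    rw [h1]
  have h1 : ∀ g ∈ G, P * tp (Fin 2) g = tp (Fin 2) g * P := by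
    intro g hg
    refine proj_comm hP (hst g hg) fun v hv => ?_
    rw [← tp_conjTranspose]
    exact hst _ (hG g hg) v hv
  have hXJ := kill_form hG hJ0 hJG hX2
  have h2 := kill_comm hG hJ0 hJG hXJ hX4 h1
  have h3 : f Y ∈ (lie G).map f := ⟨Y, hY, rfl⟩
  have h4 : der (Fin 2) X *ᵥ f Y ∈ (lie G).map f := by
    rw [← hP.self h3, mulVec_mulVec, h2, ← mulVec_mulVec]
    exact hP.mem _
  have h5 : der (Fin 2) X *ᵥ f Y = f (X * Y - Y * X) := by
    rw [hf, hf, der_two]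
    have h6 : X * (Y * J0) + Y * J0 * Xᵀ = (X * Y - Y * X) * J0 := by
      rw [sub_mul, Matrix.mul_assoc Y J0, show J0 * Xᵀ = -(X * J0) by rw [hXJ, neg_neg]]
      noncomm_ring
    rw [h6]
  rw [h5] at h4
  obtain ⟨Z, hZ, h6⟩ := h4
  have h7 : Z * J0 = (X * Y - Y * X) * J0 := fun_two_inj h6
  have h8 := congrArg (fun M => M * J0⁻¹) h7
  simp only [Matrix.mul_assoc, mul_nonsing_inv _ hJ0, mul_one] at h8
  rw [← h8]
  exact hZ

/-- **The matrices which kill the invariants with two and four indices kill all invariants**, if the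
central skew endomorphisms kill all invariants. -/
theorem kill_all (hfin : ∀ Z : Matrix B B ℂ, (∀ Y ∈ lie G, Z * Y = Y * Z) →
      (∀ M : Matrix B B ℂ, (∀ g ∈ G, g * M = M * g) → Z * M = M * Z) →
        Z * J0 = -(J0 * Zᵀ) → Z ∈ lie G)
    {X : Matrix B B ℂ} (hX2 : ∀ v : (Fin 2 → B) → ℂ,
      (∀ g ∈ G, tp (Fin 2) g *ᵥ v = v) → der (Fin 2) X *ᵥ v = 0)
    (hX4 : ∀ v : (Fin 2 ⊕ Fin 2 → B) → ℂ,
      (∀ g ∈ G, tp (Fin 2 ⊕ Fin 2) g *ᵥ v = v) → der (Fin 2 ⊕ Fin 2) X *ᵥ v = 0) :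
    X ∈ lie G := by
  -- the orthogonal projection to the Lie algebra
  let f : Matrix B B ℂ →ₗ[ℂ] (B × B → ℂ) :=
    { toFun := fun Y w => Y w.1 w.2
      map_add' := fun Y Z => rfl
      map_smul' := fun c Y => rfl }
  have hf : ∀ Y w, f Y w = Y w.1 w.2 := fun Y w => rfl
  have hdot : ∀ Y Z : Matrix B B ℂ, star (f Y) ⬝ᵥ f Z = (Yᴴ * Z).trace := by
    intro Y Z
    rw [dotProduct, Fintype.sum_prod_type, Matrix.trace, Finset.sum_comm]
    refine Finset.sum_congr rfl fun j _ => ?_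
    rw [Matrix.diag_apply, Matrix.mul_apply]
    refine Finset.sum_congr rfl fun i _ => ?_
    rw [Pi.star_apply, hf, hf, conjTranspose_apply]
  obtain ⟨P, hP⟩ := exists_isProj ((lie G).map f)
  obtain ⟨X0, hX0, hX0f⟩ : ∃ X0 ∈ lie G, f X0 = P *ᵥ f X := by
    obtain ⟨X0, h1, h2⟩ := hP.mem (f X)
    exact ⟨X0, h1, h2⟩
  set X1 := X - X0 with hX1
  have horth : ∀ Y ∈ lie G, (Yᴴ * X1).trace = 0 := by
    intro Y hY
    rw [← hdot, hX1, map_sub, hX0f]
    exact hP.orth (f X) (f Y) ⟨Y, hY, rfl⟩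
  have hcomm1 : ∀ Y ∈ lie G, X1 * Y = Y * X1 := by
    intro Y hY
    have h1 : X1 * Y - Y * X1 ∈ lie G := by
      have h2 := kill_normal hG hJ0 hJG hX2 hX4 hY
      have h3 := kill_normal hG hJ0 hJG (hX0 (Fin 2)) (hX0 (Fin 2 ⊕ Fin 2)) hY
      have h4 : X1 * Y - Y * X1 = (X * Y - Y * X) - (X0 * Y - Y * X0) := by
        rw [hX1]
        noncomm_ring
      rw [h4]
      exact Submodule.sub_mem _ h2 h3
    set Z := X1 * Y - Y * X1 with hZ
    have h2 : (Zᴴ * Z).trace = 0 := by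
      have hZs : Zᴴ ∈ lie G := lie_star hG hJ0 hJG h1
      have h3 := kill_normal hG hJ0 hJG (hY (Fin 2)) (hY (Fin 2 ⊕ Fin 2)) hZs
      have h4 := horth _ (lie_star hG hJ0 hJG h3)
      rw [conjTranspose_conjTranspose] at h4
      have h5 : (Zᴴ * Z).trace = ((Y * Zᴴ - Zᴴ * Y) * X1).trace := by
        have h6 : Zᴴ * Z = Zᴴ * (X1 * Y) - Zᴴ * (Y * X1) := by rw [← mul_sub]
        have e1 : (Zᴴ * (X1 * Y)).trace = (Y * Zᴴ * X1).trace := by
          rw [← Matrix.mul_assoc, Matrix.trace_mul_comm, ← Matrix.mul_assoc]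
        have e2 : (Zᴴ * (Y * X1)).trace = (Zᴴ * Y * X1).trace := by rw [Matrix.mul_assoc]
        rw [h6, Matrix.trace_sub, e1, e2, ← Matrix.trace_sub, ← Matrix.sub_mul]
      rw [h5, h4]
    have h3 : Z = 0 := by
      rw [← hdot] at h2
      have h4 := star_dot_self_eq_zero h2
      ext i j
      exact congrFun h4 (i, j)
    exact sub_eq_zero.1 h3
  have hX1k : ∀ v : (Fin 2 → B) → ℂ, (∀ g ∈ G, tp (Fin 2) g *ᵥ v = v) →
      der (Fin 2) X1 *ᵥ v = 0 := by
    intro v hv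
    rw [hX1, der_sub, sub_mulVec, hX2 v hv, hX0 (Fin 2) v hv, sub_zero]
  have hX1J := kill_form hG hJ0 hJG hX1k
  have hcen1 : ∀ M : Matrix B B ℂ, (∀ g ∈ G, g * M = M * g) → X1 * M = M * X1 := by
    intro M hM
    have h1 := hX1k (fun w => (M * J0) (w 0) (w 1)) fun g hg => by
      rw [tp_two]
      have h2 : g * (M * J0) * gᵀ = M * J0 := by
        rw [← Matrix.mul_assoc, hM g hg, Matrix.mul_assoc M, Matrix.mul_assoc M, hJG g hg]
      rw [h2]
    rw [der_two] at h1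
    have h2 : X1 * (M * J0) + M * J0 * X1ᵀ = 0 := fun_two_inj h1
    have h3 : (X1 * M - M * X1) * J0 = 0 := by
      rw [sub_mul, ← h2, Matrix.mul_assoc M X1, hX1J]
      noncomm_ring
    have h4 := congrArg (fun M => M * J0⁻¹) h3
    simp only [Matrix.mul_assoc, mul_nonsing_inv _ hJ0, mul_one, zero_mul] at h4
    exact sub_eq_zero.1 h4
  have h1 := horth X1 (hfin X1 hcomm1 hcen1 hX1J)
  rw [← hdot] at h1
  have h4 := star_dot_self_eq_zero h1
  have h5 : X1 = 0 := by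
    ext i j
    exact congrFun h4 (i, j)
  have h6 : X = X0 := sub_eq_zero.1 h5
  rw [h6]
  exact hX0

end lie

end Pool.Agent.H842.PP
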