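import Pool.Agent.H842.PP.Inv

/-!
# Groups generated by tori, and the local step
-/

set_option linter.unusedSectionVars false

namespace Pool.Agent.H842.PP
open Matrix
open Pool.Agent.R914.UN

variable {B : Type} [Fintype B] [DecidableEq B]

/-- the derivative of the curve at `1` -/
noncomputable def dcurve (w : ℕ) (e : ℤ → Matrix B B ℂ) : Matrix B B ℂ :=
  ∑ k ∈ Finset.Icc (-(w : ℤ)) w, (k : ℂ) • e k

theorem curve_hasDerivAt (w : ℕ) (e : ℤ → Matrix B B ℂ) (a b : B) :
    HasDerivAt (fun z => curve w e z a b) (dcurve w e a b) 1 := by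
  have h1 : (fun z => curve w e z a b) = fun z => ∑ k ∈ Finset.Icc (-(w : ℤ)) w, z ^ k * e k a b := by
    funext z
    rw [curve, Matrix.sum_apply]
    rfl
  have h2 : dcurve w e a b = ∑ k ∈ Finset.Icc (-(w : ℤ)) w, (k : ℂ) * e k a b := by
    rw [dcurve, Matrix.sum_apply]
    rfl
  rw [h1, h2]
  refine HasDerivAt.fun_sum fun k _ => ?_
  have h3 := (hasDerivAt_zpow (𝕜 := ℂ) k 1 (Or.inl one_ne_zero)).mul_const (e k a b)
  rwa [_root_.one_zpow, mul_one] at h3

theorem dcurve_mem {w : ℕ} {T : Set (ℤ → Matrix B B ℂ)} {e : ℤ → Matrix B B ℂ} (he : e ∈ T)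
    (h1 : curve w e 1 = 1) : dcurve w e ∈ lie (gen w T) := by
  intro ι _ _ v hv
  funext I
  rw [Pi.zero_apply]
  have h2 : HasDerivAt (fun z => (tp ι (curve w e z) *ᵥ v) I) ((der ι (dcurve w e) *ᵥ v) I) 1 := by
    simp only [mulVec, dotProduct]
    refine HasDerivAt.fun_sum fun J _ => ?_
    refine HasDerivAt.mul_const ?_ (v J)
    rw [der_apply]
    have h3 := HasDerivAt.fun_finsetProd (u := Finset.univ) (x := (1 : ℂ))
      (f := fun i z => curve w e z (I i) (J i)) (f' := fun i => dcurve w e (I i) (J i))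
      fun i _ => curve_hasDerivAt w e (I i) (J i)
    refine h3.congr_deriv ?_
    refine Finset.sum_congr rfl fun i _ => ?_
    rw [h1, smul_eq_mul, mul_comm]
  have h3 : HasDerivAt (fun z => (tp ι (curve w e z) *ᵥ v) I) 0 1 := by
    refine (hasDerivAt_const (1 : ℂ) (v I)).congr_of_eventuallyEq ?_
    filter_upwards [isOpen_ne.mem_nhds (show (1 : ℂ) ≠ 0 from one_ne_zero)] with z hz
    have h4 : curve w e z ∈ gen w T := Submonoid.subset_closure ⟨e, he, z, hz, rfl⟩
    rw [hv _ h4]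
  exact h2.unique h3

theorem conn {w : ℕ} {T : Set (ℤ → Matrix B B ℂ)} (hT : ∀ e ∈ T, curve w e 1 = 1)
    (hproj : ∀ e ∈ T, ∀ j k : ℤ, j ≠ k → e j * e k = 0) {Z : Matrix B B ℂ}
    (hZ : ∀ Y ∈ lie (gen w T), Z * Y = Y * Z) : ∀ g ∈ gen w T, g * Z = Z * g := by
  intro g hg
  refine Submonoid.closure_induction (motive := fun g _ => g * Z = Z * g) ?_ ?_ ?_ hg
  · rintro g ⟨e, he, z, hz, rfl⟩
    have h1 : ∑ k ∈ Finset.Icc (-(w : ℤ)) w, e k = 1 := by
      have := hT e he
      rw [curve] at this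
      simpa using this
    have hsq : ∀ k ∈ Finset.Icc (-(w : ℤ)) w, e k * e k = e k := by
      intro k hk
      have h2 : e k * ∑ j ∈ Finset.Icc (-(w : ℤ)) w, e j = e k * e k := by
        rw [Finset.mul_sum, Finset.sum_eq_single k]
        · intro j _ hj
          exact hproj e he k j (Ne.symm hj)
        · intro h; exact absurd hk h
      rw [h1, mul_one] at h2
      exact h2.symm
    have hY1 : ∀ k ∈ Finset.Icc (-(w : ℤ)) w, e k * dcurve w e = (k : ℂ) • e k := by
      intro k hk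
      rw [dcurve, Finset.mul_sum, Finset.sum_eq_single k]
      · rw [mul_smul_comm, hsq k hk]
      · intro j _ hj
        rw [mul_smul_comm, hproj e he k j (Ne.symm hj), smul_zero]
      · intro h; exact absurd hk h
    have hY2 : ∀ k ∈ Finset.Icc (-(w : ℤ)) w, dcurve w e * e k = (k : ℂ) • e k := by
      intro k hk
      rw [dcurve, Finset.sum_mul, Finset.sum_eq_single k]
      · rw [smul_mul_assoc, hsq k hk]
      · intro j _ hj
        rw [smul_mul_assoc, hproj e he j k hj, smul_zero]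
      · intro h; exact absurd hk h
    have hcom := hZ _ (dcurve_mem he (hT e he))
    have hjl : ∀ j ∈ Finset.Icc (-(w : ℤ)) w, ∀ l ∈ Finset.Icc (-(w : ℤ)) w, j ≠ l →
        e j * Z * e l = 0 := by
      intro j hj l hl hne
      have h2 : e j * (Z * dcurve w e) * e l = e j * (dcurve w e * Z) * e l := by rw [hcom]
      have h3 : e j * (Z * dcurve w e) * e l = (l : ℂ) • (e j * Z * e l) := by
        rw [show e j * (Z * dcurve w e) * e l = e j * Z * (dcurve w e * e l) by
          simp only [Matrix.mul_assoc], hY2 l hl, mul_smul_comm]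
      have h4 : e j * (dcurve w e * Z) * e l = (j : ℂ) • (e j * Z * e l) := by
        rw [show e j * (dcurve w e * Z) * e l = (e j * dcurve w e) * Z * e l by
          simp only [Matrix.mul_assoc], hY1 j hj, smul_mul_assoc, smul_mul_assoc]
      rw [h3, h4, ← sub_eq_zero, ← sub_smul] at h2
      refine (smul_eq_zero.1 h2).resolve_left ?_
      intro h
      exact hne (by exact_mod_cast (sub_eq_zero.1 h).symm)
    have hcomm : ∀ l ∈ Finset.Icc (-(w : ℤ)) w, e l * Z = Z * e l := by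
      intro l hl
      have h2 : Z * e l = e l * Z * e l := by
        calc Z * e l = (∑ k ∈ Finset.Icc (-(w : ℤ)) w, e k) * Z * e l := by rw [h1, one_mul]
          _ = ∑ k ∈ Finset.Icc (-(w : ℤ)) w, e k * Z * e l := by
            rw [Finset.sum_mul, Finset.sum_mul]
          _ = _ := Finset.sum_eq_single l (fun k hk hne => hjl k hk l hl hne)
            (fun h => absurd hl h)
      have h3 : e l * Z = e l * Z * e l := by
        calc e l * Z = e l * Z * (∑ k ∈ Finset.Icc (-(w : ℤ)) w, e k) := by rw [h1, mul_one]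
          _ = ∑ k ∈ Finset.Icc (-(w : ℤ)) w, e l * Z * e k := by rw [Finset.mul_sum]
          _ = _ := Finset.sum_eq_single l (fun k hk hne => hjl l hl k hk (Ne.symm hne))
            (fun h => absurd hl h)
      rw [h2, ← h3]
    rw [curve, Finset.sum_mul, Finset.mul_sum]
    refine Finset.sum_congr rfl fun k hk => ?_
    rw [smul_mul_assoc, mul_smul_comm, hcomm k hk]
  · rw [one_mul, mul_one]
  · intro x y _ _ hx hy
    rw [Matrix.mul_assoc, hy, ← Matrix.mul_assoc, hx, Matrix.mul_assoc]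

/-- the case without central skew endomorphisms -/
theorem fin_of_cen {G : Submonoid (Matrix B B ℂ)} {J0 : Matrix B B ℂ} (hJ0 : IsUnit J0.det)
    (hconn : ∀ Z : Matrix B B ℂ, (∀ Y ∈ lie G, Z * Y = Y * Z) → ∀ g ∈ G, g * Z = Z * g)
    (hcen : ∀ Z : Matrix B B ℂ, (∀ g ∈ G, g * Z = Z * g) →
      (∀ M : Matrix B B ℂ, (∀ g ∈ G, g * M = M * g) → Z * M = M * Z) → Z * J0 = J0 * Zᵀ) :
    ∀ Z : Matrix B B ℂ, (∀ Y ∈ lie G, Z * Y = Y * Z) →
      (∀ M : Matrix B B ℂ, (∀ g ∈ G, g * M = M * g) → Z * M = M * Z) →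
        Z * J0 = -(J0 * Zᵀ) → Z ∈ lie G := by
  intro Z h1 h2 h3
  have h4 := hcen Z (hconn Z h1) h2
  have h5 : (2 : ℂ) • (Z * J0) = 0 := by
    rw [two_smul]
    nth_rw 1 [h4]
    rw [h3, add_neg_cancel]
  have h6 : Z * J0 = 0 := (smul_eq_zero.1 h5).resolve_left two_ne_zero
  have h7 := congrArg (fun M => M * J0⁻¹) h6
  simp only [Matrix.mul_assoc, mul_nonsing_inv _ hJ0, mul_one, zero_mul] at h7
  rw [h7]
  exact Submodule.zero_mem _

/-- products of at most four numbers on the right half of the unit circle -/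
theorem sum_arg {ι : Type} [Fintype ι] (hι : Fintype.card ι ≤ 4) {l : ι → ℂ}
    (hl : ∀ i, ‖l i‖ = 1) (hre : ∀ i, 0 < (l i).re) :
    ∏ i, l i = 1 ↔ ∑ i, Complex.arg (l i) = 0 := by
  have h1 : ∏ i, l i = Complex.exp ((∑ i, Complex.arg (l i) : ℝ) * Complex.I) := by
    rw [Complex.ofReal_sum, Finset.sum_mul, Complex.exp_sum]
    refine Finset.prod_congr rfl fun i _ => ?_
    have := Complex.norm_mul_exp_arg_mul_I (l i)
    rw [hl i, Complex.ofReal_one, one_mul] at this
    exact this.symm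
  rw [h1]
  constructor
  · intro h
    obtain ⟨n, hn⟩ := Complex.exp_eq_one_iff.1 h
    have h2 : ∑ i, Complex.arg (l i) = n * (2 * Real.pi) := by
      have h3 : ((∑ i, Complex.arg (l i) : ℝ) : ℂ) = ((n * (2 * Real.pi) : ℝ) : ℂ) := by
        have h4 : ((∑ i, Complex.arg (l i) : ℝ) : ℂ) * Complex.I =
            ((n * (2 * Real.pi) : ℝ) : ℂ) * Complex.I := by
          rw [hn]
          push_cast
          ring
        exact mul_right_cancel₀ Complex.I_ne_zero h4
      exact_mod_cast h3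
    have h3 : |∑ i, Complex.arg (l i)| < 2 * Real.pi := by
      rcases isEmpty_or_nonempty ι with he | hne
      · rw [Finset.univ_eq_empty, Finset.sum_empty, abs_zero]
        exact Real.two_pi_pos
      · calc |∑ i, Complex.arg (l i)| ≤ ∑ i, |Complex.arg (l i)| :=
            Finset.abs_sum_le_sum_abs _ _
          _ < ∑ _i : ι, Real.pi / 2 := by
            refine Finset.sum_lt_sum_of_nonempty Finset.univ_nonempty fun i _ => ?_
            exact Complex.abs_arg_lt_pi_div_two_iff.2 (Or.inl (hre i))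
          _ = Fintype.card ι * (Real.pi / 2) := by
            rw [Finset.sum_const, Finset.card_univ, nsmul_eq_mul]
          _ ≤ 4 * (Real.pi / 2) := by
            refine mul_le_mul_of_nonneg_right ?_ (by positivity)
            exact_mod_cast hι
          _ = 2 * Real.pi := by ring
    rw [h2, abs_mul, abs_of_pos Real.two_pi_pos] at h3
    have h4 : |(n : ℝ)| < 1 := by
      by_contra h5
      push Not at h5
      have := mul_le_mul_of_nonneg_right h5 Real.two_pi_pos.le
      linarith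
    have h5 : |n| < 1 := by exact_mod_cast h4
    have h6 : n = 0 := Int.abs_lt_one_iff.1 h5
    rw [h2, h6, Int.cast_zero, zero_mul]
  · intro h
    rw [h, Complex.ofReal_zero, zero_mul, Complex.exp_zero]

/-- **The local step.** -/
theorem local_step {G : Submonoid (Matrix B B ℂ)} (hG : ∀ g ∈ G, gᴴ ∈ G) {J0 : Matrix B B ℂ}
    (hJ0 : IsUnit J0.det) (hJG : ∀ g ∈ G, g * J0 * gᵀ = J0)
    (hfin : ∀ Z : Matrix B B ℂ, (∀ Y ∈ lie G, Z * Y = Y * Z) →
      (∀ M : Matrix B B ℂ, (∀ g ∈ G, g * M = M * g) → Z * M = M * Z) →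
        Z * J0 = -(J0 * Zᵀ) → Z ∈ lie G)
    {W : Matrix B B ℂ} {l : B → ℂ} (hW : IsU W) (hl : ∀ b, ‖l b‖ = 1) (hre : ∀ b, 0 < (l b).re)
    (h2 : ∀ v : (Fin 2 → B) → ℂ, (∀ g ∈ G, tp (Fin 2) g *ᵥ v = v) →
      tp (Fin 2) (W * diagonal l * Wᴴ) *ᵥ v = v)
    (h4 : ∀ v : (Fin 2 ⊕ Fin 2 → B) → ℂ, (∀ g ∈ G, tp (Fin 2 ⊕ Fin 2) g *ᵥ v = v) →
      tp (Fin 2 ⊕ Fin 2) (W * diagonal l * Wᴴ) *ᵥ v = v) :
    (invT G hG).Fixes (W * diagonal l * Wᴴ) := by
  have key : ∀ (ι : Type) [Fintype ι] [DecidableEq ι], Fintype.card ι ≤ 4 →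
      ∀ v : (ι → B) → ℂ, tp ι (W * diagonal l * Wᴴ) *ᵥ v = v →
        der ι (W * diagonal (fun b => (Complex.arg (l b) : ℂ)) * Wᴴ) *ᵥ v = 0 := by
    intro ι _ _ hι v hv
    rw [fix_diag hW] at hv
    rw [der_diag hW]
    intro I hI
    have h1 := (sum_arg hι (l := fun i => l (I i)) (fun i => hl _) (fun i => hre _)).1 (hv I hI)
    exact_mod_cast h1
  have h5 : W * diagonal (fun b => (Complex.arg (l b) : ℂ)) * Wᴴ ∈ lie G :=
    kill_all hG hJ0 hJG hfin
      (fun v hv => key (Fin 2) (by simp) v (h2 v hv))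
      (fun v hv => key (Fin 2 ⊕ Fin 2) (by simp) v (h4 v hv))
  intro ι _ _ v hv
  have h6 := h5 ι v hv
  rw [der_diag hW] at h6
  rw [fix_diag hW]
  intro I hI
  have h7 := h6 I hI
  have h8 : ∑ i, Complex.arg (l (I i)) = 0 := by exact_mod_cast h7
  have h9 : ∏ i, l (I i) = Complex.exp ((∑ i, Complex.arg (l (I i)) : ℝ) * Complex.I) := by
    rw [Complex.ofReal_sum, Finset.sum_mul, Complex.exp_sum]
    refine Finset.prod_congr rfl fun i _ => ?_
    have := Complex.norm_mul_exp_arg_mul_I (l (I i))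
    rw [hl, Complex.ofReal_one, one_mul] at this
    exact this.symm
  rw [h9, h8, Complex.ofReal_zero, zero_mul, Complex.exp_zero]

end Pool.Agent.H842.PP
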