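import Pool.Agent.H842.PP.Uk

/-!
# Polynomially bounded generation of the invariant tensors
-/

set_option linter.unusedSectionVars false

namespace Pool.Agent.H842.PP
open Matrix MeasureTheory
open Pool.Agent.R914.UN

variable {B : Type} [Fintype B] [DecidableEq B]

/-- the bound for the number of factors -/
def pbound (b : ℕ) : ℕ := 6 * b ^ 3 * (Nat.log 2 b + 3)

theorem numeric {b : ℕ} (hb : 1 ≤ b) :
    (4 * (b : ℝ)) ^ (2 * b ^ 2) * ((b : ℝ) - 2 + √2) ^ pbound b < ((b : ℝ) - 1 / 4) ^ pbound b := by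
  have hb1 : (1 : ℝ) ≤ b := by exact_mod_cast hb
  have hs1 : √2 ≤ 17 / 12 := by
    rw [Real.sqrt_le_left (by norm_num)]
    norm_num
  have hs2 : (1 : ℝ) < √2 := by
    rw [Real.lt_sqrt (by norm_num)]
    norm_num
  have hp : 0 < (b : ℝ) - 2 + √2 := by linarith
  have h1 : ((b : ℝ) - 2 + √2) * (1 + 1 / (3 * b)) ≤ (b : ℝ) - 1 / 4 := by
    have h2 : ((b : ℝ) - 2 + √2) * (1 + 1 / (3 * b)) =
        (b : ℝ) - 2 + √2 + 1 / 3 - (2 - √2) / (3 * b) := by
      field_simp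
      ring
    have h3 : 0 ≤ (2 - √2) / (3 * b) := by
      have : 0 ≤ 2 - √2 := by linarith
      positivity
    rw [h2]
    linarith
  have h2 : (2 : ℝ) ≤ (1 + 1 / (3 * b)) ^ (3 * b) := by
    have h3 := one_add_mul_le_pow (a := (1 / (3 * b) : ℝ)) (by
      have : (0 : ℝ) ≤ 1 / (3 * b) := by positivity
      linarith) (3 * b)
    refine le_trans (le_of_eq ?_) h3
    push_cast
    field_simp
    norm_num
  set L := Nat.log 2 b + 3 with hL
  have hM : pbound b = (3 * b) * (L * (2 * b ^ 2)) := by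
    rw [pbound]
    ring
  have h4 : (4 * (b : ℝ)) < 2 ^ L := by
    have h5 : b < 2 ^ (Nat.log 2 b + 1) := Nat.lt_pow_succ_log_self (by norm_num) b
    have h6 : (b : ℝ) < 2 ^ (Nat.log 2 b + 1) := by exact_mod_cast h5
    rw [hL, show Nat.log 2 b + 3 = (Nat.log 2 b + 1) + 2 by ring, pow_add]
    linarith
  have h5 : (4 * (b : ℝ)) ^ (2 * b ^ 2) < (2 ^ L) ^ (2 * b ^ 2) := by
    refine pow_lt_pow_left₀ h4 (by positivity) ?_
    have : 0 < b ^ 2 := by positivity
    omega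
  have h6 : ((2 : ℝ) ^ L) ^ (2 * b ^ 2) ≤ (1 + 1 / (3 * b)) ^ pbound b := by
    rw [hM, pow_mul (1 + 1 / (3 * b) : ℝ), ← pow_mul (2 : ℝ)]
    exact pow_le_pow_left₀ (by norm_num) h2 _
  calc (4 * (b : ℝ)) ^ (2 * b ^ 2) * ((b : ℝ) - 2 + √2) ^ pbound b <
      (2 ^ L) ^ (2 * b ^ 2) * ((b : ℝ) - 2 + √2) ^ pbound b :=
        mul_lt_mul_of_pos_right h5 (by positivity)
    _ ≤ (1 + 1 / (3 * b)) ^ pbound b * ((b : ℝ) - 2 + √2) ^ pbound b :=
        mul_le_mul_of_nonneg_right h6 (by positivity)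
    _ = (((b : ℝ) - 2 + √2) * (1 + 1 / (3 * b))) ^ pbound b := by
        rw [← mul_pow, mul_comm]
    _ ≤ _ := pow_le_pow_left₀ (by positivity) h1 _

theorem pbound_even (b : ℕ) : Even (pbound b) := by
  rw [pbound]
  exact ((even_iff_two_dvd.2 ⟨3 * b ^ 3, by ring⟩ : Even (6 * b ^ 3))).mul_right _

theorem four_le_pbound {b : ℕ} (hb : 1 ≤ b) : 4 ≤ pbound b := by
  rw [pbound]
  have h1 : 1 ≤ b ^ 3 := Nat.one_le_pow _ _ hb
  nlinarith [Nat.zero_le (Nat.log 2 b)]

/-- relabelling -/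
theorem mem_of_card {S : TSys B} {G : Submonoid (Matrix B B ℂ)} {M : ℕ}
    (hH : ∀ n : ℕ, n ≤ M → ∀ v : (Fin n → B) → ℂ,
      (∀ g ∈ G, tp (Fin n) g *ᵥ v = v) → v ∈ S.A (Fin n)) {ι : Type} [Fintype ι] [DecidableEq ι]
    (hι : Fintype.card ι ≤ M) {v : (ι → B) → ℂ} (hv : ∀ g ∈ G, tp ι g *ᵥ v = v) :
    v ∈ S.A ι := by
  have h1 := hH _ hι (fun w => v (w ∘ Fintype.equivFin ι)) fun g hg => by
    rw [tp_relabel, hv g hg]
  have h2 := S.relabel (Fintype.equivFin ι).symm h1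
  have h3 : v = fun w : ι → B => v ((w ∘ (Fintype.equivFin ι).symm) ∘ (Fintype.equivFin ι)) := by
    funext w
    congr 1
    funext i
    simp
  rw [h3]
  exact h2

/-- the traces of unitary matrices which preserve a nondegenerate form are real -/
theorem trace_real {u J0 : Matrix B B ℂ} (hu : IsU u) (hJ0 : IsUnit J0.det)
    (h : u * J0 * uᵀ = J0) : ((u.trace.re : ℝ) : ℂ) = u.trace := by
  have h1 : uᵀ * uᴴᵀ = 1 := by
    rw [← transpose_mul, hu.inv, transpose_one]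
  have h2 : J0 * uᴴᵀ = u * J0 := by
    conv_lhs => rw [← h]
    rw [Matrix.mul_assoc _ uᵀ, h1, mul_one]
  have h3 : u.trace = star u.trace := by
    calc u.trace = (u * J0 * J0⁻¹).trace := by
          rw [Matrix.mul_assoc, mul_nonsing_inv _ hJ0, mul_one]
      _ = (J0 * uᴴᵀ * J0⁻¹).trace := by rw [h2]
      _ = (J0⁻¹ * (J0 * uᴴᵀ)).trace := by rw [Matrix.trace_mul_comm]
      _ = (uᴴᵀ).trace := by rw [← Matrix.mul_assoc, nonsing_inv_mul _ hJ0, one_mul]
      _ = star u.trace := by rw [Matrix.trace_transpose, Matrix.trace_conjTranspose]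
  exact (Complex.conj_eq_iff_re.1 h3.symm)

theorem haar_exists (K : Type) [Group K] [TopologicalSpace K] [CompactSpace K]
    [IsTopologicalGroup K] [MeasurableSpace K] [BorelSpace K] :
    ∃ μ : Measure K, IsProbabilityMeasure μ ∧ μ.IsMulLeftInvariant := by
  refine ⟨Measure.haarMeasure ⊤, ⟨?_⟩, inferInstance⟩
  have := Measure.haarMeasure_self (K₀ := (⊤ : TopologicalSpace.PositiveCompacts K))
  rwa [TopologicalSpace.PositiveCompacts.coe_top] at this

/-- **The machine.** -/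
theorem machine2 {S : TSys B} (hS : S.HasForm) {G : Submonoid (Matrix B B ℂ)}
    (hG : ∀ g ∈ G, gᴴ ∈ G) {J0 : Matrix B B ℂ}
    (hJ0 : IsUnit J0.det) (hJG : ∀ g ∈ G, g * J0 * gᵀ = J0)
    (hfin : ∀ Z : Matrix B B ℂ, (∀ Y ∈ lie G, Z * Y = Y * Z) →
      (∀ M : Matrix B B ℂ, (∀ g ∈ G, g * M = M * g) → Z * M = M * Z) →
        Z * J0 = -(J0 * Zᵀ) → Z ∈ lie G)
    {v0 : (Fin 1 → B) → ℂ} (hv0 : v0 ≠ 0) (hv0G : ∀ g ∈ G, tp (Fin 1) g *ᵥ v0 = v0)
    (hH : ∀ n : ℕ, n ≤ pbound (Fintype.card B) → ∀ v : (Fin n → B) → ℂ,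
      (∀ g ∈ G, tp (Fin n) g *ᵥ v = v) → v ∈ S.A (Fin n))
    {ι : Type} [Fintype ι] [DecidableEq ι] {v : (ι → B) → ℂ}
    (hv : ∀ g ∈ G, tp ι g *ᵥ v = v) : v ∈ S.A ι := by
  by_contra hcon
  set b := Fintype.card B with hb
  have hb1 : 1 ≤ b := by
    obtain ⟨I, -⟩ := Function.ne_iff.1 hv0
    exact Fintype.card_pos_iff.2 ⟨I 0⟩
  have h4 := four_le_pbound hb1
  set TI := invT G hG with hTI
  have hTIform : TI.HasForm := by
    refine ⟨J0, hJ0, ?_⟩
    rw [hTI, mem_invT]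
    intro g hg
    rw [tp_two, hJG g hg]
  obtain ⟨u, huU, huS, huv⟩ : ∃ u, IsU u ∧ S.Fixes u ∧ tp ι u *ᵥ v ≠ v := by
    by_contra h
    push Not at h
    exact hcon (unitary_tannaka hS h)
  have huTI : ¬ TI.Fixes u := fun h => huv (h ι v hv)
  -- the elements of the coset
  have hcos : ∀ k : US TI, ‖(u * rho TI k).trace‖ ≤ (b : ℝ) - 2 + √2 := by
    intro k
    set x := u * rho TI k with hx
    have hxU : IsU x := huU.mul (rho_isU TI k)
    have hxfix : ∀ (κ : Type) [Fintype κ] [DecidableEq κ], Fintype.card κ ≤ pbound b →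
        ∀ z : (κ → B) → ℂ, (∀ g ∈ G, tp κ g *ᵥ z = z) → tp κ x *ᵥ z = z := by
      intro κ _ _ hκ z hz
      rw [hx, tp_mul, ← mulVec_mulVec, rho_fixes TI k κ z hz]
      exact huS κ z (mem_of_card hH hκ hz)
    have hxTI : ¬ TI.Fixes x := by
      intro h
      apply huTI
      have h1 := h.mul ((rho_fixes TI k).inv hTIform)
      have h2 : x * (rho TI k)⁻¹ = u := by
        rw [hx, Matrix.mul_assoc, mul_nonsing_inv _ ((rho_fixes TI k).isUnit hTIform), mul_one]
      rwa [h2] at h1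
    obtain ⟨W, l, hW, hl, hxW⟩ := unitary_diag hxU
    obtain ⟨b1, hb1'⟩ : ∃ b1, (l b1).re ≤ 0 := by
      by_contra h
      push Not at h
      apply hxTI
      rw [hxW]
      refine local_step hG hJ0 hJG hfin hW hl h (fun z hz => ?_) (fun z hz => ?_)
      · rw [← hxW]
        exact hxfix _ (by rw [Fintype.card_fin]; omega) z hz
      · rw [← hxW]
        exact hxfix _ (by rw [Fintype.card_sum, Fintype.card_fin]; omega) z hz
    obtain ⟨b0, hb0⟩ : ∃ b0, l b0 = 1 := by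
      have h1 := hxfix (Fin 1) (by rw [Fintype.card_fin]; omega) v0 hv0G
      rw [hxW, fix_diag hW] at h1
      obtain ⟨I, hI⟩ : ∃ I, (tp (Fin 1) Wᴴ *ᵥ v0) I ≠ 0 := by
        by_contra h
        push Not at h
        apply hv0
        have h2 : tp (Fin 1) Wᴴ *ᵥ v0 = 0 := funext h
        have h3 : tp (Fin 1) W *ᵥ (tp (Fin 1) Wᴴ *ᵥ v0) = v0 := by
          rw [mulVec_mulVec, ← tp_mul, hW, tp_one, one_mulVec]
        rw [← h3, h2, mulVec_zero]
      have h2 := h1 I hI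
      rw [Fin.prod_univ_one] at h2
      exact ⟨I 0, h2⟩
    have hne : b0 ≠ b1 := by
      rintro rfl
      rw [hb0, Complex.one_re] at hb1'
      linarith
    have htr : x.trace = ∑ c, l c := by
      rw [hxW, Matrix.trace_mul_comm, ← Matrix.mul_assoc, hW.inv, one_mul, Matrix.trace_diagonal]
    have h1 : ∑ c, l c = (l b0 + l b1) + ∑ c ∈ (Finset.univ.erase b0).erase b1, l c := by
      rw [← Finset.add_sum_erase _ _ (Finset.mem_univ b0),
        ← Finset.add_sum_erase _ _ (Finset.mem_erase.2 ⟨Ne.symm hne, Finset.mem_univ b1⟩),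
        add_assoc]
    have h2 : ‖l b0 + l b1‖ ≤ √2 := by
      apply Real.le_sqrt_of_sq_le
      rw [hb0, Complex.sq_norm, Complex.normSq_apply, Complex.add_re, Complex.add_im,
        Complex.one_re, Complex.one_im]
      have h3 := hl b1
      have h4 : (l b1).re ^ 2 + (l b1).im ^ 2 = 1 := by
        have := Complex.sq_norm (l b1)
        rw [h3, Complex.normSq_apply] at this
        linarith
      nlinarith
    have h3 : ‖∑ c ∈ (Finset.univ.erase b0).erase b1, l c‖ ≤ (b : ℝ) - 2 := by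
      refine (norm_sum_le _ _).trans ?_
      rw [Finset.sum_congr rfl fun c _ => hl c, Finset.sum_const, nsmul_eq_mul, mul_one,
        Finset.card_erase_of_mem (Finset.mem_erase.2 ⟨Ne.symm hne, Finset.mem_univ b1⟩),
        Finset.card_erase_of_mem (Finset.mem_univ b0), Finset.card_univ, ← hb]
      have hb2 : 2 ≤ b := by
        have h5 : ({b0, b1} : Finset B).card ≤ Fintype.card B := Finset.card_le_univ _
        rwa [Finset.card_pair hne] at h5
      rw [Nat.sub_sub, Nat.cast_sub hb2]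
      norm_num
    rw [htr, h1]
    refine (norm_add_le _ _).trans ?_
    linarith
  -- the measures
  let _ : MeasurableSpace (US TI) := borel _
  have _ : BorelSpace (US TI) := ⟨rfl⟩
  obtain ⟨μ, hμ1, hμ2⟩ := haar_exists (US TI)
  have hup := dim_le μ (rho_cont TI) (ι := Fin (pbound b)) (TI.A (Fin (pbound b)))
    (mem_iff_rho hTIform) (u := u) (fun z hz => huS _ z (hH _ le_rfl z hz)) hcos
  have hlow := le_dim μ (rho_cont TI) (ι := Fin (pbound b))
    (by rw [Fintype.card_fin]; exact pbound_even b) (TI.A (Fin (pbound b)))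
    (mem_iff_rho hTIform) (fun k => by
      refine trace_real (rho_isU TI k) hJ0 ?_
      have h1 := rho_fixes TI k (Fin 2) (fun w => J0 (w 0) (w 1)) (by
        rw [hTI, mem_invT]
        intro g hg
        rw [tp_two, hJG g hg])
      rw [tp_two] at h1
      exact fun_two_inj h1) (c := (b : ℝ) - 1 / 4) (by
        have : (1 : ℝ) ≤ b := by exact_mod_cast hb1
        linarith)
  have hball := ball_measure (ρ := rho TI) μ (rho_isU TI) hb1
  rw [Fintype.card_fin] at hup hlow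
  rw [← hb] at hball
  set m := μ.real {k | (b : ℝ) - 1 / 4 ≤ (rho TI k).trace.re} with hm
  have h5 := numeric hb1
  have h6 : ((b : ℝ) - 1 / 4) ^ pbound b ≤
      (4 * (b : ℝ)) ^ (2 * b ^ 2) * ((b : ℝ) - 2 + √2) ^ pbound b := by
    have hq : 0 ≤ ((b : ℝ) - 1 / 4) ^ pbound b := by
      have : (1 : ℝ) ≤ b := by exact_mod_cast hb1
      have : (0 : ℝ) ≤ (b : ℝ) - 1 / 4 := by linarith
      positivity
    calc ((b : ℝ) - 1 / 4) ^ pbound b = ((b : ℝ) - 1 / 4) ^ pbound b * 1 := (mul_one _).symm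
      _ ≤ ((b : ℝ) - 1 / 4) ^ pbound b * ((4 * (b : ℝ)) ^ (2 * b ^ 2) * m) :=
        mul_le_mul_of_nonneg_left hball hq
      _ = (4 * (b : ℝ)) ^ (2 * b ^ 2) * (((b : ℝ) - 1 / 4) ^ pbound b * m) := by ring
      _ ≤ (4 * (b : ℝ)) ^ (2 * b ^ 2) * ((b : ℝ) - 2 + √2) ^ pbound b :=
        mul_le_mul_of_nonneg_left (hlow.trans hup) (by positivity)
  exact absurd h5 (not_lt.2 h6)

end Pool.Agent.H842.PP
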