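import Pool.Agent.H842.PP.PM

/-!
# A definite proportion of the invariants
-/

set_option linter.unusedSectionVars false

namespace Pool.Agent.H842.PP
open Matrix MeasureTheory
open Pool.Agent.R914.UN

variable {B : Type} [Fintype B] [DecidableEq B]

section haar
variable {K : Type} [Group K] [TopologicalSpace K] [CompactSpace K] [MeasurableSpace K]
  [BorelSpace K] [IsTopologicalGroup K] {ρ : K →* Matrix B B ℂ}

/-- **The dimension of the space of invariants of a subgroup of positive measure.** -/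
theorem dim_formula_sub (μ : Measure K) [IsProbabilityMeasure μ] [μ.IsMulLeftInvariant]
    (hρ : Continuous ρ) {ι : Type} [Fintype ι] [DecidableEq ι] (H : Subgroup K)
    (hH : MeasurableSet (H : Set K)) (hpos : 0 < μ.real H) (U : Submodule ℂ ((ι → B) → ℂ))
    (hU : ∀ v, v ∈ U ↔ ∀ k ∈ H, tp ι (ρ k) *ᵥ v = v) :
    (μ.real H : ℂ) * (Module.finrank ℂ U : ℂ) =
      ∫ k in (H : Set K), (ρ k).trace ^ Fintype.card ι ∂μ := by
  set c : ℂ := (μ.real H : ℂ) with hc
  have hc0 : c ≠ 0 := by
    rw [hc]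
    exact_mod_cast hpos.ne'
  set P : Matrix (ι → B) (ι → B) ℂ :=
    Matrix.of fun I J => c⁻¹ * ∫ k in (H : Set K), tp ι (ρ k) I J ∂μ with hP
  have hPa : ∀ I J, P I J = c⁻¹ * ∫ k in (H : Set K), tp ι (ρ k) I J ∂μ := fun I J => rfl
  have hint : ∀ {f : K → ℂ}, Continuous f → Integrable f (μ.restrict (H : Set K)) :=
    fun {f} hf => (integ (μ := μ) hf).restrict
  have hmul : ∀ (M : Matrix (ι → B) (ι → B) ℂ) I J, (M * P) I J =
      c⁻¹ * ∫ k in (H : Set K), (M * tp ι (ρ k)) I J ∂μ := by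
    intro M I J
    simp only [Matrix.mul_apply]
    rw [integral_finsetSum _ fun L _ => (hint (cont_tp hρ L J)).const_mul _, Finset.mul_sum]
    refine Finset.sum_congr rfl fun L _ => ?_
    rw [hPa, integral_const_mul]
    ring
  have hinv : ∀ g ∈ H, tp ι (ρ g) * P = P := by
    intro g hg
    ext I J
    rw [hmul, hPa, ← integral_indicator hH, ← integral_indicator hH]
    congr 1
    rw [← integral_mul_left_eq_self ((H : Set K).indicator fun k => tp ι (ρ k) I J) g]
    refine integral_congr_ae (Filter.Eventually.of_forall fun k => ?_)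
    simp only
    by_cases hk : k ∈ (H : Set K)
    · rw [Set.indicator_of_mem hk, Set.indicator_of_mem (H.mul_mem hg hk), map_mul, tp_mul]
    · rw [Set.indicator_of_notMem hk, Set.indicator_of_notMem]
      intro h
      exact hk ((H.mul_mem_cancel_left hg).1 h)
  have hPU : ∀ v, P *ᵥ v ∈ U := by
    intro v
    rw [hU]
    intro g hg
    rw [mulVec_mulVec, hinv g hg]
  have hPid : ∀ v ∈ U, P *ᵥ v = v := by
    intro v hv
    funext I
    have h1 : (P *ᵥ v) I = c⁻¹ * ∫ k in (H : Set K), (tp ι (ρ k) *ᵥ v) I ∂μ := by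
      simp only [mulVec, dotProduct]
      rw [integral_finsetSum _ fun L _ => (hint (cont_tp hρ I L)).mul_const _, Finset.mul_sum]
      refine Finset.sum_congr rfl fun L _ => ?_
      rw [hPa, integral_mul_const]
      ring
    rw [h1]
    have h2 : ∫ k in (H : Set K), (tp ι (ρ k) *ᵥ v) I ∂μ = ∫ _k in (H : Set K), v I ∂μ := by
      refine setIntegral_congr_fun hH fun k hk => ?_
      exact congrFun ((hU v).1 hv k hk) I
    rw [h2, setIntegral_const, Complex.real_smul, ← mul_assoc, inv_mul_cancel₀ hc0, one_mul]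
  have hproj : LinearMap.IsProj U (Matrix.toLin' P) := by
    refine ⟨fun v => ?_, fun v hv => ?_⟩
    · rw [toLin'_apply]
      exact hPU v
    · rw [toLin'_apply]
      exact hPid v hv
  have h1 := hproj.trace
  rw [Matrix.trace_toLin'_eq] at h1
  rw [← h1, Matrix.trace, Finset.mul_sum]
  have h2 : ∀ I : ι → B, c * P.diag I = ∫ k in (H : Set K), tp ι (ρ k) I I ∂μ := by
    intro I
    rw [diag_apply, hPa, ← mul_assoc, mul_inv_cancel₀ hc0, one_mul]
  simp only [h2]
  rw [← integral_finsetSum]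
  · refine integral_congr_ae (Filter.Eventually.of_forall fun k => ?_)
    simp only
    rw [← trace_tp]
    rfl
  · intro I _
    exact hint (cont_tp hρ I I)

/-- **Invariants of a group and of a subgroup.** -/
theorem dim_sub_le (μ : Measure K) [IsProbabilityMeasure μ] [μ.IsMulLeftInvariant]
    (hρ : Continuous ρ) {ι : Type} [Fintype ι] [DecidableEq ι] (hι : Even (Fintype.card ι))
    (H : Subgroup K) (hH : MeasurableSet (H : Set K)) (U V : Submodule ℂ ((ι → B) → ℂ))
    (hU : ∀ v, v ∈ U ↔ ∀ k ∈ H, tp ι (ρ k) *ᵥ v = v)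
    (hV : ∀ v, v ∈ V ↔ ∀ k, tp ι (ρ k) *ᵥ v = v)
    (hreal : ∀ k, (((ρ k).trace.re : ℝ) : ℂ) = (ρ k).trace) :
    μ.real H * (Module.finrank ℂ U : ℝ) ≤ (Module.finrank ℂ V : ℝ) := by
  rcases (measureReal_nonneg (μ := μ) (s := (H : Set K))).eq_or_lt with h0 | hpos
  · rw [← h0, zero_mul]
    positivity
  have h1 := dim_formula (μ := μ) hρ V hV (u := 1) fun v _ => by rw [tp_one, one_mulVec]
  have h1' := dim_formula_sub μ hρ H hH hpos U hU
  simp only [one_mul] at h1
  have h2 : ∀ k, (ρ k).trace ^ Fintype.card ι = (((ρ k).trace.re ^ Fintype.card ι : ℝ) : ℂ) := by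
    intro k
    rw [Complex.ofReal_pow, hreal]
  simp only [h2] at h1 h1'
  rw [integral_complex_ofReal] at h1 h1'
  have h3 : (Module.finrank ℂ V : ℝ) = ∫ k, (ρ k).trace.re ^ Fintype.card ι ∂μ := by
    exact_mod_cast h1
  have h3' : μ.real H * (Module.finrank ℂ U : ℝ) =
      ∫ k in (H : Set K), (ρ k).trace.re ^ Fintype.card ι ∂μ := by
    exact_mod_cast h1'
  rw [h3, h3']
  have hcont : Continuous fun k => (ρ k).trace.re ^ Fintype.card ι := by
    have : Continuous fun k => (ρ k).trace := by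
      simp only [Matrix.trace, diag_apply]
      exact continuous_finsetSum _ fun i _ => cont_entry hρ i i
    exact (Complex.continuous_re.comp this).pow _
  exact setIntegral_le_integral (integ hcont)
    (Filter.Eventually.of_forall fun k => hι.pow_nonneg _)

end haar

/-- unitary matrices with a large trace -/
theorem re_pos_of_trace {l : B → ℂ} (hl : ∀ b, ‖l b‖ = 1)
    (h : (Fintype.card B : ℝ) - 1 / 4 ≤ (∑ c, l c).re) (b : B) : 0 < (l b).re := by
  rw [Complex.re_sum, ← Finset.add_sum_erase _ _ (Finset.mem_univ b)] at h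
  have h1 : ∑ c ∈ Finset.univ.erase b, (l c).re ≤ (Fintype.card B : ℝ) - 1 := by
    calc ∑ c ∈ Finset.univ.erase b, (l c).re ≤ ∑ _c ∈ Finset.univ.erase b, (1 : ℝ) := by
          refine Finset.sum_le_sum fun c _ => ?_
          rw [← hl c]
          exact Complex.re_le_norm _
      _ = (Fintype.card B : ℝ) - 1 := by
        have hb : 1 ≤ Fintype.card B := Fintype.card_pos_iff.2 ⟨b⟩
        rw [Finset.sum_const, Finset.card_erase_of_mem (Finset.mem_univ b), Finset.card_univ,
          nsmul_eq_mul, mul_one, Nat.cast_sub hb, Nat.cast_one]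
  linarith

/-- The index of the stabiliser of the system `TI` in the stabiliser of the system `S`. -/
noncomputable def idx (S TI : TSys B) : ℕ := (US TI).relIndex (US S)

/-- **The index is bounded.** -/
theorem idx_props {S : TSys B} {G : Submonoid (Matrix B B ℂ)}
    (hG : ∀ g ∈ G, gᴴ ∈ G) {J0 : Matrix B B ℂ}
    (hJ0 : IsUnit J0.det) (hJG : ∀ g ∈ G, g * J0 * gᵀ = J0)
    (hfin : ∀ Z : Matrix B B ℂ, (∀ Y ∈ lie G, Z * Y = Y * Z) →
      (∀ M : Matrix B B ℂ, (∀ g ∈ G, g * M = M * g) → Z * M = M * Z) →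
        Z * J0 = -(J0 * Zᵀ) → Z ∈ lie G)
    (hB : 1 ≤ Fintype.card B)
    (hH : ∀ n : ℕ, n ≤ 4 → ∀ v : (Fin n → B) → ℂ,
      (∀ g ∈ G, tp (Fin n) g *ᵥ v = v) → v ∈ S.A (Fin n)) :
    idx S (invT G hG) ≠ 0 ∧
      idx S (invT G hG) ≤ (4 * Fintype.card B) ^ (2 * Fintype.card B ^ 2) := by
  set b := Fintype.card B with hb
  set TI := invT G hG with hTI
  let H : Subgroup (US S) := (US TI).subgroupOf (US S)
  have hHmem : ∀ k : US S, k ∈ H ↔ TI.Fixes (rho S k) := fun k => Iff.rfl
  let _ : MeasurableSpace (US S) := borel _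
  have _ : BorelSpace (US S) := ⟨rfl⟩
  obtain ⟨μ, hμ1, hμ2⟩ := haar_exists (US S)
  have hHc : IsClosed (H : Set (US S)) := (isClosed_US TI).preimage continuous_subtype_val
  have hball := ball_measure (ρ := rho S) μ (rho_isU S) hB
  have hsub : {k | (b : ℝ) - 1 / 4 ≤ (rho S k).trace.re} ⊆ (H : Set (US S)) := by
    intro k hk
    have hk' : (b : ℝ) - 1 / 4 ≤ (rho S k).trace.re := hk
    change TI.Fixes (rho S k)
    obtain ⟨W, l, hW, hl, hxW⟩ := unitary_diag (rho_isU S k)
    have htr : (rho S k).trace = ∑ c, l c := by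
      rw [hxW, Matrix.trace_mul_comm, ← Matrix.mul_assoc, hW.inv, one_mul, Matrix.trace_diagonal]
    rw [htr] at hk'
    rw [hxW]
    refine local_step hG hJ0 hJG hfin hW hl (re_pos_of_trace hl hk') (fun z hz => ?_)
      (fun z hz => ?_)
    · rw [← hxW]
      exact rho_fixes S k _ z (mem_of_card hH (by rw [Fintype.card_fin]; norm_num) hz)
    · rw [← hxW]
      exact rho_fixes S k _ z
        (mem_of_card hH (by rw [Fintype.card_sum, Fintype.card_fin]) hz)
  have hcontr : Continuous fun k => (rho S k).trace.re := by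
    have : Continuous fun k => (rho S k).trace := by
      simp only [Matrix.trace, diag_apply]
      exact continuous_finsetSum _ fun i _ => cont_entry (rho_cont S) i i
    exact Complex.continuous_re.comp this
  have hopen : IsOpen (H : Set (US S)) := by
    refine H.isOpen_of_mem_nhds (g := 1) ?_
    have h1 : {k : US S | (b : ℝ) - 1 / 4 < (rho S k).trace.re} ∈ nhds (1 : US S) := by
      refine (isOpen_lt continuous_const hcontr).mem_nhds ?_
      change (b : ℝ) - 1 / 4 < (rho S 1).trace.re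
      rw [map_one, Matrix.trace_one, Complex.natCast_re]
      linarith
    refine Filter.mem_of_superset h1 fun k hk => hsub ?_
    have hk' : (b : ℝ) - 1 / 4 < (rho S k).trace.re := hk
    exact hk'.le
  have hfinq : Finite (US S ⧸ H) := H.quotient_finite_of_isOpen hopen
  have hFI : H.FiniteIndex := Subgroup.finiteIndex_of_finite_quotient
  have h1 := H.index_mul_measure hHc.measurableSet μ
  rw [measure_univ] at h1
  have h2 : (H.index : ℝ) * μ.real (H : Set (US S)) = 1 := by
    have := congrArg ENNReal.toReal h1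
    rwa [ENNReal.toReal_mul, ENNReal.toReal_natCast, ENNReal.toReal_one] at this
  have h3 : (μ.real {k | (b : ℝ) - 1 / 4 ≤ (rho S k).trace.re}) ≤ μ.real (H : Set (US S)) :=
    measureReal_mono hsub (measure_ne_top _ _)
  have h4 : (1 : ℝ) ≤ (4 * (b : ℝ)) ^ (2 * b ^ 2) * μ.real (H : Set (US S)) :=
    hball.trans (mul_le_mul_of_nonneg_left h3 (by positivity))
  have h5 : (H.index : ℝ) ≤ (4 * (b : ℝ)) ^ (2 * b ^ 2) := by
    calc (H.index : ℝ) = H.index * 1 := (mul_one _).symm
      _ ≤ H.index * ((4 * (b : ℝ)) ^ (2 * b ^ 2) * μ.real (H : Set (US S))) :=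
        mul_le_mul_of_nonneg_left h4 (by positivity)
      _ = (4 * (b : ℝ)) ^ (2 * b ^ 2) * (H.index * μ.real (H : Set (US S))) := by ring
      _ = _ := by rw [h2, mul_one]
  refine ⟨hFI.index_ne_zero, ?_⟩
  have h6 : H.index ≤ (4 * b) ^ (2 * b ^ 2) := by exact_mod_cast h5
  exact h6

theorem US_anti {S S' : TSys B}
    (h : ∀ (ι : Type) [Fintype ι] [DecidableEq ι], S.A ι ≤ S'.A ι) : US S' ≤ US S :=
  fun _ hk ι _ _ v hv => hk ι v (h ι hv)

/-- **Each new tensor halves the index.** -/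
theorem idx_double {S S' TI : TSys B} (hS : S.HasForm)
    (h1 : ∀ (ι : Type) [Fintype ι] [DecidableEq ι], S.A ι ≤ S'.A ι)
    (h2 : ∀ (ι : Type) [Fintype ι] [DecidableEq ι], S'.A ι ≤ TI.A ι) (h0 : idx S TI ≠ 0)
    {ι : Type} [Fintype ι] [DecidableEq ι] {v : (ι → B) → ℂ} (hv : v ∈ S'.A ι)
    (hv' : v ∉ S.A ι) : 2 * idx S' TI ≤ idx S TI := by
  have h3 := Subgroup.relIndex_mul_relIndex (US TI) (US S') (US S) (US_anti h2) (US_anti h1)
  have h4 : (US S').relIndex (US S) ≠ 0 := by
    intro h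
    rw [h, mul_zero] at h3
    exact h0 h3.symm
  have h5 : (US S').relIndex (US S) ≠ 1 := by
    intro h
    have h6 : US S ≤ US S' := Subgroup.relIndex_eq_one.1 h
    apply hv'
    refine unitary_tannaka hS fun g hg hf => ?_
    obtain ⟨k, hk⟩ := exists_rho hg hf
    have h7 : S'.Fixes (rho S k) := h6 k.2
    rw [← hk]
    exact h7 ι v hv
  rw [idx, idx, ← h3]
  have h6 : 2 ≤ (US S').relIndex (US S) := by omega
  nlinarith

/-- **The second machine.** -/
theorem machineA {S : TSys B} (hS : S.HasForm) {G : Submonoid (Matrix B B ℂ)}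
    (hG : ∀ g ∈ G, gᴴ ∈ G) {J0 : Matrix B B ℂ}
    (hJ0 : IsUnit J0.det) (hJG : ∀ g ∈ G, g * J0 * gᵀ = J0)
    (h0 : idx S (invT G hG) ≠ 0) (hfix : ∀ g ∈ G, S.Fixes g)
    (hH : ∀ v : (Fin 2 → B) → ℂ,
      (∀ g ∈ G, tp (Fin 2) g *ᵥ v = v) → v ∈ S.A (Fin 2)) {ι : Type} [Fintype ι] [DecidableEq ι]
    (hι : Even (Fintype.card ι)) :
    Module.finrank ℂ ((invT G hG).A ι) ≤ idx S (invT G hG) * Module.finrank ℂ (S.A ι) := by
  set TI := invT G hG with hTI
  have hTIform : TI.HasForm := by
    refine ⟨J0, hJ0, ?_⟩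
    rw [hTI, mem_invT]
    intro g hg
    rw [tp_two, hJG g hg]
  have hJ0S : (fun w : Fin 2 → B => J0 (w 0) (w 1)) ∈ S.A (Fin 2) :=
    hH _ fun g hg => by rw [tp_two, hJG g hg]
  have hle : ∀ (κ : Type) [Fintype κ] [DecidableEq κ], S.A κ ≤ TI.A κ := by
    intro κ _ _ v hv
    rw [hTI, mem_invT]
    exact fun g hg => hfix g hg κ v hv
  let H : Subgroup (US S) := (US TI).subgroupOf (US S)
  have hHmem : ∀ k : US S, k ∈ H ↔ TI.Fixes (rho S k) := fun k => Iff.rfl
  let _ : MeasurableSpace (US S) := borel _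
  have _ : BorelSpace (US S) := ⟨rfl⟩
  obtain ⟨μ, hμ1, hμ2⟩ := haar_exists (US S)
  have hHc : IsClosed (H : Set (US S)) := (isClosed_US TI).preimage continuous_subtype_val
  have h1 := dim_sub_le μ (rho_cont S) hι H hHc.measurableSet (TI.A ι) (S.A ι)
    (fun v => by
      constructor
      · intro hv k hk
        exact (hHmem k).1 hk ι v hv
      · intro h
        refine unitary_tannaka hTIform fun g hg hf => ?_
        obtain ⟨k, hk⟩ := exists_rho (S := S) hg fun κ _ _ z hz => hf κ z (hle κ hz)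
        have h2 := h k ((hHmem k).2 (by rw [hk]; exact hf))
        rwa [hk] at h2)
    (mem_iff_rho hS) (fun k => by
      refine trace_real (rho_isU S k) hJ0 ?_
      have h1 := rho_fixes S k (Fin 2) _ hJ0S
      rw [tp_two] at h1
      exact fun_two_inj h1)
  have hFI : H.FiniteIndex := ⟨h0⟩
  have h2 := H.index_mul_measure hHc.measurableSet μ
  rw [measure_univ] at h2
  have h3 : (H.index : ℝ) * μ.real (H : Set (US S)) = 1 := by
    have := congrArg ENNReal.toReal h2
    rwa [ENNReal.toReal_mul, ENNReal.toReal_natCast, ENNReal.toReal_one] at this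
  have h4 : (Module.finrank ℂ (TI.A ι) : ℝ) ≤ (H.index : ℝ) * (Module.finrank ℂ (S.A ι) : ℝ) := by
    calc (Module.finrank ℂ (TI.A ι) : ℝ) = ((H.index : ℝ) * μ.real (H : Set (US S))) *
          (Module.finrank ℂ (TI.A ι) : ℝ) := by rw [h3, one_mul]
      _ = (H.index : ℝ) * (μ.real (H : Set (US S)) * (Module.finrank ℂ (TI.A ι) : ℝ)) := by ring
      _ ≤ _ := mul_le_mul_of_nonneg_left h1 (by positivity)
  have h5 : Module.finrank ℂ (TI.A ι) ≤ H.index * Module.finrank ℂ (S.A ι) := by
    exact_mod_cast h4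
  exact h5

end Pool.Agent.H842.PP
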