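import Pool.Agent.H842.PP.MachA

/-!
# The neutral invariants
-/

set_option linter.unusedSectionVars false

namespace Pool.Agent.H842.PP
open Matrix MeasureTheory
open Pool.Agent.R914.UN

variable {B : Type} [Fintype B] [DecidableEq B]

theorem ctc (M : Matrix B B ℂ) : Mᵀᴴ = Mᴴᵀ := rfl

section der
variable {ι κ : Type} [Fintype ι] [DecidableEq ι] [Fintype κ] [DecidableEq κ]

theorem der_relabel (e : ι ≃ κ) (X : Matrix B B ℂ) (v : (ι → B) → ℂ) :
    der κ X *ᵥ (fun w => v (w ∘ e)) = fun w => (der ι X *ᵥ v) (w ∘ e) := by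
  funext w
  rw [mulVec, mulVec, dotProduct, dotProduct]
  refine Fintype.sum_equiv (e.symm.arrowCongr (Equiv.refl B)) _ _ fun x => ?_
  have h1 : (e.symm.arrowCongr (Equiv.refl B)) x = x ∘ e := by
    funext i
    simp
  rw [h1, der_apply, der_apply]
  congr 1
  refine (Fintype.sum_equiv e _ _ fun i => ?_).symm
  congr 1
  refine Finset.prod_equiv e (fun j => ?_) fun j _ => rfl
  simp

theorem der_sum_apply (X : Matrix B B ℂ) (u : (ι ⊕ κ → B) → ℂ) (x : ι → B) (y : κ → B) :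
    (der (ι ⊕ κ) X *ᵥ u) (Sum.elim x y) =
      (der ι X *ᵥ fun x' => u (Sum.elim x' y)) x + (der κ X *ᵥ fun y' => u (Sum.elim x y')) y := by
  have h1 : u = fun w => (Matrix.of fun x y => u (Sum.elim x y)) (w ∘ Sum.inl) (w ∘ Sum.inr) := by
    funext w
    rw [Matrix.of_apply, Sum.elim_comp_inl_inr]
  conv_lhs => rw [h1]
  rw [der_sum_mulVec]
  change (der ι X * (Matrix.of fun x y => u (Sum.elim x y)) +
    (Matrix.of fun x y => u (Sum.elim x y)) * der κ Xᵀ) (Sum.elim x y ∘ Sum.inl)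
      (Sum.elim x y ∘ Sum.inr) = _
  rw [Sum.elim_comp_inl, Sum.elim_comp_inr, Matrix.add_apply, Matrix.mul_apply, Matrix.mul_apply,
    mulVec, mulVec, dotProduct, dotProduct]
  simp only [Matrix.of_apply]
  congr 1
  refine Finset.sum_congr rfl fun z _ => ?_
  rw [der_transpose, transpose_apply, mul_comm]

theorem der_mulT {X : Matrix B B ℂ} {v : (ι → B) → ℂ} {u : (κ → B) → ℂ}
    (hv : der ι X *ᵥ v = 0) (hu : der κ X *ᵥ u = 0) : der (ι ⊕ κ) X *ᵥ mulT v u = 0 := by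
  funext w
  obtain ⟨x, y, rfl⟩ : ∃ x y, w = Sum.elim x y := ⟨w ∘ Sum.inl, w ∘ Sum.inr, by simp⟩
  rw [der_sum_apply]
  have h1 : (fun x' => mulT v u (Sum.elim x' y)) = u y • v := by
    funext x'
    simp only [mulT, Sum.elim_comp_inl, Sum.elim_comp_inr, Pi.smul_apply, smul_eq_mul, mul_comm]
  have h2 : (fun y' => mulT v u (Sum.elim x y')) = v x • u := by
    funext y'
    simp only [mulT, Sum.elim_comp_inl, Sum.elim_comp_inr, Pi.smul_apply, smul_eq_mul]
  rw [h1, h2, mulVec_smul, mulVec_smul, hv, hu, smul_zero, smul_zero]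
  simp

theorem der_conT {X : Matrix B B ℂ} {v : (ι → B) → ℂ} {u : (ι ⊕ κ → B) → ℂ}
    (hv : der ι Xᴴ *ᵥ v = 0) (hu : der (ι ⊕ κ) X *ᵥ u = 0) : der κ X *ᵥ conT v u = 0 := by
  funext w
  have h1 : ∀ x, (der κ X *ᵥ fun y' => u (Sum.elim x y')) w =
      -(der ι X *ᵥ fun x' => u (Sum.elim x' w)) x := by
    intro x
    have h2 := congrFun hu (Sum.elim x w)
    rw [der_sum_apply, Pi.zero_apply] at h2
    exact eq_neg_of_add_eq_zero_right h2
  have h2 : (der κ X *ᵥ conT v u) w = ∑ x, star (v x) * (der κ X *ᵥ fun y' => u (Sum.elim x y')) w := by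
    simp only [mulVec, dotProduct, conT, Finset.mul_sum]
    rw [Finset.sum_comm]
    refine Finset.sum_congr rfl fun x _ => Finset.sum_congr rfl fun y _ => ?_
    ring
  rw [h2, Finset.sum_congr rfl fun x _ => by rw [h1 x]]
  have h3 : ∑ x, star (v x) * -(der ι X *ᵥ fun x' => u (Sum.elim x' w)) x =
      -(star v ⬝ᵥ (der ι X *ᵥ fun x' => u (Sum.elim x' w))) := by
    rw [dotProduct, ← Finset.sum_neg_distrib]
    refine Finset.sum_congr rfl fun x _ => ?_
    rw [Pi.star_apply]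
    ring
  rw [h3, dotProduct_mulVec]
  have h4 : star v ᵥ* der ι X = star (der ι Xᴴ *ᵥ v) := by
    rw [star_mulVec, ← der_conjTranspose, conjTranspose_conjTranspose]
  rw [h4, hv, star_zero, zero_dotProduct, neg_zero, Pi.zero_apply]

theorem der_empty [IsEmpty ι] (X : Matrix B B ℂ) : der ι X = 0 := by
  rw [der, Finset.univ_eq_empty, Finset.sum_empty]

end der

/-- The central skew endomorphisms. -/
def zz (G : Submonoid (Matrix B B ℂ)) (J0 : Matrix B B ℂ) : Submodule ℂ (Matrix B B ℂ) where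
  carrier := {Z | (∀ g ∈ G, g * Z = Z * g) ∧
    (∀ M : Matrix B B ℂ, (∀ g ∈ G, g * M = M * g) → Z * M = M * Z) ∧ Z * J0 = -(J0 * Zᵀ)}
  add_mem' := by
    rintro Y Z ⟨h1, h2, h3⟩ ⟨h4, h5, h6⟩
    refine ⟨fun g hg => ?_, fun M hM => ?_, ?_⟩
    · rw [mul_add, add_mul, h1 g hg, h4 g hg]
    · rw [mul_add, add_mul, h2 M hM, h5 M hM]
    · rw [add_mul, h3, h6, transpose_add, mul_add]
      abel
  zero_mem' := by
    refine ⟨fun g hg => ?_, fun M hM => ?_, ?_⟩
    · rw [mul_zero, zero_mul]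
    · rw [mul_zero, zero_mul]
    · rw [zero_mul, transpose_zero, mul_zero, neg_zero]
  smul_mem' := by
    rintro c Z ⟨h1, h2, h3⟩
    refine ⟨fun g hg => ?_, fun M hM => ?_, ?_⟩
    · rw [mul_smul_comm, smul_mul_assoc, h1 g hg]
    · rw [mul_smul_comm, smul_mul_assoc, h2 M hM]
    · rw [smul_mul_assoc, h3, transpose_smul, mul_smul_comm, smul_neg]

section neu
variable {G : Submonoid (Matrix B B ℂ)} (hG : ∀ g ∈ G, gᴴ ∈ G) {J0 : Matrix B B ℂ}
  (hJ0 : IsUnit J0.det) (hJG : ∀ g ∈ G, g * J0 * gᵀ = J0)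
include hG hJ0 hJG

theorem zz_star {Z : Matrix B B ℂ} (hZ : Z ∈ zz G J0) : Zᴴ ∈ zz G J0 := by
  obtain ⟨h1, h2, h3⟩ := hZ
  refine ⟨fun g hg => ?_, fun M hM => ?_, ?_⟩
  · have h4 := congrArg conjTranspose (h1 _ (hG g hg))
    rw [conjTranspose_mul, conjTranspose_mul, conjTranspose_conjTranspose] at h4
    exact h4.symm
  · have h4 := congrArg conjTranspose (h2 Mᴴ fun g hg => by
      have h5 := congrArg conjTranspose (hM _ (hG g hg))
      rw [conjTranspose_mul, conjTranspose_mul, conjTranspose_conjTranspose] at h5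
      exact h5.symm)
    rw [conjTranspose_mul, conjTranspose_mul, conjTranspose_conjTranspose] at h4
    exact h4.symm
  · -- the matrix `J0 J0ᴴ` is invariant
    have h4 : ∀ g ∈ G, g * (J0 * J0ᴴ) = (J0 * J0ᴴ) * g := by
      intro g hg
      have h5 : gᵀ * J0ᴴ * g = J0ᴴ := by
        have h6 := congrArg conjTranspose (hJG _ (hG g hg))
        rw [conjTranspose_mul, conjTranspose_mul, conjTranspose_conjTranspose,
          ← Matrix.mul_assoc] at h6
        have h7 : (gᴴᵀ)ᴴ = gᵀ := by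
          rw [← ctc, conjTranspose_conjTranspose]
        rwa [h7] at h6
      have hgu := unit_of_form hG hJ0 hJG hg
      have hgtu : IsUnit gᵀ.det := by rwa [det_transpose]
      calc g * (J0 * J0ᴴ) = g * J0 * (gᵀ * J0ᴴ * g) := by rw [h5, Matrix.mul_assoc]
        _ = (g * J0 * gᵀ) * J0ᴴ * g := by simp only [Matrix.mul_assoc]
        _ = (J0 * J0ᴴ) * g := by rw [hJG g hg]
    have h5 := h2 _ h4
    have h6 : J0 * (-(Zᵀ * J0ᴴ)) = J0 * (J0ᴴ * Z) := by
      calc J0 * (-(Zᵀ * J0ᴴ)) = -(J0 * Zᵀ) * J0ᴴ := by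
            rw [mul_neg, neg_mul, Matrix.mul_assoc]
        _ = Z * (J0 * J0ᴴ) := by rw [← h3, Matrix.mul_assoc]
        _ = J0 * (J0ᴴ * Z) := by rw [h5, Matrix.mul_assoc]
    have h7 : -(Zᵀ * J0ᴴ) = J0ᴴ * Z := by
      have h8 := congrArg (fun M => J0⁻¹ * M) h6
      simp only [← Matrix.mul_assoc, nonsing_inv_mul _ hJ0, one_mul] at h8
      exact h8
    have h8 := congrArg conjTranspose h7
    rw [conjTranspose_neg, conjTranspose_mul, conjTranspose_mul, conjTranspose_conjTranspose,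
      ctc] at h8
    exact h8.symm

/-- The system of the neutral invariants. -/
def neuT : TSys B where
  A ι _ _ :=
    { carrier := {v | (∀ g ∈ G, tp ι g *ᵥ v = v) ∧ ∀ Z ∈ zz G J0, der ι Z *ᵥ v = 0}
      add_mem' := fun {a b} ha hb => ⟨fun g hg => by rw [mulVec_add, ha.1 g hg, hb.1 g hg],
        fun Z hZ => by rw [mulVec_add, ha.2 Z hZ, hb.2 Z hZ, add_zero]⟩
      zero_mem' := ⟨fun g _ => mulVec_zero _, fun Z _ => mulVec_zero _⟩
      smul_mem' := fun c v hv => ⟨fun g hg => by rw [mulVec_smul, hv.1 g hg],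
        fun Z hZ => by rw [mulVec_smul, hv.2 Z hZ, smul_zero]⟩ }
  relabel e v hv := ⟨(invT G hG).relabel e hv.1, fun Z hZ => by
    rw [der_relabel, hv.2 Z hZ]
    rfl⟩
  empty v := ⟨(invT G hG).empty v, fun Z _ => by rw [der_empty, zero_mulVec]⟩
  mul hv hu := ⟨(invT G hG).mul hv.1 hu.1, fun Z hZ => der_mulT (hv.2 Z hZ) (hu.2 Z hZ)⟩
  con hv hu := ⟨(invT G hG).con hv.1 hu.1, fun Z hZ =>
    der_conT (hv.2 _ (zz_star hG hJ0 hJG hZ)) (hu.2 Z hZ)⟩

theorem mem_neuT {ι : Type} [Fintype ι] [DecidableEq ι] {v : (ι → B) → ℂ} :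
    v ∈ (neuT hG hJ0 hJG).A ι ↔ (∀ g ∈ G, tp ι g *ᵥ v = v) ∧ ∀ Z ∈ zz G J0, der ι Z *ᵥ v = 0 :=
  Iff.rfl

/-- The invariants with two indices are neutral. -/
theorem two_neutral {M : Matrix B B ℂ} (hM : ∀ g ∈ G, g * M = M * g) :
    (fun w : Fin 2 → B => (M * J0) (w 0) (w 1)) ∈ (neuT hG hJ0 hJG).A (Fin 2) := by
  rw [mem_neuT]
  constructor
  · intro g hg
    rw [tp_two]
    have h2 : g * (M * J0) * gᵀ = M * J0 := by
      rw [← Matrix.mul_assoc, hM g hg, Matrix.mul_assoc M, Matrix.mul_assoc M, hJG g hg]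
    rw [h2]
  · rintro Z ⟨h1, h2, h3⟩
    rw [der_two]
    have h4 : Z * (M * J0) + M * J0 * Zᵀ = 0 := by
      rw [← Matrix.mul_assoc, h2 M hM, Matrix.mul_assoc M Z, h3, Matrix.mul_assoc M J0]
      noncomm_ring
    rw [h4]
    rfl

theorem neu_two {v : (Fin 2 → B) → ℂ} (hv : ∀ g ∈ G, tp (Fin 2) g *ᵥ v = v) :
    v ∈ (neuT hG hJ0 hJG).A (Fin 2) := by
  set N : Matrix B B ℂ := Matrix.of fun i j => v ![i, j] with hN
  have hv' : v = fun w => N (w 0) (w 1) := by
    funext w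
    rw [hN, Matrix.of_apply]
    congr 1
    funext i
    fin_cases i <;> rfl
  have h1 : ∀ g ∈ G, g * N * gᵀ = N := by
    intro g hg
    have h2 := hv g hg
    rw [hv', tp_two] at h2
    exact fun_two_inj h2
  have h3 : ∀ g ∈ G, g * (N * J0⁻¹) = N * J0⁻¹ * g := by
    intro g hg
    have hgu := unit_of_form hG hJ0 hJG hg
    have h4 : gᵀ * J0⁻¹ * g = J0⁻¹ := by
      have h5 : (J0 * gᵀ * J0⁻¹) * g = 1 := by
        have h6 : g * (J0 * gᵀ * J0⁻¹) = 1 := by
          rw [← Matrix.mul_assoc, ← Matrix.mul_assoc, hJG g hg, mul_nonsing_inv _ hJ0]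
        exact mul_eq_one_comm.1 h6
      calc gᵀ * J0⁻¹ * g = J0⁻¹ * (J0 * gᵀ * J0⁻¹ * g) := by
            simp only [← Matrix.mul_assoc, nonsing_inv_mul _ hJ0, one_mul]
        _ = J0⁻¹ := by rw [h5, mul_one]
    calc g * (N * J0⁻¹) = g * N * (gᵀ * J0⁻¹ * g) := by rw [h4, Matrix.mul_assoc]
      _ = (g * N * gᵀ) * J0⁻¹ * g := by simp only [Matrix.mul_assoc]
      _ = N * J0⁻¹ * g := by rw [h1 g hg]
  have h4 := two_neutral hG hJ0 hJG h3
  rw [Matrix.mul_assoc, nonsing_inv_mul _ hJ0, mul_one] at h4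
  rw [hv']
  exact h4

theorem neuT_form : (neuT hG hJ0 hJG).HasForm := by
  refine ⟨J0, hJ0, ?_⟩
  have := two_neutral hG hJ0 hJG (M := 1) fun g _ => by rw [mul_one, one_mul]
  rwa [one_mul] at this

/-- The invariants with one index are neutral. -/
theorem neu_one {v : (Fin 1 → B) → ℂ} (hv : ∀ g ∈ G, tp (Fin 1) g *ᵥ v = v) :
    v ∈ (neuT hG hJ0 hJG).A (Fin 1) := by
  rw [mem_neuT]
  refine ⟨hv, fun Z hZ => ?_⟩
  set e : B → ℂ := fun i => v fun _ => i with he
  have hve : ∀ w, v w = e (w 0) := by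
    intro w
    rw [he]
    congr 1
    funext i
    rw [Subsingleton.elim i 0]
  set a : B → ℂ := fun i => (der (Fin 1) Z *ᵥ v) fun _ => i with ha
  have hae : a = Z *ᵥ e := by
    funext i
    change (der (Fin 1) Z *ᵥ v) (fun _ => i) = (Z *ᵥ e) i
    rw [mulVec, mulVec, dotProduct, dotProduct]
    refine Fintype.sum_equiv (Equiv.funUnique (Fin 1) B) _ _ fun x => ?_
    rw [hve, der_apply, Fin.sum_univ_one]
    congr 1
    simp
  have h1 : ∀ g ∈ G, g *ᵥ e = e := by
    intro g hg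
    funext i
    have h2 := congrFun (hv g hg) fun _ => i
    rw [mulVec, dotProduct] at h2
    rw [mulVec, dotProduct]
    refine Eq.trans ?_ h2
    refine (Fintype.sum_equiv (Equiv.funUnique (Fin 1) B) _ _ fun x => ?_).symm
    rw [hve, tp_apply, Fin.prod_univ_one]
    rfl
  have h2 := (neu_two hG hJ0 hJG (v := fun w => e (w 0) * e (w 1)) fun g hg => by
    have h3 := tp_two g (Matrix.of fun i j => e i * e j)
    simp only [Matrix.of_apply] at h3
    rw [h3]
    have h4 : g * (Matrix.of fun i j => e i * e j) * gᵀ = Matrix.of fun i j => e i * e j := by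
      have h5 : (Matrix.of fun i j => e i * e j) = vecMulVec e e := rfl
      rw [h5, Matrix.mul_vecMulVec, Matrix.vecMulVec_mul, vecMul_transpose, h1 g hg]
    rw [h4]
    rfl).2 Z hZ
  have h3 := der_two Z (vecMulVec e e)
  have h4 : (fun w : Fin 2 → B => vecMulVec e e (w 0) (w 1)) = fun w => e (w 0) * e (w 1) := rfl
  rw [h4, h2] at h3
  have h5 : Z * vecMulVec e e + vecMulVec e e * Zᵀ = 0 := by
    ext i j
    have := congrFun h3 ![i, j]
    exact this.symm
  rw [Matrix.mul_vecMulVec, Matrix.vecMulVec_mul, vecMul_transpose, ← hae] at h5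
  have h6 : ∀ i j, a i * e j + e i * a j = 0 := fun i j => congrFun (congrFun h5 i) j
  have h7 : a = 0 := by
    by_cases he0 : e = 0
    · rw [hae, he0, mulVec_zero]
    · obtain ⟨i, hi⟩ := Function.ne_iff.1 he0
      have hi' : e i ≠ 0 := hi
      have h8 : a i = 0 := by
        have h9 := h6 i i
        have h10 : 2 * (a i * e i) = 0 := by linear_combination h9
        have h11 := (mul_eq_zero.1 h10).resolve_left two_ne_zero
        exact (mul_eq_zero.1 h11).resolve_right hi'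
      funext j
      have h9 := h6 j i
      rw [h8, mul_zero, add_zero] at h9
      exact (mul_eq_zero.1 h9).resolve_right hi'
  funext w
  have h8 := congrFun h7 (w 0)
  rw [ha] at h8
  have h9 : (fun _ : Fin 1 => w 0) = w := by
    funext i
    rw [Subsingleton.elim i 0]
  simp only [h9] at h8
  exact h8

end neu

/-! ### The stabiliser -/

/-- The stabiliser of the system. -/
def stab (S : TSys B) : Submonoid (Matrix B B ℂ) where
  carrier := {g | S.Fixes g}
  mul_mem' ha hb := TSys.Fixes.mul ha hb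
  one_mem' := TSys.Fixes.one

theorem stab_star {S : TSys B} (hS : S.HasForm) : ∀ g ∈ stab S, gᴴ ∈ stab S :=
  fun _ hg => fixes_star hS hg

theorem stab_inv {S : TSys B} {ι : Type} [Fintype ι] [DecidableEq ι]
    {v : (ι → B) → ℂ} : (∀ g ∈ stab S, tp ι g *ᵥ v = v) ↔ v ∈ S.A ι :=
  ⟨fun h => tannaka h, fun h g hg => hg ι v h⟩

/-- **The stabiliser of the neutral invariants satisfies the hypothesis of the machine.** -/
theorem neu_fin {G : Submonoid (Matrix B B ℂ)} (hG : ∀ g ∈ G, gᴴ ∈ G) {J0 : Matrix B B ℂ}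
    (hJ0 : IsUnit J0.det) (hJG : ∀ g ∈ G, g * J0 * gᵀ = J0)
    (hconn : ∀ Z : Matrix B B ℂ, (∀ Y ∈ lie G, Z * Y = Y * Z) → ∀ g ∈ G, g * Z = Z * g) :
    ∀ Z : Matrix B B ℂ, (∀ Y ∈ lie (stab (neuT hG hJ0 hJG)), Z * Y = Y * Z) →
      (∀ M : Matrix B B ℂ, (∀ g ∈ stab (neuT hG hJ0 hJG), g * M = M * g) → Z * M = M * Z) →
        Z * J0 = -(J0 * Zᵀ) → Z ∈ lie (stab (neuT hG hJ0 hJG)) := by
  intro Z h1 h2 h3
  have h4 : ∀ g ∈ G, g * Z = Z * g := by
    refine hconn Z fun Y hY => h1 Y ?_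
    intro ι _ _ v hv
    exact hY ι v (stab_inv.1 hv).1
  have h5 : ∀ M : Matrix B B ℂ, (∀ g ∈ G, g * M = M * g) → Z * M = M * Z := by
    intro M hM
    refine h2 M fun g hg => ?_
    have h6 := hg (Fin 2) _ (two_neutral hG hJ0 hJG hM)
    have h7 := hg (Fin 2) _ (two_neutral hG hJ0 hJG (M := 1) fun _ _ => by rw [mul_one, one_mul])
    rw [tp_two] at h6 h7
    have h8 := fun_two_inj h6
    have h9 := fun_two_inj h7
    rw [one_mul] at h9
    -- `g J0 gᵀ = J0`, `g M J0 gᵀ = M J0`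
    have h10 : IsUnit g.det := by
      have h3 := congrArg det h9
      rw [det_mul, det_mul, det_transpose] at h3
      rw [isUnit_iff_ne_zero]
      intro h4
      rw [h4, zero_mul, zero_mul] at h3
      exact hJ0.ne_zero h3.symm
    have h11 : g * M * (J0 * gᵀ) = M * g * (J0 * gᵀ) := by
      calc g * M * (J0 * gᵀ) = g * (M * J0) * gᵀ := by simp only [Matrix.mul_assoc]
        _ = M * (g * J0 * gᵀ) := by rw [h8, h9]
        _ = _ := by simp only [Matrix.mul_assoc]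
    have h12 : IsUnit (J0 * gᵀ).det := by
      rw [det_mul, det_transpose]
      exact hJ0.mul h10
    have h13 := congrArg (fun N => N * (J0 * gᵀ)⁻¹) h11
    simp only [Matrix.mul_assoc _ (J0 * gᵀ), mul_nonsing_inv _ h12, mul_one] at h13
    exact h13
  intro ι _ _ v hv
  exact (stab_inv.1 hv).2 Z ⟨h4, h5, h3⟩

end Pool.Agent.H842.PP
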