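import Pool.Agent.H842.PP.Mach2

/-!
# Systems of tensors with a bilinear contraction: the two theorems
-/

set_option linter.unusedSectionVars false
set_option linter.unusedVariables false

namespace Pool.Agent.H842.PP
open Matrix MeasureTheory
open Pool.Agent.R914.UN

variable {B : Type} [Fintype B] [DecidableEq B]

theorem exists_tsys (S : PSys B) {w : ℕ} {T : Set (ℤ → Matrix B B ℂ)}
    (hinv : ∀ e ∈ T, ∀ z : ℂ, z ≠ 0 → ∃ g' ∈ gen w T, g' * (S.K * (curve w e z).map star) = S.K)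
    {Ψ C C' : Matrix B B ℂ} (hC : C ∈ gen w T) (hC' : C' ∈ gen w T) (hCC : C' * C = 1)
    (hpol : S.Kᵀ * Ψ * C = 1)
    (hJ : IsUnit S.J.det) (hJg : ∀ g ∈ gen w T, gᵀ * S.J * g = S.J)
    (hΨg : ∀ g ∈ gen w T, gᵀ * Ψ * g = Ψ)
    (hfix : ∀ (ι : Type) [Fintype ι] [DecidableEq ι] (v : (ι → B) → ℂ), v ∈ S.A ι →
      ∀ g ∈ gen w T, tp ι g *ᵥ v = v)
    (hH : ∀ v : (Fin 2 → B) → ℂ,
      (∀ g ∈ gen w T, tp (Fin 2) g *ᵥ v = v) → v ∈ S.A (Fin 2)) :
    (∀ g ∈ gen w T, gᴴ ∈ gen w T) ∧ ∃ TS : TSys B, TS.HasForm ∧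
      ∀ (ι : Type) [Fintype ι] [DecidableEq ι], TS.A ι = S.A ι := by
  have hCC' : C * C' = 1 := mul_eq_one_comm.1 hCC
  have hKΨ : S.Kᵀ * Ψ = C' := by
    calc S.Kᵀ * Ψ = S.Kᵀ * Ψ * C * C' := by rw [Matrix.mul_assoc, hCC', Matrix.mul_one]
      _ = C' := by rw [hpol, Matrix.one_mul]
  have hcomm1 : ∀ L : Matrix B B ℂ, (∀ g ∈ gen w T, g * L = L * g) →
      (fun w : Fin 2 → B => (L * S.J⁻¹) (w 0) (w 1)) ∈ S.A (Fin 2) := by
    intro L hL
    refine hH _ fun g hg => ?_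
    rw [tp_two]
    have h1 : g * (L * S.J⁻¹) * gᵀ = L * S.J⁻¹ := by
      rw [← Matrix.mul_assoc, hL g hg, Matrix.mul_assoc, Matrix.mul_assoc,
        ← Matrix.mul_assoc g, dual_form hJ (hJg g hg)]
    rw [h1]
  -- the system with the contraction
  set L : Matrix B B ℂ := (S.Jᵀ)⁻¹ * Ψᵀ with hLdef
  have hJt : IsUnit (S.Jᵀ).det := by rwa [det_transpose]
  have hJL : S.Jᵀ * L = Ψᵀ := by
    rw [hLdef, ← Matrix.mul_assoc, mul_nonsing_inv _ hJt, Matrix.one_mul]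
  have hLg : ∀ g ∈ gen w T, g * L = L * g := by
    intro g hg
    have h1 : gᵀ * S.Jᵀ * g = S.Jᵀ := by
      have := congrArg transpose (hJg g hg)
      rwa [transpose_mul, transpose_mul, transpose_transpose, ← Matrix.mul_assoc] at this
    have h2 : gᵀ * Ψᵀ * g = Ψᵀ := by
      have := congrArg transpose (hΨg g hg)
      rwa [transpose_mul, transpose_mul, transpose_transpose, ← Matrix.mul_assoc] at this
    have h3 : (gᵀ * S.Jᵀ) * (g * L) = (gᵀ * S.Jᵀ) * (L * g) := by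
      calc (gᵀ * S.Jᵀ) * (g * L) = (gᵀ * S.Jᵀ * g) * L := by rw [Matrix.mul_assoc _ g L]
        _ = Ψᵀ := by rw [h1, hJL]
        _ = gᵀ * (S.Jᵀ * L) * g := by rw [hJL, h2]
        _ = (gᵀ * S.Jᵀ) * (L * g) := by simp only [Matrix.mul_assoc]
    have h4 : IsUnit (gᵀ * S.Jᵀ).det := by
      rw [det_mul, det_transpose]
      exact (isUnit_of_form hJ (hJg g hg)).mul hJt
    calc g * L = (gᵀ * S.Jᵀ)⁻¹ * ((gᵀ * S.Jᵀ) * (g * L)) := by
          rw [← Matrix.mul_assoc (gᵀ * S.Jᵀ)⁻¹, nonsing_inv_mul _ h4, Matrix.one_mul]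
      _ = L * g := by
          rw [h3, ← Matrix.mul_assoc (gᵀ * S.Jᵀ)⁻¹, nonsing_inv_mul _ h4, Matrix.one_mul]
  have hJCLK : S.Jᵀ * (C' * L * S.K) = 1 := by
    have h1 : Cᵀ * S.Jᵀ * C = S.Jᵀ := by
      have := congrArg transpose (hJg C hC)
      rwa [transpose_mul, transpose_mul, transpose_transpose, ← Matrix.mul_assoc] at this
    have h2 : Cᵀ * S.Jᵀ = S.Jᵀ * C' := by
      calc Cᵀ * S.Jᵀ = Cᵀ * S.Jᵀ * C * C' := by
            rw [Matrix.mul_assoc _ C, hCC', Matrix.mul_one]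
        _ = S.Jᵀ * C' := by rw [h1]
    have h3 : Cᵀ * Ψᵀ * S.K = 1 := by
      have := congrArg transpose hpol
      rwa [transpose_mul, transpose_mul, transpose_transpose, transpose_one,
        ← Matrix.mul_assoc] at this
    calc S.Jᵀ * (C' * L * S.K) = S.Jᵀ * C' * L * S.K := by simp only [Matrix.mul_assoc]
      _ = Cᵀ * (S.Jᵀ * L) * S.K := by rw [← h2]; simp only [Matrix.mul_assoc]
      _ = 1 := by rw [hJL, h3]
  let TS : TSys B :=
    { A := S.A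
      relabel := S.relabel
      empty := S.empty
      mul := S.mul
      con := by
        intro ι κ _ _ _ _ v u hv hu
        have h1 := PSys.tp_mem hJ (hcomm1 L hLg) (S.conj hv)
        have h2 := hfix ι _ h1 C' hC'
        have h3 : tp ι S.Jᵀ *ᵥ (tp ι L *ᵥ (tp ι S.K *ᵥ star v)) = star v := by
          rw [← h2, mulVec_mulVec, mulVec_mulVec, mulVec_mulVec, ← tp_mul, ← tp_mul, ← tp_mul]
          rw [show S.Jᵀ * C' * L * S.K = S.Jᵀ * (C' * L * S.K) by simp only [Matrix.mul_assoc],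
            hJCLK, tp_one, one_mulVec]
        have h4 := PSys.con_mem h1 hu
        rw [h3] at h4
        exact h4 }
  have hform : TS.HasForm := by
    refine ⟨S.J⁻¹, ?_, ?_⟩
    · exact isUnit_nonsing_inv_det _ hJ
    · have h1 := hcomm1 1 fun g _ => by rw [Matrix.one_mul, Matrix.mul_one]
      simp only [Matrix.one_mul] at h1
      exact h1
  have hstar : ∀ g ∈ gen w T, gᴴ ∈ gen w T := by
    intro g hg
    rw [gen] at hg
    induction hg using Submonoid.closure_induction with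
    | mem g hg =>
      obtain ⟨e, he, z, hz, rfl⟩ := hg
      obtain ⟨g', hg', h1⟩ := hinv e he z hz
      set g := curve w e z with hgdef
      have h2 : gᴴ * S.Kᵀ * g'ᵀ = S.Kᵀ := by
        have := congrArg transpose h1
        rwa [transpose_mul, transpose_mul] at this
      have h3 : gᴴ * C' = C' * g' := by
        calc gᴴ * C' = gᴴ * (S.Kᵀ * (g'ᵀ * Ψ * g')) := by rw [hΨg g' hg', hKΨ]
          _ = (gᴴ * S.Kᵀ * g'ᵀ) * Ψ * g' := by simp only [Matrix.mul_assoc]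
          _ = C' * g' := by rw [h2, hKΨ]
      have h4 : gᴴ = C' * g' * C := by
        rw [← h3, Matrix.mul_assoc, hCC, Matrix.mul_one]
      rw [h4]
      exact Submonoid.mul_mem _ (Submonoid.mul_mem _ hC' hg') hC
    | one => rw [conjTranspose_one]; exact Submonoid.one_mem _
    | mul x y _ _ hx hy =>
      rw [conjTranspose_mul]
      exact Submonoid.mul_mem _ hy hx
  exact ⟨hstar, TS, hform, fun ι _ _ => rfl⟩

/-- **The theorem on systems of tensors with a bilinear contraction.** -/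
theorem psys_main (S : PSys B) {w : ℕ} {T : Set (ℤ → Matrix B B ℂ)}
    (hT : ∀ e ∈ T, curve w e 1 = 1) (hproj : ∀ e ∈ T, ∀ j k : ℤ, j ≠ k → e j * e k = 0)
    (hinv : ∀ e ∈ T, ∀ z : ℂ, z ≠ 0 → ∃ g' ∈ gen w T, g' * (S.K * (curve w e z).map star) = S.K)
    {Ψ C C' : Matrix B B ℂ} (hC : C ∈ gen w T) (hC' : C' ∈ gen w T) (hCC : C' * C = 1)
    (hpol : S.Kᵀ * Ψ * C = 1)
    (hJ : IsUnit S.J.det) (hJg : ∀ g ∈ gen w T, gᵀ * S.J * g = S.J)
    (hΨg : ∀ g ∈ gen w T, gᵀ * Ψ * g = Ψ)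
    (hfix : ∀ (ι : Type) [Fintype ι] [DecidableEq ι] (v : (ι → B) → ℂ), v ∈ S.A ι →
      ∀ g ∈ gen w T, tp ι g *ᵥ v = v)
    (hcen : ∀ Z : Matrix B B ℂ, (∀ g ∈ gen w T, g * Z = Z * g) →
      (∀ M : Matrix B B ℂ, (∀ g ∈ gen w T, g * M = M * g) → Z * M = M * Z) →
        Z * S.J⁻¹ = S.J⁻¹ * Zᵀ)
    {v0 : (Fin 1 → B) → ℂ} (hv0 : v0 ≠ 0) (hv0G : ∀ g ∈ gen w T, tp (Fin 1) g *ᵥ v0 = v0)
    (hH : ∀ n : ℕ, n ≤ pbound (Fintype.card B) → ∀ v : (Fin n → B) → ℂ,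
      (∀ g ∈ gen w T, tp (Fin n) g *ᵥ v = v) → v ∈ S.A (Fin n))
    {ι : Type} [Fintype ι] [DecidableEq ι] {v : (ι → B) → ℂ}
    (hv : ∀ g ∈ gen w T, tp ι g *ᵥ v = v) : v ∈ S.A ι := by
  have hb1 : 1 ≤ Fintype.card B := by
    obtain ⟨I, -⟩ := Function.ne_iff.1 hv0
    exact Fintype.card_pos_iff.2 ⟨I 0⟩
  have h4 := four_le_pbound hb1
  obtain ⟨hstar, TS, hform, hTS⟩ := exists_tsys S hinv hC hC' hCC hpol hJ hJg hΨg hfix
    (hH 2 (by omega))
  rw [← hTS]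
  refine machine2 hform hstar (J0 := S.J⁻¹) (isUnit_nonsing_inv_det _ hJ)
    (fun g hg => dual_form hJ (hJg g hg))
    (fin_of_cen (isUnit_nonsing_inv_det _ hJ) (fun Z hZ => conn hT hproj hZ) hcen) hv0 hv0G ?_ hv
  intro n hn v hv
  rw [hTS]
  exact hH n hn v hv

end Pool.Agent.H842.PP
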