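import Pool.Graph.R_pool_sql_team_seeded_b0a926ef.R914.UN.Mach

/-!
# A system of tensors is the system of the invariants of its stabiliser
-/

set_option linter.unusedSectionVars false
set_option linter.unusedSimpArgs false

namespace Pool.Agent.H842.PP
open MvPolynomial Matrix
open Pool.Agent.R914.UN

variable {B : Type} [Fintype B] [DecidableEq B]

section proj
variable {I : Type} [Fintype I] [DecidableEq I] {U : Submodule ℂ (I → ℂ)} {P : Matrix I I ℂ}

/-- orthogonal projections are hermitian -/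
theorem isProj_herm (hP : IsProj U P) : Pᴴ = P := by
  have h1 : ∀ u v : I → ℂ, star (P *ᵥ u) ⬝ᵥ v = star (P *ᵥ u) ⬝ᵥ (P *ᵥ v) := by
    intro u v
    have := hP.orth v _ (hP.mem u)
    rwa [dotProduct_sub, sub_eq_zero] at this
  have h2 : ∀ u v : I → ℂ, star u ⬝ᵥ (P *ᵥ v) = star (P *ᵥ u) ⬝ᵥ v := by
    intro u v
    rw [star_dot_comm u, h1 v u, ← star_dot_comm, h1 u v]
  ext i j
  have h3 := h2 (Pi.single i 1) (Pi.single j 1)
  rw [mulVec_single_one, mulVec_single_one] at h3
  have h4 : star (Pi.single i (1 : ℂ) : I → ℂ) ⬝ᵥ P.col j = P i j := by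
    rw [← Pi.single_star, star_one, single_dotProduct, one_mul]
    rfl
  have h5 : star (P.col i) ⬝ᵥ (Pi.single j (1 : ℂ) : I → ℂ) = star (P j i) := by
    rw [dotProduct_single, mul_one]
    rfl
  rw [h4, h5] at h3
  rw [conjTranspose_apply, h3]

end proj

/-- the conjugate polynomial: its value at `g` is the conjugate of the value at the conjugate
transpose -/
noncomputable def sw : MvPolynomial (B × B) ℂ →+* MvPolynomial (B × B) ℂ :=
  eval₂Hom (C.comp (starRingEnd ℂ)) fun q => X (q.2, q.1)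

theorem sw_C (c : ℂ) : (sw (C c) : MvPolynomial (B × B) ℂ) = C (star c) := by
  rw [sw, eval₂Hom_C]
  rfl

theorem sw_X (q : B × B) : sw (X q) = (X (q.2, q.1) : MvPolynomial (B × B) ℂ) := by
  rw [sw, eval₂Hom_X']

theorem sw_xm {ι : Type} [Fintype ι] (I J : ι → B) : sw (xm I J) = xm J I := by
  rw [xm, map_prod, xm]
  exact Finset.prod_congr rfl fun i _ => sw_X _

theorem ev_sw (g : Matrix B B ℂ) (p : MvPolynomial (B × B) ℂ) : ev g (sw p) = star (ev gᴴ p) := by
  induction p using MvPolynomial.induction_on with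
  | C c => rw [sw_C, ev_C, ev_C]
  | add p q hp hq => rw [map_add, map_add, map_add, star_add, hp, hq]
  | mul_X p q hp =>
    rw [map_mul, map_mul, map_mul, star_mul', hp, sw_X, ev_X, ev_X, conjTranspose_apply, star_star]

theorem sw_sw (p : MvPolynomial (B × B) ℂ) : sw (sw p) = p := by
  induction p using MvPolynomial.induction_on with
  | C c => rw [sw_C, sw_C, star_star]
  | add p q hp hq => rw [map_add, map_add, hp, hq]
  | mul_X p q hp => rw [map_mul, map_mul, hp, sw_X, sw_X]

variable {S : TSys B}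

theorem mu_sw (p : MvPolynomial (B × B) ℂ) : S.mu (sw p) = star (S.mu p) := by
  induction p using poly_ind with
  | hx n I J =>
    rw [sw_xm, S.mu_xm, S.mu_xm]
    have h1 := congrFun (congrFun (isProj_herm (S.isProj (Fin n))) J) I
    rw [conjTranspose_apply] at h1
    exact h1.symm
  | h0 => rw [map_zero, map_zero, star_zero]
  | ha f g hf hg => rw [map_add, map_add, map_add, star_add, hf, hg]
  | hc c f hf => rw [map_mul, sw_C, S.mu_C_mul, S.mu_C_mul, star_mul', hf]

theorem sw_mem_ker {p : MvPolynomial (B × B) ℂ} (hp : p ∈ S.ker) : sw p ∈ S.ker := by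
  intro q
  have h1 : sw p * q = sw (p * sw q) := by rw [map_mul, sw_sw]
  rw [h1, mu_sw, hp, star_zero]

/-- the stabiliser is closed under conjugate transposes -/
theorem fixes_star (hS : S.HasForm) {g : Matrix B B ℂ} (hg : S.Fixes g) : S.Fixes gᴴ := by
  apply S.fixes_of_zero
  intro p hp
  have h1 := TSys.zero_of_fixes hS hg (sw_mem_ker hp)
  rw [ev_sw] at h1
  rwa [star_eq_zero] at h1

/-- **Tannakian duality.** -/
theorem tannaka {ι : Type} [Fintype ι] [DecidableEq ι] {v : (ι → B) → ℂ}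
    (hv : ∀ g, S.Fixes g → tp ι g *ᵥ v = v) : v ∈ S.A ι := by
  classical
  by_contra hcon
  set a : (ι → B) → ℂ := v - S.R ι *ᵥ v with ha
  have ha0 : a ≠ 0 := by
    intro h
    apply hcon
    rw [sub_eq_zero.1 h]
    exact (S.isProj ι).mem v
  have hRa : S.R ι *ᵥ a = 0 := by
    rw [ha, mulVec_sub, (S.isProj ι).self ((S.isProj ι).mem v), sub_self]
  have hga : ∀ g, S.Fixes g → tp ι g *ᵥ a = a := by
    intro g hg
    rw [ha, mulVec_sub, hv g hg, hg ι _ ((S.isProj ι).mem v)]
  -- normalise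
  set r : ℝ := ∑ i, ‖a i‖ ^ 2 with hr
  have hr0 : 0 < r := by
    obtain ⟨i, hi⟩ := Function.ne_iff.1 ha0
    refine Finset.sum_pos' (fun i _ => by positivity) ⟨i, Finset.mem_univ i, ?_⟩
    have : 0 < ‖a i‖ := norm_pos_iff.2 hi
    positivity
  set c : ℂ := Complex.ofReal (Real.sqrt r)⁻¹ with hc
  set u : (ι → B) → ℂ := c • a with hu
  have hu1 : star u ⬝ᵥ u = 1 := by
    rw [hu, star_smul, smul_dotProduct, dotProduct_smul, star_dot_self, ← hr, smul_eq_mul,
      smul_eq_mul, hc, Complex.star_def, Complex.conj_ofReal, ← Complex.ofReal_mul,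
      ← Complex.ofReal_mul]
    rw [← Complex.ofReal_one]
    congr 1
    have h1 : Real.sqrt r ≠ 0 := (Real.sqrt_pos.2 hr0).ne'
    have h2 : Real.sqrt r * Real.sqrt r = r := Real.mul_self_sqrt hr0.le
    field_simp
    rw [pow_two, h2]
  have hRu : S.R ι *ᵥ u = 0 := by rw [hu, mulVec_smul, hRa, smul_zero]
  have hgu : ∀ g, S.Fixes g → tp ι g *ᵥ u = u := by
    intro g hg
    rw [hu, mulVec_smul, hga g hg]
  have h2 : fp u - 1 ∈ S.ker.radical := by
    rw [← vanishingIdeal_zeroLocus_eq_radical (K := ℂ), mem_vanishingIdeal_iff]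
    intro x hx
    set g : Matrix B B ℂ := Matrix.of fun i j => x (i, j) with hg
    have hev : ∀ q ∈ S.ker, ev g q = 0 := by
      intro q hq
      have h1 := (mem_zeroLocus_iff).1 hx q hq
      rw [ev]
      rw [aeval_eq_eval] at h1
      exact h1
    have h3 : ev g (fp u - 1) = 0 := by
      rw [map_sub, map_one, ev_fp, hgu g (S.fixes_of_zero hev), hu1, sub_self]
    rw [aeval_eq_eval]
    exact h3
  obtain ⟨M, hM⟩ := h2
  have h3 : ∀ k : ℕ, S.mu (fp u ^ k) = ∑ j ∈ Finset.range M,
      (k.choose j : ℂ) * S.mu ((fp u - 1) ^ j) := by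
    intro k
    have h4 : fp u ^ k = ∑ j ∈ Finset.range (k + 1 + M), C (k.choose j : ℂ) * (fp u - 1) ^ j := by
      have h5 : fp u ^ k = ∑ j ∈ Finset.range (k + 1), C (k.choose j : ℂ) * (fp u - 1) ^ j := by
        conv_lhs => rw [show fp u = (fp u - 1) + 1 by ring]
        rw [add_pow]
        refine Finset.sum_congr rfl fun j _ => ?_
        rw [one_pow, mul_one, mul_comm]
        congr 1
      rw [h5]
      refine Finset.sum_subset (Finset.range_mono (by omega)) fun j _ hj => ?_
      rw [Nat.choose_eq_zero_of_lt (by simpa using hj), Nat.cast_zero, C_0, zero_mul]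
    rw [h4, map_sum]
    simp only [S.mu_C_mul]
    symm
    refine Finset.sum_subset (Finset.range_mono (by omega)) fun j _ hj => ?_
    have h5 : (fp u - 1) ^ j ∈ S.ker := by
      have h6 : M ≤ j := by simpa using hj
      obtain ⟨i, rfl⟩ := Nat.exists_eq_add_of_le h6
      rw [pow_add]
      exact Ideal.mul_mem_right _ _ hM
    have h6 := h5 1
    rw [mul_one] at h6
    rw [h6, mul_zero]
  have h4 : ∀ k : ℕ, ‖S.mu (fp u ^ k)‖ ≤ 1 := by
    intro k
    obtain ⟨κ, _, _, c', h5, h6⟩ := fp_pow hu1 k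
    rw [h6, mu_fp]
    exact (S.isProj κ).norm_le h5
  have h5 := moment (M := M) (fun j => S.mu ((fp u - 1) ^ j)) (fun k => by
    rw [← h3]
    exact h4 k) 1
  rw [← h3, ← h3, pow_one, pow_zero, S.mu_one, mu_fp, hRu, dotProduct_zero] at h5
  exact zero_ne_one h5

end Pool.Agent.H842.PP
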