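import Pool.Agent.H842.PP.Haar

/-!
# The measure of a neighbourhood of the identity, and the unitary stabiliser
-/

set_option linter.unusedSectionVars false

namespace Pool.Agent.H842.PP
open Matrix MeasureTheory
open Pool.Agent.R914.UN

variable {B : Type} [Fintype B] [DecidableEq B]

/-- the index of the interval which contains the number -/
noncomputable def cellN (s : ℕ) (x : ℝ) : ℕ := min ⌊(x + 1) * s / 2⌋₊ (s - 1)

theorem cellN_lt {s : ℕ} (hs : 1 ≤ s) (x : ℝ) : cellN s x < s := by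
  have : cellN s x ≤ s - 1 := min_le_right _ _
  omega

theorem cellN_bounds {s : ℕ} (hs : 1 ≤ s) {x : ℝ} (h1 : -1 ≤ x) (h2 : x ≤ 1) :
    (cellN s x : ℝ) ≤ (x + 1) * s / 2 ∧ (x + 1) * s / 2 ≤ cellN s x + 1 := by
  have hs' : (1 : ℝ) ≤ s := by exact_mod_cast hs
  have h0 : 0 ≤ (x + 1) * s / 2 := by
    have : 0 ≤ x + 1 := by linarith
    positivity
  have hle : (x + 1) * s / 2 ≤ s := by nlinarith
  constructor
  · have h3 : cellN s x ≤ ⌊(x + 1) * s / 2⌋₊ := min_le_left _ _
    exact (Nat.cast_le.2 h3).trans (Nat.floor_le h0)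
  · rw [cellN]
    rcases le_total ⌊(x + 1) * s / 2⌋₊ (s - 1) with h | h
    · rw [min_eq_left h]
      exact (Nat.lt_floor_add_one _).le
    · rw [min_eq_right h, Nat.cast_sub hs, Nat.cast_one]
      linarith

theorem cellN_dist {s : ℕ} (hs : 1 ≤ s) {x y : ℝ} (hx1 : -1 ≤ x) (hx2 : x ≤ 1) (hy1 : -1 ≤ y)
    (hy2 : y ≤ 1) (h : cellN s x = cellN s y) : (x - y) ^ 2 ≤ (2 / s) ^ 2 := by
  obtain ⟨h1, h2⟩ := cellN_bounds hs hx1 hx2
  obtain ⟨h3, h4⟩ := cellN_bounds hs hy1 hy2
  rw [h] at h1 h2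
  have hs' : (0 : ℝ) < s := by exact_mod_cast hs
  have h5 : |x - y| ≤ 2 / s := by
    rw [abs_le]
    constructor
    · rw [neg_le, le_div_iff₀ hs']
      nlinarith
    · rw [le_div_iff₀ hs']
      nlinarith
  rw [← sq_abs]
  exact pow_le_pow_left₀ (abs_nonneg _) h5 2

/-- the real parts of traces of unitary matrices and distances -/
theorem trace_dist {u v : Matrix B B ℂ} (hu : IsU u) (hv : IsU v) :
    ∑ i, ∑ j, (((u i j).re - (v i j).re) ^ 2 + ((u i j).im - (v i j).im) ^ 2) =
      2 * (Fintype.card B : ℝ) - 2 * (uᴴ * v).trace.re := by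
  have h1 : ((u - v)ᴴ * (u - v)).trace.re =
      ∑ i, ∑ j, (((u i j).re - (v i j).re) ^ 2 + ((u i j).im - (v i j).im) ^ 2) := by
    rw [Matrix.trace, Complex.re_sum, Finset.sum_comm]
    refine Finset.sum_congr rfl fun j _ => ?_
    rw [diag_apply, Matrix.mul_apply, Complex.re_sum]
    refine Finset.sum_congr rfl fun i _ => ?_
    rw [conjTranspose_apply, Matrix.sub_apply, Complex.star_def, Complex.mul_re, Complex.conj_re,
      Complex.conj_im, Complex.sub_re, Complex.sub_im]
    ring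
  rw [← h1]
  have h2 : (u - v)ᴴ * (u - v) = 1 + 1 - uᴴ * v - (uᴴ * v)ᴴ := by
    rw [conjTranspose_sub, conjTranspose_mul, conjTranspose_conjTranspose]
    rw [sub_mul, mul_sub, mul_sub, hu.inv, hv.inv]
    abel
  rw [h2, Matrix.trace_sub, Matrix.trace_sub, Matrix.trace_add, Matrix.trace_one,
    Matrix.trace_conjTranspose]
  simp only [Complex.sub_re, Complex.add_re, Complex.natCast_re, Complex.star_def, Complex.conj_re]
  ring

theorem entry_sq {u : Matrix B B ℂ} (hu : IsU u) (i j : B) :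
    (u i j).re ^ 2 + (u i j).im ^ 2 ≤ 1 := by
  have h1 := entry_norm_bound_of_unitary (U := u) (mem_unitaryGroup_iff.2 hu) i j
  have h2 : ‖u i j‖ ^ 2 ≤ 1 := by
    have := norm_nonneg (u i j)
    nlinarith
  rw [Complex.sq_norm, Complex.normSq_apply] at h2
  nlinarith

section ball
variable {K : Type} [Group K] [TopologicalSpace K] [CompactSpace K] [MeasurableSpace K]
  [BorelSpace K] [IsTopologicalGroup K] {ρ : K →* Matrix B B ℂ}

/-- **The measure of a neighbourhood of the identity.** -/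
theorem ball_measure (μ : Measure K) [IsProbabilityMeasure μ] [μ.IsMulLeftInvariant]
    (hU : ∀ k, IsU (ρ k)) (hB : 1 ≤ Fintype.card B) :
    1 ≤ (4 * (Fintype.card B : ℝ)) ^ (2 * Fintype.card B ^ 2) *
      μ.real {k | (Fintype.card B : ℝ) - 1 / 4 ≤ (ρ k).trace.re} := by
  set b := Fintype.card B with hb
  have hs : 1 ≤ 4 * b := by omega
  let F : K → (B × B × Bool → Fin (4 * b)) := fun k q =>
    ⟨cellN (4 * b) (if q.2.2 = true then (ρ k q.1 q.2.1).re else (ρ k q.1 q.2.1).im),
      cellN_lt hs _⟩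
  set Ball := {k | (b : ℝ) - 1 / 4 ≤ (ρ k).trace.re} with hBall
  have hF : ∀ k k', F k = F k' → k⁻¹ * k' ∈ Ball := by
    intro k k' h
    have h1 : ∀ i j, ((ρ k i j).re - (ρ k' i j).re) ^ 2 + ((ρ k i j).im - (ρ k' i j).im) ^ 2 ≤
        2 * (2 / ((4 * b : ℕ) : ℝ)) ^ 2 := by
      intro i j
      have hb1 := entry_sq (hU k) i j
      have hb2 := entry_sq (hU k') i j
      have h2 := congrArg Fin.val (congrFun h (i, j, true))
      have h3 := congrArg Fin.val (congrFun h (i, j, false))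
      simp only [F, if_true, Bool.false_eq_true, if_false] at h2 h3
      have h4 := cellN_dist hs (by nlinarith) (by nlinarith) (by nlinarith) (by nlinarith) h2
      have h5 := cellN_dist hs (by nlinarith) (by nlinarith) (by nlinarith) (by nlinarith) h3
      linarith
    have h2 := trace_dist (hU k) (hU k')
    have h3 : ∑ i, ∑ j, (((ρ k i j).re - (ρ k' i j).re) ^ 2 +
        ((ρ k i j).im - (ρ k' i j).im) ^ 2) ≤ ∑ _i : B, ∑ _j : B, 2 * (2 / ((4 * b : ℕ) : ℝ)) ^ 2 :=
      Finset.sum_le_sum fun i _ => Finset.sum_le_sum fun j _ => h1 i j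
    rw [Finset.sum_const, Finset.sum_const, Finset.card_univ, nsmul_eq_mul, nsmul_eq_mul, ← hb,
      h2] at h3
    have h4 : ρ (k⁻¹ * k') = (ρ k)ᴴ * ρ k' := by
      rw [map_mul]
      congr 1
      have h5 : ρ k⁻¹ * ρ k = 1 := by rw [← map_mul, inv_mul_cancel, map_one]
      calc ρ k⁻¹ = ρ k⁻¹ * (ρ k * (ρ k)ᴴ) := by rw [hU k, mul_one]
        _ = (ρ k)ᴴ := by rw [← Matrix.mul_assoc, h5, one_mul]
    rw [hBall, Set.mem_ofPred_eq, h4]
    have hb0 : (b : ℝ) ≠ 0 := by
      have : b ≠ 0 := by omega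
      exact_mod_cast this
    have h5 : (b : ℝ) * (b * (2 * (2 / ((4 * b : ℕ) : ℝ)) ^ 2)) = 1 / 2 := by
      push_cast
      field_simp
      norm_num
    rw [h5] at h3
    linarith
  have hcell : ∀ c, μ (F ⁻¹' {c}) ≤ μ Ball := by
    intro c
    rcases (F ⁻¹' {c}).eq_empty_or_nonempty with h | ⟨k0, hk0⟩
    · rw [h, measure_empty]
      exact zero_le
    · rw [← measure_preimage_mul μ k0⁻¹ Ball]
      refine measure_mono fun k hk => ?_
      exact hF k0 k (hk0.trans hk.symm)
  have h1 : (1 : ENNReal) ≤ ∑ c, μ (F ⁻¹' {c}) := by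
    rw [← measure_univ (μ := μ)]
    refine le_trans (measure_mono ?_) (measure_iUnion_fintype_le μ fun c => F ⁻¹' {c})
    intro k _
    exact Set.mem_iUnion.2 ⟨F k, rfl⟩
  have h2 : (1 : ENNReal) ≤ (Fintype.card (B × B × Bool → Fin (4 * b)) : ENNReal) * μ Ball := by
    refine h1.trans ((Finset.sum_le_sum fun c _ => hcell c).trans ?_)
    rw [Finset.sum_const, Finset.card_univ, nsmul_eq_mul]
  have h3 : Fintype.card (B × B × Bool → Fin (4 * b)) = (4 * b) ^ (2 * b ^ 2) := by
    rw [Fintype.card_fun, Fintype.card_fin, Fintype.card_prod, Fintype.card_prod,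
      Fintype.card_bool, ← hb]
    congr 1
    ring
  rw [h3] at h2
  have h4 := ENNReal.toReal_mono (ENNReal.mul_ne_top (ENNReal.natCast_ne_top _)
    (measure_ne_top μ Ball)) h2
  rw [ENNReal.toReal_mul, ENNReal.toReal_one, ENNReal.toReal_natCast] at h4
  rw [measureReal_def]
  push_cast at h4
  exact h4

end ball

/-! ### The unitary stabiliser -/

/-- The unitary matrices which fix the tensors of the system. -/
def US (S : TSys B) : Subgroup (Matrix.unitaryGroup B ℂ) where
  carrier := {k | S.Fixes (k : Matrix B B ℂ)}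
  mul_mem' {a b} ha hb := TSys.Fixes.mul ha hb
  one_mem' := TSys.Fixes.one
  inv_mem' {k} hk := by
    intro ι _ _ v hv
    have h1 := hk ι v hv
    have h2 : ((k⁻¹ : Matrix.unitaryGroup B ℂ) : Matrix B B ℂ) * (k : Matrix B B ℂ) = 1 := by
      have := congrArg Subtype.val (inv_mul_cancel k)
      exact this
    conv_lhs => rw [← h1]
    rw [mulVec_mulVec, ← tp_mul, h2, tp_one, one_mulVec]

theorem isClosed_US (S : TSys B) : IsClosed (US S : Set (Matrix.unitaryGroup B ℂ)) := by
  have h1 : (US S : Set (Matrix.unitaryGroup B ℂ)) = ⋂ (ι : Type), ⋂ (_ : Fintype ι),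
      ⋂ (_ : DecidableEq ι), ⋂ (v : (ι → B) → ℂ), ⋂ (_ : v ∈ S.A ι),
        {k : Matrix.unitaryGroup B ℂ | tp ι (k : Matrix B B ℂ) *ᵥ v = v} := by
    ext k
    simp only [Set.mem_iInter, Set.mem_ofPred_eq]
    exact Iff.rfl
  rw [h1]
  refine isClosed_iInter fun ι => isClosed_iInter fun _ => isClosed_iInter fun _ =>
    isClosed_iInter fun v => isClosed_iInter fun _ => isClosed_eq ?_ continuous_const
  refine continuous_pi fun I => ?_
  simp only [mulVec, dotProduct, tp_apply]
  refine continuous_finsetSum _ fun J _ => Continuous.mul ?_ continuous_const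
  refine continuous_finsetProd _ fun i _ => ?_
  exact (continuous_apply_apply (I i) (J i)).comp continuous_subtype_val

instance : CompactSpace (Matrix.unitaryGroup B ℂ) := by
  refine (isCompact_iff_compactSpace (s := ((Matrix.unitaryGroup B ℂ : Submonoid _) :
    Set (Matrix B B ℂ)))).1 ?_
  have h1 : IsCompact (Set.pi Set.univ fun _ : B => Set.pi Set.univ fun _ : B =>
      Metric.closedBall (0 : ℂ) 1) :=
    isCompact_univ_pi fun _ => isCompact_univ_pi fun _ => isCompact_closedBall _ _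
  refine IsCompact.of_isClosed_subset (s := (Set.pi Set.univ fun _ : B => Set.pi Set.univ
    fun _ : B => Metric.closedBall (0 : ℂ) 1 : Set (Matrix B B ℂ))) h1 ?_ ?_
  · exact isClosed_unitary (R := Matrix B B ℂ)
  · intro U hU i _ j _
    rw [mem_closedBall_zero_iff]
    exact entry_norm_bound_of_unitary hU i j

instance (S : TSys B) : CompactSpace (US S) :=
  isCompact_iff_compactSpace.1 (isClosed_US S).isCompact

/-- the representation -/
def rho (S : TSys B) : US S →* Matrix B B ℂ :=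
  (Submonoid.subtype (Matrix.unitaryGroup B ℂ)).comp (Subgroup.subtype (US S))

theorem rho_cont (S : TSys B) : Continuous (rho S) :=
  continuous_subtype_val.comp continuous_subtype_val

theorem rho_isU (S : TSys B) (k : US S) : IsU (rho S k) := mem_unitaryGroup_iff.1 k.1.2

theorem rho_fixes (S : TSys B) (k : US S) : S.Fixes (rho S k) := k.2

theorem exists_rho {S : TSys B} {u : Matrix B B ℂ} (hu : IsU u) (hf : S.Fixes u) :
    ∃ k : US S, rho S k = u := ⟨⟨⟨u, mem_unitaryGroup_iff.2 hu⟩, hf⟩, rfl⟩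

theorem mem_iff_rho {S : TSys B} (hS : S.HasForm) {ι : Type} [Fintype ι] [DecidableEq ι]
    (v : (ι → B) → ℂ) : v ∈ S.A ι ↔ ∀ k, tp ι (rho S k) *ᵥ v = v := by
  constructor
  · intro hv k
    exact rho_fixes S k ι v hv
  · intro h
    refine unitary_tannaka hS fun g hg hf => ?_
    obtain ⟨k, rfl⟩ := exists_rho hg hf
    exact h k

end Pool.Agent.H842.PP
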