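import Pool.Agent.H842.PP.Diag

/-!
# A system of tensors is the system of the invariants of its unitary stabiliser
-/

set_option linter.unusedSectionVars false

namespace Pool.Agent.H842.PP
open Matrix ComplexOrder
open Pool.Agent.R914.UN

variable {B : Type} [Fintype B] [DecidableEq B]

/-- products of conjugated diagonal matrices -/
theorem conj_diag_mul {W : Matrix B B ℂ} (hW : IsU W) (l m : B → ℂ) :
    (W * diagonal l * Wᴴ) * (W * diagonal m * Wᴴ) = W * diagonal (fun b => l b * m b) * Wᴴ := by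
  calc (W * diagonal l * Wᴴ) * (W * diagonal m * Wᴴ) =
      W * (diagonal l * (Wᴴ * W) * diagonal m) * Wᴴ := by simp only [Matrix.mul_assoc]
    _ = _ := by rw [hW.inv, mul_one, diagonal_mul_diagonal]

theorem conj_diag_one {W : Matrix B B ℂ} (hW : IsU W) {l : B → ℂ} (hl : ∀ b, l b = 1) :
    W * diagonal l * Wᴴ = 1 := by
  rw [show l = fun _ => 1 from funext hl, diagonal_one, mul_one, hW]

theorem conj_diag_star (W : Matrix B B ℂ) (l : B → ℂ) :
    (W * diagonal l * Wᴴ)ᴴ = W * diagonal (fun b => star (l b)) * Wᴴ := by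
  rw [conjTranspose_mul, conjTranspose_mul, conjTranspose_conjTranspose, diagonal_conjTranspose,
    Matrix.mul_assoc]
  rfl

theorem isU_conj {W : Matrix B B ℂ} (hW : IsU W) {l : B → ℂ} (hl : ∀ b, ‖l b‖ = 1) :
    IsU (W * diagonal l * Wᴴ) := (hW.mul (isU_diagonal hl)).mul hW.star

/-- **Tannakian duality for the unitary stabiliser.** -/
theorem unitary_tannaka {S : TSys B} (hS : S.HasForm) {ι : Type} [Fintype ι] [DecidableEq ι]
    {v : (ι → B) → ℂ} (hv : ∀ g, IsU g → S.Fixes g → tp ι g *ᵥ v = v) : v ∈ S.A ι := by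
  apply tannaka
  intro g hg
  have hA : S.Fixes (gᴴ * g) := (fixes_star hS hg).mul hg
  have hgu : IsUnit g := (Matrix.isUnit_iff_isUnit_det g).2 (hg.isUnit hS)
  have hpd : (gᴴ * g).PosDef := Matrix.PosDef.conjTranspose_mul_self g
    (Matrix.mulVec_injective_iff_isUnit.2 hgu)
  obtain ⟨W, d, hW, hAd, hd⟩ := herm_diag hpd.isHermitian
  have hdpos : ∀ b, 0 < d b := by
    rw [hd]
    exact hpd.eigenvalues_pos
  let E : ℂ → B → ℂ := fun s b => Complex.exp (s * (Real.log (d b) : ℂ))
  have hEprod : ∀ (κ : Type) [Fintype κ] (s : ℂ) (I : κ → B),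
      ∏ i, E s (I i) = Complex.exp (s * ((∑ i, Real.log (d (I i)) : ℝ) : ℂ)) := by
    intro κ _ s I
    rw [← Complex.exp_sum, ← Finset.mul_sum, Complex.ofReal_sum]
  have key : ∀ (κ : Type) [Fintype κ] [DecidableEq κ] (z : (κ → B) → ℂ),
      tp κ (gᴴ * g) *ᵥ z = z → ∀ s : ℂ, tp κ (W * diagonal (E s) * Wᴴ) *ᵥ z = z := by
    intro κ _ _ z hz s
    rw [hAd, fix_diag hW] at hz
    rw [fix_diag hW]
    intro I hI
    have h1 := hz I hI
    have h2 : ∏ i, d (I i) = 1 := by exact_mod_cast h1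
    have h3 : ∑ i, Real.log (d (I i)) = 0 := by
      rw [← Real.log_prod (fun i _ => (hdpos _).ne'), h2, Real.log_one]
    rw [hEprod, h3, Complex.ofReal_zero, mul_zero, Complex.exp_zero]
  have hfix : ∀ s, S.Fixes (W * diagonal (E s) * Wᴴ) := fun s κ _ _ z hz => key κ z (hA κ z hz) s
  -- the unitary part
  have hEE : ∀ s t b, E s b * E t b = E (s + t) b := by
    intro s t b
    simp only [E]
    rw [← Complex.exp_add, ← add_mul]
  have hE1 : ∀ b, E 1 b = (d b : ℂ) := by
    intro b
    simp only [E]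
    rw [one_mul, ← Complex.ofReal_exp, Real.exp_log (hdpos b)]
  have hE0 : ∀ b, E 0 b = 1 := by
    intro b
    simp only [E]
    rw [zero_mul, Complex.exp_zero]
  set u := g * (W * diagonal (E (-(1 / 2))) * Wᴴ) with hu
  have huU : IsU u := by
    unfold IsU
    rw [mul_eq_one_comm, hu, conjTranspose_mul, conj_diag_star]
    have h1 : (fun b => star (E (-(1 / 2)) b)) = E (-(1 / 2)) := by
      funext b
      simp only [E]
      rw [Complex.star_def, ← Complex.exp_conj, map_mul, Complex.conj_ofReal]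
      congr 2
      rw [map_neg, map_div₀, map_one, Complex.conj_ofNat]
    rw [h1]
    calc (W * diagonal (E (-(1 / 2))) * Wᴴ) * gᴴ * (g * (W * diagonal (E (-(1 / 2))) * Wᴴ)) =
        (W * diagonal (E (-(1 / 2))) * Wᴴ) * (gᴴ * g) * (W * diagonal (E (-(1 / 2))) * Wᴴ) := by
          simp only [Matrix.mul_assoc]
      _ = (W * diagonal (E (-(1 / 2))) * Wᴴ) * (W * diagonal (fun b => (d b : ℂ)) * Wᴴ) *
          (W * diagonal (E (-(1 / 2))) * Wᴴ) := by rw [← hAd]
      _ = 1 := by
        rw [conj_diag_mul hW, conj_diag_mul hW]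
        apply conj_diag_one hW
        intro b
        rw [← hE1 b, hEE, hEE]
        norm_num
        exact hE0 b
  have huv : tp ι u *ᵥ v = v := hv u huU (hg.mul (hfix _))
  -- the positive part
  have hLt : ∀ (t : ℝ) (I : ι → B), (tp ι Wᴴ *ᵥ v) I ≠ 0 →
      Complex.exp ((t * Complex.I) * ((∑ i, Real.log (d (I i)) : ℝ) : ℂ)) = 1 := by
    intro t I hI
    have h1 := hv (W * diagonal (E (t * Complex.I)) * Wᴴ) (isU_conj hW fun b => by
      simp only [E]
      rw [show (t : ℂ) * Complex.I * (Real.log (d b) : ℂ) = ((t * Real.log (d b) : ℝ) : ℂ) *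
        Complex.I by push_cast; ring]
      exact Complex.norm_exp_ofReal_mul_I _) (hfix _)
    rw [fix_diag hW] at h1
    have h2 := h1 I hI
    rwa [hEprod] at h2
  have hPv : tp ι (W * diagonal (E (1 / 2)) * Wᴴ) *ᵥ v = v := by
    rw [fix_diag hW]
    intro I hI
    rw [hEprod]
    set L := ∑ i, Real.log (d (I i)) with hL
    by_cases hL0 : L = 0
    · rw [hL0, Complex.ofReal_zero, mul_zero, Complex.exp_zero]
    · exfalso
      have h1 := hLt (Real.pi / L) I hI
      rw [← hL, show ((Real.pi / L : ℝ) : ℂ) * Complex.I * (L : ℂ) = (Real.pi : ℂ) * Complex.I by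
        push_cast
        field_simp, Complex.exp_pi_mul_I] at h1
      norm_num at h1
  have hgu' : g = u * (W * diagonal (E (1 / 2)) * Wᴴ) := by
    rw [hu, Matrix.mul_assoc, conj_diag_mul hW, conj_diag_one hW, mul_one]
    intro b
    rw [hEE]
    norm_num
    exact hE0 b
  rw [hgu', tp_mul, ← mulVec_mulVec, hPv, huv]

end Pool.Agent.H842.PP
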